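import Mathlib
import Pool.Agent.Y405.CT.CriA
import Pool.Agent.Y737.CT.Lin

/-!
# Project QL (helper543): linear algebra over the field with three elements, the numbers of the even
and of all the kernel vectors

Adapted from `Y405/CT/CriA.lean` (helper405) and `Y737/CT/Lin.lean` (helper737).
-/

set_option autoImplicit false

namespace Pool.Agent.QL543

open Finset
open Pool.Agent.Y405.CT (Lp sum_split Lp_sigma)
open Pool.Agent.Y737.CT (Lp_sum)

/-- the kernels of a square matrix and of its transpose have the same number of elements -/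
theorem ker_transpose_card {S : Type} [Fintype S] [DecidableEq S] (N : Matrix S S (ZMod 3)) :
    {x : S → ZMod 3 | N.transpose.mulVec x = 0}.ncard = {x : S → ZMod 3 | N.mulVec x = 0}.ncard := by
  have key : ∀ A : Matrix S S (ZMod 3), {x : S → ZMod 3 | A.mulVec x = 0}.ncard =
      3 ^ (Fintype.card S - A.rank) := by
    intro A
    have h1 : {x : S → ZMod 3 | A.mulVec x = 0} = (LinearMap.ker A.mulVecLin : Set (S → ZMod 3)) := by
      ext x
      rw [SetLike.mem_coe, LinearMap.mem_ker]
      rfl
    rw [h1]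
    have h2 : (LinearMap.ker A.mulVecLin : Set (S → ZMod 3)).ncard =
        Nat.card (LinearMap.ker A.mulVecLin) := (Nat.card_coe_set_eq _).symm
    rw [h2, Module.natCard_eq_pow_finrank (K := ZMod 3), Nat.card_zmod]
    congr 1
    have h3 := LinearMap.finrank_range_add_finrank_ker A.mulVecLin
    have h4 : Module.finrank (ZMod 3) (LinearMap.range A.mulVecLin) = A.rank := rfl
    rw [h4, Module.finrank_fintype_fun_eq_card] at h3
    omega
  rw [key, key, Matrix.rank_transpose]

section lin

variable {J : Type} [Fintype J] {m : J → J → ZMod 3} {σ : J → J} {q : J}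

/-- the number of the kernel vectors and the number of the even kernel vectors -/
theorem lin_count (hσ : ∀ j, σ (σ j) = j) (hq : ∀ j, σ j = j ↔ j = q)
    (hs : ∀ i j, m i j = m j i) (ha : ∀ i j, m (σ i) (σ j) = - m i j) :
    3 * {v : J → ZMod 3 | ∀ j, Lp m v j = 0}.ncard ≤
      {v : J → ZMod 3 | (∀ j, Lp m v j = 0) ∧ ∀ j, v (σ j) = v j}.ncard ^ 2 := by
  classical
  obtain ⟨f, hf⟩ : ∃ f : J → ℕ, Function.Injective f :=
    ⟨fun j => (Fintype.equivFin J j : ℕ), fun a b h => (Fintype.equivFin J).injective (Fin.ext h)⟩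
  have hqq : σ q = q := (hq q).2 rfl
  have h3 : ∀ x : ZMod 3, x = -x → x = 0 := by decide
  -- additivity
  have hadd : ∀ (x y : J → ZMod 3) (a b : ZMod 3) (j : J),
      Lp m (fun i => a * x i + b * y i) j = a * Lp m x j + b * Lp m y j := by
    intro x y a b j
    unfold Lp
    rw [mul_sum, mul_sum, ← sum_add_distrib]
    exact sum_congr rfl fun i _ => by ring
  -- the matrix
  set S := {j // f j < f (σ j)}
  let dg : S → ZMod 3 := fun p => ∑ l : S, (m p l + m p (σ l)) + m p q
  let N : Matrix S S (ZMod 3) := fun p l => m p l + m p (σ l) - (if p = l then dg p else 0)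
  have hev : ∀ (x : S → ZMod 3) (X : J → ZMod 3), (∀ s : S, X s = x s) →
      (∀ j, X (σ j) = X j) → X q = 0 → ∀ p : S, Lp m X p = (N.mulVec x) p := by
    intro x X h1 h2 h4 p
    unfold Lp
    rw [sum_split σ q hσ hq f hf]
    have e1 : (N.mulVec x) p = ∑ l : S, (m p l + m p (σ l)) * x l - dg p * x p := by
      show ∑ l : S, N p l * x l = _
      have : ∀ l : S, N p l * x l = (m p l + m p (σ l)) * x l - (if p = l then dg p * x l else 0) := by
        intro l
        show (m p l + m p (σ l) - (if p = l then dg p else 0)) * x l = _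
        split_ifs <;> ring
      rw [sum_congr rfl fun l _ => this l, sum_sub_distrib, sum_ite_eq]
      simp
    rw [e1]
    have e2 : ∀ s : S, m p s * (X s - X p) + m p (σ s) * (X (σ s) - X p) =
        (m p s + m p (σ s)) * x s - (m p s + m p (σ s)) * x p := by
      intro s
      rw [h2, h1, h1]
      ring
    rw [sum_congr rfl fun s _ => e2 s, sum_sub_distrib, ← sum_mul, h4, h1]
    show _ = _ - (∑ l : S, (m p l + m p (σ l)) + m p q) * x p
    ring
  have hod : ∀ w : J → ZMod 3, (∀ j, w (σ j) = -w j) →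
      ∀ p : S, Lp m w p = (N.transpose.mulVec (fun s : S => w s)) p := by
    intro w hwo p
    unfold Lp
    rw [sum_split σ q hσ hq f hf]
    have hwq : w q = 0 := by
      apply h3
      have := hwo q
      rwa [hqq] at this
    have e1 : (N.transpose.mulVec (fun s : S => w s)) p =
        ∑ l : S, (m l p + m l (σ p)) * w l - dg p * w p := by
      show ∑ l : S, N l p * w l = _
      have : ∀ l : S, N l p * w l = (m l p + m l (σ p)) * w l - (if p = l then dg p * w l else 0) := by
        intro l
        show (m l p + m l (σ p) - (if l = p then dg l else 0)) * w l = _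
        by_cases h : l = p
        · subst h
          simp only [if_true]
          ring
        · rw [if_neg h, if_neg (fun h' => h h'.symm)]
          ring
      rw [sum_congr rfl fun l _ => this l, sum_sub_distrib, sum_ite_eq]
      simp
    rw [e1]
    have e2 : ∀ s : S, m p s * (w s - w p) + m p (σ s) * (w (σ s) - w p) =
        (m s p + m s (σ p)) * w s - (m p s + m p (σ s)) * w p := by
      intro s
      have e3 : m s (σ p) = - m p (σ s) := by
        have := ha p (σ s)
        rw [hσ] at this
        rw [hs s (σ p), this]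
      rw [hwo, e3, hs s p]
      ring
    rw [sum_congr rfl fun s _ => e2 s, sum_sub_distrib, ← sum_mul, hwq]
    show _ = _ - (∑ l : S, (m p l + m p (σ l)) + m p q) * w p
    ring
  -- a function is known on `S`, its image and `q`
  have hcase : ∀ j, f j < f (σ j) ∨ f (σ j) < f (σ (σ j)) ∨ j = q := by
    intro j
    rw [hσ]
    rcases lt_trichotomy (f j) (f (σ j)) with h | h | h
    · exact Or.inl h
    · exact Or.inr (Or.inr ((hq j).1 (hf h.symm)))
    · exact Or.inr (Or.inl h)
  obtain ⟨KV, hKV⟩ : ∃ KV, KV = {v : J → ZMod 3 | ∀ j, Lp m v j = 0} := ⟨_, rfl⟩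
  obtain ⟨EV, hEV⟩ : ∃ EV, EV = {v : J → ZMod 3 | (∀ j, Lp m v j = 0) ∧ ∀ j, v (σ j) = v j} :=
    ⟨_, rfl⟩
  obtain ⟨OV, hOV⟩ : ∃ OV, OV = {v : J → ZMod 3 | (∀ j, Lp m v j = 0) ∧ ∀ j, v (σ j) = -v j} :=
    ⟨_, rfl⟩
  rw [← hKV, ← hEV]
  -- all in terms of even and odd
  have a1 : KV.ncard ≤ EV.ncard * OV.ncard := by
    rw [← Set.ncard_prod]
    refine Set.ncard_le_ncard_of_injOn
      (fun v : J → ZMod 3 => ((fun i => 1 * v i + 1 * v (σ i)), fun i => 1 * v i + (-1) * v (σ i)))
      ?_ ?_ (Set.toFinite _)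
    · intro v hv
      rw [hKV] at hv
      have hv0 : ∀ j, Lp m v j = 0 := hv
      have hv' : ∀ j, Lp m (fun i => v (σ i)) j = 0 := fun j => by
        rw [Lp_sigma hσ ha, hv0, neg_zero]
      rw [Set.mem_prod, hEV, hOV]
      refine ⟨⟨fun j => ?_, fun j => ?_⟩, fun j => ?_, fun j => ?_⟩
      · show Lp m (fun i => 1 * v i + 1 * v (σ i)) j = 0
        rw [hadd v (fun i => v (σ i)), hv0, hv']
        ring
      · show 1 * v (σ j) + 1 * v (σ (σ j)) = 1 * v j + 1 * v (σ j)
        rw [hσ]
        ring
      · show Lp m (fun i => 1 * v i + (-1) * v (σ i)) j = 0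
        rw [hadd v (fun i => v (σ i)), hv0, hv']
        ring
      · show 1 * v (σ j) + (-1) * v (σ (σ j)) = -(1 * v j + (-1) * v (σ j))
        rw [hσ]
        ring
    · intro v _ v' _ h
      rw [Prod.mk.injEq] at h
      funext i
      have e1 : 1 * v i + 1 * v (σ i) = 1 * v' i + 1 * v' (σ i) := congrFun h.1 i
      have e2 : 1 * v i + (-1) * v (σ i) = 1 * v' i + (-1) * v' (σ i) := congrFun h.2 i
      have : ∀ a b a' b' : ZMod 3, 1 * a + 1 * b = 1 * a' + 1 * b' →
          1 * a + (-1) * b = 1 * a' + (-1) * b' → a = a' := by decide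
      exact this _ _ _ _ e1 e2
  -- the odd ones
  have a2 : OV.ncard ≤ {x : S → ZMod 3 | N.transpose.mulVec x = 0}.ncard := by
    refine Set.ncard_le_ncard_of_injOn (fun v : J → ZMod 3 => fun s : S => v s) ?_ ?_
      (Set.toFinite _)
    · intro v hv
      rw [hOV] at hv
      show N.transpose.mulVec (fun s : S => v s) = 0
      funext p
      rw [← hod v hv.2 p, hv.1]
      rfl
    · intro v hv v' hv' h
      rw [hOV] at hv hv'
      funext j
      rcases hcase j with h1 | h1 | h1
      · exact congrFun h ⟨j, h1⟩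
      · have h2 : v (σ j) = v' (σ j) := congrFun h ⟨σ j, h1⟩
        rw [hv.2, hv'.2] at h2
        exact neg_injective h2
      · have h2 := hv.2 q
        have h4 := hv'.2 q
        rw [hqq] at h2 h4
        rw [h1, h3 _ h2, h3 _ h4]
  -- the even ones
  have a3 : 3 * {x : S → ZMod 3 | N.mulVec x = 0}.ncard ≤ EV.ncard := by
    have e0 : (Set.univ : Set (ZMod 3)).ncard = 3 := by
      rw [Set.ncard_univ, Nat.card_zmod]
    have e00 : 3 * {x : S → ZMod 3 | N.mulVec x = 0}.ncard =
        ((Set.univ : Set (ZMod 3)) ×ˢ {x : S → ZMod 3 | N.mulVec x = 0}).ncard := by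
      rw [Set.ncard_prod, e0]
    rw [e00]
    let X : (S → ZMod 3) → J → ZMod 3 := fun x j => if h : f j < f (σ j) then x ⟨j, h⟩ else
      if h : f (σ j) < f (σ (σ j)) then x ⟨σ j, h⟩ else 0
    have hX1 : ∀ (x : S → ZMod 3) (s : S), X x s = x s := fun x s => by
      show (if h : f s < f (σ s) then x ⟨s, h⟩ else _) = _
      rw [dif_pos s.2]
    have hX2 : ∀ (x : S → ZMod 3) (j : J), X x (σ j) = X x j := by
      intro x j
      show (if h : f (σ j) < f (σ (σ j)) then x ⟨σ j, h⟩ else
        if h : f (σ (σ j)) < f (σ (σ (σ j))) then x ⟨σ (σ j), h⟩ else 0) =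
        (if h : f j < f (σ j) then x ⟨j, h⟩ else
        if h : f (σ j) < f (σ (σ j)) then x ⟨σ j, h⟩ else 0)
      simp only [hσ]
      by_cases h1 : f j < f (σ j)
      · have h2 : ¬ f (σ j) < f j := by omega
        simp [h1, h2]
      · by_cases h2 : f (σ j) < f j
        · simp [h1, h2]
        · simp [h1, h2]
    have hXq : ∀ x : S → ZMod 3, X x q = 0 := by
      intro x
      show (if h : f q < f (σ q) then x ⟨q, h⟩ else
        if h : f (σ q) < f (σ (σ q)) then x ⟨σ q, h⟩ else 0) = 0
      simp [hqq]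
    refine Set.ncard_le_ncard_of_injOn
      (fun cx : ZMod 3 × (S → ZMod 3) => fun j => X cx.2 j + cx.1) ?_ ?_ (Set.toFinite _)
    · rintro ⟨c, x⟩ ⟨-, hx⟩
      have hx0 : N.mulVec x = 0 := hx
      rw [hEV]
      have hc : ∀ j, Lp m (fun j => X x j + c) j = Lp m (X x) j := by
        intro j
        unfold Lp
        exact sum_congr rfl fun i _ => by ring
      have hXS : ∀ p : S, Lp m (X x) p = 0 := fun p => by
        rw [hev x (X x) (hX1 x) (hX2 x) (hXq x), hx0]
        rfl
      have hXo : ∀ j, Lp m (X x) j = - Lp m (X x) (σ j) := fun j => by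
        rw [← Lp_sigma hσ ha]
        congr 1
        funext i
        exact (hX2 x i).symm
      refine ⟨fun j => ?_, fun j => ?_⟩
      · show Lp m (fun j => X x j + c) j = 0
        rw [hc]
        rcases hcase j with h1 | h1 | h1
        · exact hXS ⟨j, h1⟩
        · rw [hXo j, hXS ⟨σ j, h1⟩, neg_zero]
        · have h6 := hXo j
          rw [h1, hqq] at h6
          rw [h1]
          exact h3 _ h6
      · show X x (σ j) + c = X x j + c
        rw [hX2]
    · rintro ⟨c, x⟩ - ⟨c', x'⟩ - h
      have h1 : ∀ j, X x j + c = X x' j + c' := fun j => congrFun h j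
      have h2 := h1 q
      rw [hXq, hXq, zero_add, zero_add] at h2
      rw [Prod.mk.injEq]
      refine ⟨h2, ?_⟩
      funext s
      have h4 := h1 s
      rw [hX1, hX1, h2] at h4
      exact add_right_cancel h4
  rw [ker_transpose_card] at a2
  calc 3 * KV.ncard ≤ 3 * (EV.ncard * OV.ncard) := Nat.mul_le_mul_left _ a1
    _ ≤ 3 * (EV.ncard * {x : S → ZMod 3 | N.mulVec x = 0}.ncard) :=
        Nat.mul_le_mul_left _ (Nat.mul_le_mul_left _ a2)
    _ = EV.ncard * (3 * {x : S → ZMod 3 | N.mulVec x = 0}.ncard) := by ring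
    _ ≤ EV.ncard * EV.ncard := Nat.mul_le_mul_left _ a3
    _ = EV.ncard ^ 2 := (sq _).symm

end lin

end Pool.Agent.QL543
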