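import Pool.Agent.QL543.Asy
import Pool.Agent.R419.CF.Low
import Pool.Agent.Y703.CX.Fin

/-!
# Project QL (helper543): the splittings of `D` and the solutions of the linear system

Adapted from `R419/CF/NS.lean` (helper419) and `Y710/CX/NS.lean` (helper710).
-/

set_option autoImplicit false

open scoped Classical

namespace Pool.Agent.QL543

open Finset Pool.Agent.Y703.CX Pool.Agent.R419.CF Pool.Agent.R419.CF.NS
open Pool.Agent.Y703.CT (Cls NoSplit Base)
open Pool.Agent.Y710.CX (part dd part_prime not_dvd_dd lam_dd cube_two prod_dd)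

/-- the splittings of `D` -/
def Spl (D : ℕ) : Set (ZMod 3 → ℕ) :=
  {d | ∏ c, d c = D ∧ (∀ c c', c ≠ c' → Nat.Coprime (d c) (d c')) ∧
    ∀ (c : ZMod 3) (p : ℕ), p.Prime → p ∣ d c →
      ∃ x : ℤ, (p : ℤ) ∣ (d (c + 1) : ℤ) * (d (c + 2) : ℤ) ^ 2 - x ^ 3}

/-- the number of the splittings is `3 ^ (r + 1)` -/
def SR (r D : ℕ) : Prop := (Spl D).ncard = 3 ^ (r + 1)

/-- the extension by zero -/
noncomputable def e0 {S : Finset ℕ} (v : S → ZMod 3) (n : ℕ) : ZMod 3 :=
  if h : n ∈ S then v ⟨n, h⟩ else 0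

theorem e0_coe {S : Finset ℕ} (v : S → ZMod 3) (u : S) : e0 v u = v u := by
  unfold e0
  rw [dif_pos u.2]

theorem e0_sum {M S : Finset ℕ} (v : S → ZMod 3) (p : S) :
    ∑ q ∈ S, (e0 v q - e0 v p) * (wt M q * lam p q) =
      ∑ q : S, (v q - v p) * (wt M q * lam p q) := by
  rw [← Finset.sum_coe_sort S]
  refine Finset.sum_congr rfl fun q _ => ?_
  rw [e0_coe, e0_coe]

theorem dW_spl (h : LamP) {D : ℕ} (hcl : Cls D) (c : ℕ → ZMod 3)
    (hc : SolW (MD D) D.primeFactors c) : dW (MD D) D.primeFactors c ∈ Spl D := by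
  obtain ⟨⟨h0, -, hcf⟩, ⟨hpr, -⟩, -, -⟩ := cls_iff.1 hcl
  have hS : ∀ q ∈ D.primeFactors, q.Prime := fun q hq => (hpr q hq).1
  have hMS := MD_sub D
  have hprod := dec h0 hcf
  obtain ⟨S, hSd⟩ : ∃ S, S = D.primeFactors := ⟨_, rfl⟩
  obtain ⟨M, hMd⟩ : ∃ M, M = MD D := ⟨_, rfl⟩
  rw [← hSd] at hS hc hpr hMS hprod ⊢
  rw [← hMd] at hc hMS hprod ⊢
  have hcase : ∀ p ∈ S, p % 3 = 1 ∨ p % 3 = 2 := by
    intro p hp
    have h3 : p % 3 ≠ 0 := by
      intro h3
      have : 3 ∣ p := Nat.dvd_of_mod_eq_zero h3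
      exact (hpr p hp).2 ((Nat.prime_dvd_prime_iff_eq Nat.prime_three (hS p hp)).1 this).symm
    omega
  refine ⟨(prod_dW M S c).trans hprod, ?_, ?_⟩
  · intro i j hij
    refine Nat.coprime_of_dvd fun p hp h1 h2 => ?_
    have e1 := (mem_dW hS hMS c _ hp h1).2
    have e2 := (mem_dW hS hMS c _ hp h2).2
    exact hij (e1.symm.trans e2)
  · intro i p hp hd
    obtain ⟨hpS, hcp⟩ := mem_dW hS hMS c i hp hd
    rcases hcase p hpS with h1 | h2
    · obtain ⟨k1, k2⟩ := lam_dW h hS hMS c hp h1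
      rw [hcp] at k1 k2
      have k3 := hc p hpS h1
      rw [hcp] at k3
      rw [k3] at k2
      have := (h.cube p _ hp h1 k1).1 k2
      push_cast at this
      exact this
    · exact cube_two hp h2 _

theorem dW_label {D : ℕ} (c : ℕ → ZMod 3) {p : ℕ} (hp : p ∈ D.primeFactors) :
    p ∣ dW (MD D) D.primeFactors c (c p) := by
  have h3 : p ∣ dd D.primeFactors c (c p) := by
    unfold dd
    exact Finset.dvd_prod_of_mem _ (Finset.mem_filter.2 ⟨hp, rfl⟩)
  exact h3.mul_right _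

theorem spl_dW (h : LamP) {D : ℕ} (hcl : Cls D) {d : ZMod 3 → ℕ} (hdS : d ∈ Spl D) :
    ∃ c : ℕ → ZMod 3, SolW (MD D) D.primeFactors c ∧ dW (MD D) D.primeFactors c = d := by
  obtain ⟨hd, hcop, hcube⟩ := hdS
  obtain ⟨⟨h0, -, hcf⟩, ⟨hpr, hcard⟩, -, -⟩ := cls_iff.1 hcl
  have hS : ∀ q ∈ D.primeFactors, q.Prime := fun q hq => (hpr q hq).1
  have hex : ∀ p ∈ D.primeFactors, ∃ i : ZMod 3, p ∣ d i := by
    intro p hp
    have h1 : p ∣ ∏ i, d i := by
      rw [hd]
      exact Nat.dvd_of_mem_primeFactors hp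
    obtain ⟨i, -, hi⟩ := ((hS p hp).prime.dvd_finsetProd_iff _).1 h1
    exact ⟨i, hi⟩
  have huniq : ∀ p : ℕ, p.Prime → ∀ i j : ZMod 3, p ∣ d i → p ∣ d j → i = j := by
    intro p hp i j h1 h2
    by_contra hne
    have h3 : p ∣ Nat.gcd (d i) (d j) := Nat.dvd_gcd h1 h2
    rw [Nat.Coprime.gcd_eq_one (hcop i j hne)] at h3
    exact hp.one_lt.ne' (Nat.dvd_one.1 h3)
  obtain ⟨c, hc⟩ : ∃ c : ℕ → ZMod 3, ∀ p ∈ D.primeFactors, p ∣ d (c p) := by
    refine ⟨fun p => if hp : ∃ i : ZMod 3, p ∣ d i then hp.choose else 0, fun p hp => ?_⟩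
    have := hex p hp
    simp only [this, dif_pos]
    exact this.choose_spec
  have hdD : ∀ i, d i ∣ D := fun i => by
    rw [← hd]
    exact Finset.dvd_prod_of_mem _ (Finset.mem_univ i)
  have hd0 : ∀ i, d i ≠ 0 := fun i h => h0 (Nat.eq_zero_of_zero_dvd (h ▸ hdD i))
  have hfac : ∀ p : ℕ, p.Prime → ∀ i, p ∣ d i → D.factorization p = (d i).factorization p := by
    intro p hp i hpi
    rw [← hd, Nat.factorization_prod (fun j _ => hd0 j), Finsupp.finsetSum_apply]
    refine Finset.sum_eq_single i (fun j _ hj => ?_) fun h => absurd (Finset.mem_univ i) h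
    exact Nat.factorization_eq_zero_of_not_dvd fun h => hj (huniq p hp _ _ h hpi)
  have hdd : ∀ i, dW (MD D) D.primeFactors c i = d i := by
    intro i
    have hcfi : ∀ p : ℕ, p.Prime → ¬ p ^ 3 ∣ d i := fun p hp h => hcf p hp (h.trans (hdD i))
    rw [← dec (hd0 i) hcfi]
    unfold dW dd
    have e1 : part D.primeFactors c i = (d i).primeFactors := by
      ext p
      unfold part
      rw [Finset.mem_filter, Nat.mem_primeFactors, Nat.mem_primeFactors]
      constructor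
      · rintro ⟨⟨hp, hpD, -⟩, rfl⟩
        exact ⟨hp, hc p (Nat.mem_primeFactors.2 ⟨hp, hpD, h0⟩), hd0 _⟩
      · rintro ⟨hp, hpd, -⟩
        have hpm : p ∈ D.primeFactors := Nat.mem_primeFactors.2 ⟨hp, hpd.trans (hdD i), h0⟩
        exact ⟨⟨hp, hpd.trans (hdD i), h0⟩, huniq p hp _ _ (hc p hpm) hpd⟩
    have e2 : part (MD D) c i = MD (d i) := by
      ext p
      unfold part
      rw [Finset.mem_filter]
      constructor
      · rintro ⟨hpM, hci⟩
        have hpS := MD_sub D hpM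
        have hp := hS p hpS
        have hpd : p ∣ d i := hci ▸ hc p hpS
        have h2 : p ^ 2 ∣ D := (Finset.mem_filter.1 hpM).2
        unfold MD
        rw [Finset.mem_filter]
        refine ⟨Nat.mem_primeFactors.2 ⟨hp, hpd, hd0 i⟩, ?_⟩
        rw [hp.pow_dvd_iff_le_factorization (hd0 i), ← hfac p hp i hpd,
          ← hp.pow_dvd_iff_le_factorization h0]
        exact h2
      · intro hpM
        unfold MD at hpM
        rw [Finset.mem_filter, Nat.mem_primeFactors] at hpM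
        obtain ⟨⟨hp, hpd, -⟩, h2⟩ := hpM
        have hpm : p ∈ D.primeFactors := Nat.mem_primeFactors.2 ⟨hp, hpd.trans (hdD i), h0⟩
        refine ⟨?_, huniq p hp _ _ (hc p hpm) hpd⟩
        unfold MD
        rw [Finset.mem_filter]
        exact ⟨hpm, h2.trans (hdD i)⟩
    rw [e1, e2]
  refine ⟨c, ?_, funext hdd⟩
  intro p hp hp1
  obtain ⟨k1, k2⟩ := lam_dW h hS (MD_sub D) c (hS p hp) hp1
  rw [← k2]
  rw [h.cube p _ (hS p hp) hp1 k1, hdd, hdd]
  have := hcube (c p) p (hS p hp) (hc p hp)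
  push_cast
  exact this

theorem dW_congr (D : ℕ) {c c' : ℕ → ZMod 3} (h : ∀ p ∈ D.primeFactors, c p = c' p) :
    dW (MD D) D.primeFactors c = dW (MD D) D.primeFactors c' := by
  funext i
  unfold dW dd part
  congr 1
  · refine Finset.prod_congr (Finset.filter_congr fun p hp => by rw [h p hp]) fun _ _ => rfl
  · refine Finset.prod_congr (Finset.filter_congr fun p hp => by rw [h p (MD_sub D hp)])
      fun _ _ => rfl

/-- **the number of the splittings** -/
theorem spl_card (h : LamP) {D : ℕ} (hcl : Cls D) : (Spl D).ncard = nW (MD D) D.primeFactors := by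
  have hS : ∀ q ∈ D.primeFactors, q.Prime := fun q hq => Nat.prime_of_mem_primeFactors hq
  have hsol : ∀ v : D.primeFactors → ZMod 3, (∀ p : D.primeFactors, (p : ℕ) % 3 = 1 →
      ∑ q : D.primeFactors, (v q - v p) * (wt (MD D) q * lam p q) = 0) →
      SolW (MD D) D.primeFactors (e0 v) := by
    intro v hv p hp hp1
    have h1 := e0_sum (M := MD D) v ⟨p, hp⟩
    exact h1.trans (hv ⟨p, hp⟩ hp1)
  unfold nW
  rw [← Nat.card_coe_set_eq]
  symm
  refine Nat.card_congr (Equiv.ofBijective (fun v => (⟨dW (MD D) D.primeFactors (e0 v.1),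
    dW_spl h hcl _ (hsol v.1 v.2)⟩ : Spl D)) ⟨?_, ?_⟩)
  · rintro ⟨v, hv⟩ ⟨w, hw⟩ hvw
    have h1 : dW (MD D) D.primeFactors (e0 v) = dW (MD D) D.primeFactors (e0 w) :=
      congrArg Subtype.val hvw
    refine Subtype.ext (funext fun p => ?_)
    have h2 := dW_label (e0 v) p.2
    rw [h1] at h2
    have h3 := (mem_dW hS (MD_sub D) (e0 w) _ (hS p p.2) h2).2
    rw [e0_coe, e0_coe] at h3
    exact h3.symm
  · rintro ⟨d, hd⟩
    obtain ⟨c, hc, hcd⟩ := spl_dW h hcl hd
    have h1 : ∀ p ∈ D.primeFactors, e0 (fun q : D.primeFactors => c q) p = c p := by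
      intro p hp
      exact e0_coe (fun q : D.primeFactors => c q) ⟨p, hp⟩
    refine ⟨⟨fun q => c q, fun p hp1 => ?_⟩, Subtype.ext ?_⟩
    · have := hc p p.2 hp1
      rw [← Finset.sum_coe_sort D.primeFactors] at this
      exact this
    · show dW (MD D) D.primeFactors (e0 fun q : D.primeFactors => c q) = d
      rw [← hcd]
      exact dW_congr D h1

theorem cntr (h : LamP) (r : ℕ) (X : ℕ) :
    ((Icc 1 X).filter fun D => Cls D ∧ SR r D).card =
    ∑ M ∈ MM X, ((SW M (X / ∏ p ∈ M, p)).filter (GrQ r M)).card := by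
  rw [card_eq_sum_card_fiberwise (f := MD) (t := MM X)]
  · refine sum_congr rfl fun M hM => ?_
    refine card_eq (mem_MM.1 hM).1 X (SR r) (GrQ r M) fun D hD hDM => ?_
    rw [← hDM]
    unfold GrQ SR
    rw [spl_card h hD]
  · intro D hD
    rw [mem_coe, mem_filter] at hD
    exact MD_mem hD.1 hD.2.1

lemma pr_le_one (r : ℕ) : pr r ≤ 1 := by
  refine le_of_forall_pos_le_add fun ε hε => ?_
  obtain ⟨k, hk⟩ := exists_pow_lt_of_lt_one (show 0 < ε / 20 by positivity)
    (show (1 / 3 : ℝ) < 1 by norm_num)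
  have h1 := abs_le.1 (pk_lim k r)
  have h2 : pk k r ≤ 1 := by
    rw [← fr_ker (K := Fin k → ZMod 3) (Q := Fin k → ZMod 3) r (by simp) (by simp)]
    exact Pool.Agent.Y759.CX.fr_le_one _
  linarith [h1.1]

/-- **The law of the number of the splittings.** -/
theorem t_LAW (r : ℕ) : Filter.Tendsto
  (fun X : ℕ => (((Icc 1 X).filter fun D => Cls D ∧ SR r D).card : ℝ) /
    (((Icc 1 X).filter fun D => Cls D).card : ℝ)) Filter.atTop (nhds (pr r)) := by
  have h := Asy.t_ASY Pool.Agent.Y333.CX.t_LAM Pool.Agent.Y261.CX.t_BIL1 Pool.Agent.Y779.CX.t_BIL2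
    Pool.Agent.Y488.CX.t_SIE Pool.Agent.Y495.CX.t_HAL Pool.Agent.Y87.CX.t_MER
    Pool.Agent.Y461.CX.t_CHE Pool.Agent.Y461.CX.t_LOW (pr_nonneg r) (pr_le_one r)
    (show (0 : ℝ) ≤ 21 by norm_num) (t_BOXQ Pool.Agent.Y419.CX.t_EQ t_LAr r)
  refine h.congr fun X => ?_
  rw [cntr Pool.Agent.Y333.CX.t_LAM r X, cnt1 X]

/-- the number of the splittings is a power of three -/
theorem spl_pow (h : LamP) {D : ℕ} (hcl : Cls D) : ∃ r : ℕ, (Spl D).ncard = 3 ^ (r + 1) := by
  rw [spl_card h hcl]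
  obtain ⟨S, hS⟩ : ∃ S, S = D.primeFactors := ⟨_, rfl⟩
  have hne : ∃ q, q ∈ S := by
    have hcl' := hcl
    obtain ⟨-, -, -, q, hq, -, hqD, -⟩ := hcl'
    rw [hS]
    exact ⟨q, Nat.mem_primeFactors.2 ⟨hq, hqD, hcl.1.1⟩⟩
  rw [← hS]
  let V : Submodule (ZMod 3) (S → ZMod 3) :=
    { carrier := {v | ∀ p : S, (p : ℕ) % 3 = 1 → ∑ q : S, (v q - v p) * (wt (MD D) q * lam p q) = 0}
      zero_mem' := fun p _ => by simp
      add_mem' := fun {v w} hv hw p hp => by
        have h1 := hv p hp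
        have h2 := hw p hp
        have : ∑ q : S, ((v + w) q - (v + w) p) * (wt (MD D) q * lam p q) =
            ∑ q : S, (v q - v p) * (wt (MD D) q * lam p q) +
            ∑ q : S, (w q - w p) * (wt (MD D) q * lam p q) := by
          rw [← Finset.sum_add_distrib]
          refine Finset.sum_congr rfl fun q _ => ?_
          simp only [Pi.add_apply]
          ring
        rw [this, h1, h2, add_zero]
      smul_mem' := fun a v hv p hp => by
        have h1 := hv p hp
        have : ∑ q : S, ((a • v) q - (a • v) p) * (wt (MD D) q * lam p q) =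
            a * ∑ q : S, (v q - v p) * (wt (MD D) q * lam p q) := by
          rw [Finset.mul_sum]
          refine Finset.sum_congr rfl fun q _ => ?_
          simp only [Pi.smul_apply, smul_eq_mul]
          ring
        rw [this, h1, mul_zero] }
  have h1 : nW (MD D) S = Nat.card V := rfl
  rw [h1, Pool.Agent.Y759.CX.card_mod]
  have h2 : 0 < Module.finrank (ZMod 3) V := by
    obtain ⟨q, hq⟩ := hne
    have hmem : (fun _ => 1 : S → ZMod 3) ∈ V := fun p _ => by simp
    have : Nontrivial V := ⟨⟨⟨_, hmem⟩, 0, fun h => by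
      have := congrFun (congrArg Subtype.val h) ⟨q, hq⟩
      exact one_ne_zero this⟩⟩
    exact Module.finrank_pos
  exact ⟨Module.finrank (ZMod 3) V - 1, by rw [Nat.sub_add_cancel h2]⟩

end Pool.Agent.QL543
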