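import Pool.Agent.QL543.Ar1
import Pool.Agent.QL543.NS
import Pool.Agent.Y703.CT.StmG
import Pool.Agent.Y405.CT.Cri
import Pool.Agent.Y350.CT.REC
import Pool.Agent.Y274.CT.ExiCnt

/-!
# Project QL (helper543): the kernel vectors and the splittings of `D`

Adapted from `Y405/CT/Cri.lean` (helper405) and `Y737/CT/OddEven.lean` (helper737).
-/

set_option autoImplicit false
set_option linter.unusedSectionVars false

open scoped Classical

namespace Pool.Agent.QL543

open Pool.Agent.Y703.CT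
open Pool.Agent.Y692.QS (Ei w nr toC)
open Pool.Agent.Y715.T.Rec (cs)
open Pool.Agent.Y715.T.RecG (Pq)
open Pool.Agent.Y405.CT
open Finset

variable {J : Type} [Fintype J] {π : J → Ei} {e : J → ZMod 3} {D : ℕ}

/-- the splitting attached to an even kernel vector -/
theorem ev_split (h : Dt π e) (hD : (D : Ei) = pD π e ∨ (D : Ei) = -pD π e) (v : J → ZMod 3)
    (hv : ∀ j, ∑ i, e i * cs (π j) (π i) * (v i - v j) = 0)
    (hve : ∀ i j, π i = star (π j) → v i = v j) :
    ∃ d ∈ Spl D, ∀ (j : J) (c : ZMod 3), π j ∣ ((d c : ℕ) : Ei) ↔ v j = c := by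
  choose σ hσ using exists_sigma h hD
  have hσσ : ∀ j, σ (σ j) = j := fun j => pi_inj h (by rw [hσ, hσ, star_star])
  have hes : ∀ j, e (σ j) = e j := fun j => e_sigma h hD (hσ j)
  have hvs : ∀ j, v (σ j) = v j := fun j => hve _ _ (hσ j)
  let P : ZMod 3 → Ei := fun c => ∏ i ∈ univ.filter (fun i => v i = c), π i ^ (e i).val
  have hPs : ∀ c, star (P c) = P c := by
    intro c
    have h1 : star (P c) = ∏ i ∈ univ.filter (fun i => v i = c), star (π i ^ (e i).val) := by
      have := map_prod (starRingEnd Ei) (fun i => π i ^ (e i).val)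
        (univ.filter (fun i => v i = c))
      exact this
    rw [h1]
    refine Finset.prod_nbij' σ σ ?_ ?_ (fun i _ => hσσ i) (fun i _ => hσσ i) ?_
    · intro i hi
      simp only [mem_filter, mem_univ, true_and] at hi ⊢
      rw [hvs, hi]
    · intro i hi
      simp only [mem_filter, mem_univ, true_and] at hi ⊢
      rw [hvs, hi]
    · intro i _
      rw [hes, hσ, star_pow]
  obtain ⟨n, hn⟩ : ∃ n : ZMod 3 → ℤ, ∀ c, P c = ((n c : ℤ) : Ei) :=
    ⟨fun c => (P c).re, fun c => real_of_star (hPs c)⟩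
  have hprod : ∏ c, P c = pD π e := Finset.prod_fiberwise univ v (fun i => π i ^ (e i).val)
  have hprodn : (∏ c, n c) = (D : ℤ) ∨ (∏ c, n c) = -(D : ℤ) := by
    have h1 : (((∏ c, n c : ℤ)) : Ei) = pD π e := by
      rw [← hprod]
      push_cast
      exact Finset.prod_congr rfl fun c _ => (hn c).symm
    rcases hD with h2 | h2
    · left
      rw [← h2, nat_int] at h1
      have := congrArg QuadraticAlgebra.re h1
      rwa [QuadraticAlgebra.re_intCast, QuadraticAlgebra.re_intCast] at this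
    · right
      have h3 : ((∏ c, n c : ℤ) : Ei) = ((-(D : ℤ) : ℤ) : Ei) := by
        rw [h1]
        push_cast
        rw [h2, neg_neg]
      have := congrArg QuadraticAlgebra.re h3
      rwa [QuadraticAlgebra.re_intCast, QuadraticAlgebra.re_intCast] at this
  let d : ZMod 3 → ℕ := fun c => (n c).natAbs
  have hdP : ∀ (c : ZMod 3) (p : ℕ), p ∣ d c → ((p : ℕ) : Ei) ∣ P c := by
    intro c p hp
    rw [hn c, nat_int]
    exact Pool.Agent.Y692.QS.int_dvd_int.2 (Int.natCast_dvd.2 hp)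
  have hdprod : ∏ c, d c = D := by
    have h1 : ∏ c, d c = (∏ c, n c).natAbs := (map_prod Int.natAbsHom n univ).symm
    rw [h1]
    rcases hprodn with h2 | h2
    · rw [h2, Int.natAbs_natCast]
    · rw [h2, Int.natAbs_neg, Int.natAbs_natCast]
  have hfac : ∀ (c : ZMod 3) (p : ℕ), p.Prime → p ∣ d c → ∀ ρ : Ei, Prime ρ → ρ ∣ ((p : ℕ) : Ei) →
      ∃ j, v j = c ∧ ρ ∣ π j ∧ π j ∣ ρ := by
    intro c p hp hpd ρ hρ hρp
    obtain ⟨j, hj, h1, h2⟩ := dvd_part h _ hρ (hρp.trans (hdP c p hpd))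
    exact ⟨j, (mem_filter.1 hj).2, h1, h2⟩
  have hcop : ∀ c c', c ≠ c' → Nat.Coprime (d c) (d c') := by
    intro c c' hcc
    by_contra hnc
    obtain ⟨p, hp, h1, h2⟩ := Nat.Prime.not_coprime_iff_dvd.1 hnc
    obtain ⟨ρ, hρ, hρp⟩ := exists_prime_dvd hp
    obtain ⟨j, hj, h3, h4⟩ := hfac c p hp h1 ρ hρ hρp
    obtain ⟨j', hj', h3', h4'⟩ := hfac c' p hp h2 ρ hρ hρp
    have h5 : j = j' := by
      by_contra hne
      exact h.nd j j' hne (h4'.trans h3)
    apply hcc
    rw [← hj, ← hj', h5]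
  have hloc : ∀ (c : ZMod 3) (p : ℕ), p.Prime → p ∣ d c →
      ∃ x : ℤ, (p : ℤ) ∣ (d (c + 1) : ℤ) * (d (c + 2) : ℤ) ^ 2 - x ^ 3 := by
    intro c p hp hpd
    obtain ⟨ρ, hρ, hρp⟩ := exists_prime_dvd hp
    obtain ⟨j, hj, h3, h4⟩ := hfac c p hp hpd ρ hρ hρp
    obtain ⟨l, hl, hdl, hn3, hz⟩ := below (h.pq j)
    have hlp : l = p := prime_below hp hl (h4.trans hρp) hz
    subst hlp
    rcases hn3 with ⟨h5, h6⟩ | ⟨h5, h6⟩
    · have hprime := (h.pq j).prime
      have h9 := (h.pq j).norm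
      have hc1 : v j ≠ c + 1 := by
        rw [hj]
        exact (by decide : ∀ c : ZMod 3, c ≠ c + 1) c
      have hc2 : v j ≠ c + 2 := by
        rw [hj]
        exact (by decide : ∀ c : ZMod 3, c ≠ c + 2) c
      obtain ⟨a1, a2⟩ := cs_part h hc1
      obtain ⟨b1, b2⟩ := cs_part h hc2
      have b1' : ¬ π j ∣ P (c + 2) ^ 2 := fun h => b1 (hprime.dvd_of_dvd_pow h)
      have h7 : cs (π j) (P (c + 1) * P (c + 2) ^ 2) = 0 := by
        rw [Pool.Agent.Y715.T.RecG.cs_mul hprime h9 a1 b1',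
          Pool.Agent.Y715.T.RecG.cs_pow hprime h9 b1]
        show cs (π j) (P (c + 1)) + ((2 : ℕ) : ZMod 3) * cs (π j) (P (c + 2)) = 0
        have a2' : cs (π j) (P (c + 1)) = ∑ i, if v i = c + 1 then e i * cs (π j) (π i) else 0 := a2
        have b2' : cs (π j) (P (c + 2)) = ∑ i, if v i = c + 2 then e i * cs (π j) (π i) else 0 := b2
        rw [a2', b2', mul_sum, ← sum_add_distrib]
        refine Eq.trans ?_ (hv j)
        refine sum_congr rfl fun i _ => ?_
        rw [hj]
        generalize e i * cs (π j) (π i) = t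
        have : ∀ (x c t : ZMod 3), ((if x = c + 1 then t else 0) + ((2 : ℕ) : ZMod 3) *
            (if x = c + 2 then t else 0)) = t * (x - c) := by decide
        exact this (v i) c t
      have hnd12 : ¬ π j ∣ P (c + 1) * P (c + 2) ^ 2 := fun h => by
        rcases hprime.dvd_or_dvd h with h | h
        · exact a1 h
        · exact b1' h
      obtain ⟨y, hy⟩ := (Pool.Agent.Y715.T.RecG.cs_zero_iff hprime h9 hnd12).1 h7
      have h8 : π j ∣ ((n (c + 1) * n (c + 2) ^ 2 : ℤ) : Ei) - y ^ 3 := by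
        push_cast
        rw [← hn, ← hn]
        exact hy
      obtain ⟨x, hx⟩ := cube_one hl hdl h6 hz h8
      have e2 : ((d (c + 2) : ℕ) : ℤ) ^ 2 = n (c + 2) ^ 2 := Int.natAbs_sq _
      rw [e2]
      rcases Int.natAbs_eq (n (c + 1)) with h10 | h10
      · refine ⟨x, ?_⟩
        have e1 : ((d (c + 1) : ℕ) : ℤ) = n (c + 1) := h10.symm
        rw [e1]
        exact hx
      · refine ⟨-x, ?_⟩
        have e1 : ((d (c + 1) : ℕ) : ℤ) = -n (c + 1) := by
          show (((n (c + 1)).natAbs : ℕ) : ℤ) = _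
          omega
        rw [e1]
        have e3 : -n (c + 1) * n (c + 2) ^ 2 - (-x) ^ 3 = -(n (c + 1) * n (c + 2) ^ 2 - x ^ 3) := by
          ring
        rw [e3]
        exact hx.neg_right
    · exact Pool.Agent.Y405.CT.cube_two hl h5 _
  refine ⟨d, ⟨hdprod, hcop, hloc⟩, fun j c => ?_⟩
  have h1 : π j ∣ ((d c : ℕ) : Ei) ↔ π j ∣ P c := by
    rw [hn c, nat_int]
    have h2 : (((d c : ℕ) : ℤ) : Ei) = ((n c : ℤ) : Ei) ∨ (((d c : ℕ) : ℤ) : Ei) = -((n c : ℤ) : Ei) := by
      rcases Int.natAbs_eq (n c) with h10 | h10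
      · left
        have e1 : ((d c : ℕ) : ℤ) = n c := h10.symm
        rw [e1]
      · right
        have e1 : ((d c : ℕ) : ℤ) = -n c := by
          show (((n c).natAbs : ℕ) : ℤ) = _
          omega
        rw [e1]
        push_cast
        rfl
    rcases h2 with h2 | h2
    · rw [h2]
    · rw [h2, dvd_neg]
  rw [h1]
  constructor
  · intro h2
    obtain ⟨i, hi, h3, -⟩ := dvd_part h _ (h.pq j).prime h2
    have h4 : i = j := by
      by_contra hne
      exact h.nd i j hne h3
    rw [← h4]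
    exact (mem_filter.1 hi).2
  · intro h2
    exact pi_dvd_part h _ (mem_filter.2 ⟨mem_univ _, h2⟩)

/-- the number of the even kernel vectors -/
theorem even_le (h : Dt π e) (hD : (D : Ei) = pD π e ∨ (D : Ei) = -pD π e)
    (hf : (Spl D).Finite) :
    {v : J → ZMod 3 | (∀ j, ∑ i, e i * cs (π j) (π i) * (v i - v j) = 0) ∧
      ∀ i j, π i = star (π j) → v i = v j}.ncard ≤ (Spl D).ncard := by
  have key : ∀ v : J → ZMod 3, ∃ d : ZMod 3 → ℕ,
      v ∈ {v : J → ZMod 3 | (∀ j, ∑ i, e i * cs (π j) (π i) * (v i - v j) = 0) ∧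
        ∀ i j, π i = star (π j) → v i = v j} →
      d ∈ Spl D ∧ ∀ (j : J) (c : ZMod 3), π j ∣ ((d c : ℕ) : Ei) ↔ v j = c := by
    intro v
    by_cases hv : v ∈ {v : J → ZMod 3 | (∀ j, ∑ i, e i * cs (π j) (π i) * (v i - v j) = 0) ∧
        ∀ i j, π i = star (π j) → v i = v j}
    · obtain ⟨d, h1, h2⟩ := ev_split h hD v hv.1 hv.2
      exact ⟨d, fun _ => ⟨h1, h2⟩⟩
    · exact ⟨fun _ => 0, fun h' => absurd h' hv⟩
  choose F hF using key
  refine Set.ncard_le_ncard_of_injOn F (fun v hv => (hF v hv).1) ?_ hf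
  intro v hv v' hv' hvv
  funext j
  have h1 := (hF v hv).2 j (v j)
  have h2 := (hF v' hv').2 j (v j)
  rw [hvv] at h1
  exact (h2.1 (h1.2 rfl)).symm

/-- **the number of the kernel vectors and the number of the splittings** -/
theorem ker_le (hC : Cls D) (h : Dt π e) (hD : (D : Ei) = pD π e ∨ (D : Ei) = -pD π e)
    (hf : (Spl D).Finite) :
    3 * {v : J → ZMod 3 | ∀ j, ∑ i, e i * cs (π j) (π i) * (v i - v j) = 0}.ncard ≤
      (Spl D).ncard ^ 2 := by
  have hR := Pool.Agent.Y350.CT.rec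
  obtain ⟨q, hq⟩ := fixed hC h hD
  choose σ hσ using exists_sigma h hD
  have hσσ : ∀ j, σ (σ j) = j := fun j => pi_inj h (by rw [hσ, hσ, star_star])
  have hes : ∀ j, e (σ j) = e j := fun j => e_sigma h hD (hσ j)
  have hσq : ∀ j, σ j = j ↔ j = q := by
    intro j
    rw [← hq]
    constructor
    · intro h1
      rw [← hσ, h1]
    · intro h1
      exact pi_inj h (by rw [hσ, h1])
  let m : J → J → ZMod 3 := fun i j => if i = j then 0 else e i * e j * cs (π i) (π j)
  have hL : ∀ (v : J → ZMod 3) (j : J), Lp m v j =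
      e j * ∑ i, e i * cs (π j) (π i) * (v i - v j) := by
    intro v j
    unfold Lp
    rw [mul_sum]
    refine sum_congr rfl fun i _ => ?_
    show (if j = i then 0 else e j * e i * cs (π j) (π i)) * (v i - v j) = _
    by_cases hij : j = i
    · subst hij
      rw [if_pos rfl, sub_self, mul_zero, mul_zero, mul_zero]
    · rw [if_neg hij]
      ring
  have hker : ∀ v : J → ZMod 3, (∀ j, Lp m v j = 0) ↔
      ∀ j, ∑ i, e i * cs (π j) (π i) * (v i - v j) = 0 := by
    intro v
    refine forall_congr' fun j => ?_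
    rw [hL, mul_eq_zero]
    exact ⟨fun h1 => h1.resolve_left (h.e0 j), Or.inr⟩
  have hs : ∀ i j, m i j = m j i := by
    intro i j
    show (if i = j then 0 else e i * e j * cs (π i) (π j)) =
      if j = i then 0 else e j * e i * cs (π j) (π i)
    by_cases hij : i = j
    · subst hij
      rfl
    · rw [if_neg hij, if_neg (fun h' => hij h'.symm),
        hR (π j) (π i) (h.pq j) (h.pq i) (h.nd j i (fun h' => hij h'.symm))]
      ring
  have ha : ∀ i j, m (σ i) (σ j) = - m i j := by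
    intro i j
    show (if σ i = σ j then 0 else e (σ i) * e (σ j) * cs (π (σ i)) (π (σ j))) =
      - if i = j then 0 else e i * e j * cs (π i) (π j)
    by_cases hij : i = j
    · subst hij
      simp
    · have hij' : σ i ≠ σ j := fun h' => hij (by rw [← hσσ i, h', hσσ])
      rw [if_neg hij, if_neg hij', hes, hes, hσ, hσ,
        cs_starG (h.pq i) (h.nd j i (fun h' => hij h'.symm))]
      ring
  have h1 := lin_count hσσ hσq hs ha
  have e1 : {v : J → ZMod 3 | ∀ j, Lp m v j = 0} =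
      {v : J → ZMod 3 | ∀ j, ∑ i, e i * cs (π j) (π i) * (v i - v j) = 0} := by
    ext v
    exact hker v
  have e2 : {v : J → ZMod 3 | (∀ j, Lp m v j = 0) ∧ ∀ j, v (σ j) = v j} =
      {v : J → ZMod 3 | (∀ j, ∑ i, e i * cs (π j) (π i) * (v i - v j) = 0) ∧
        ∀ i j, π i = star (π j) → v i = v j} := by
    ext v
    refine and_congr (hker v) ?_
    constructor
    · intro h2 i j hij
      have h3 : i = σ j := pi_inj h (by rw [hij, hσ])
      rw [h3, h2]
    · intro h2 j
      exact h2 _ _ (hσ j)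
  rw [e1, e2] at h1
  exact h1.trans (Nat.pow_le_pow_left (even_le h hD hf) 2)

end Pool.Agent.QL543
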