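import Pool.Agent.QL543.Ar2
import Pool.Agent.R419.KL.NS
import Pool.Agent.Y703.XL.InfA

/-!
# Project QL (helper543): the ranks over `ℚ(ω)` and over `ℚ`
-/

set_option autoImplicit false
set_option linter.unusedSectionVars false
set_option linter.unusedVariables false

open scoped Classical

namespace Pool.Agent.QL543

open NumberField WeierstrassCurve
open Pool.Agent.Y692.QS (Ei nr)
open Pool.Agent.Y715.T.Gi Pool.Agent.Y715.T.Nr Pool.Agent.Y715.T.Df Pool.Agent.Y715.T.Ell
open Pool.Agent.Y703.CT (Dt pD a_ne Tw Cls)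
open Pool.Agent.Y696.CTK (Parts parts ED TrfData)
open Pool.Agent.Y155.CT (a_mul a_cont AG AG_fg)
open Pool.Agent.Y350.CTK.Mw (act_act act_inj)
open Pool.Agent.XL6 (SelK KerV SelH)
open Pool.Agent.TH841.NF (Sc tF tF_zero tF_some tF_add)
open Pool.Agent.Y703.XL.Inf (rh rh_some nrm pt_ext E1)

/-! ### two independent copies -/

/-- if `φ P + w (φ Q) = 0` only for torsion points then the rank is at least twice as large -/
theorem rank_two {A B : Type} [AddCommGroup A] [AddCommGroup B] [Module.Finite ℤ B] (φ : A →+ B)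
    (w : B →+ B) (h : ∀ P Q : A, φ P + w (φ Q) = 0 → 3 • P = 0 ∧ 3 • Q = 0) :
    2 * Module.finrank ℤ A ≤ Module.finrank ℤ B := by
  obtain ⟨b, hb⟩ := exists_linearIndependent_of_le_finrank (R := ℤ) (M := A)
    (le_refl (Module.finrank ℤ A))
  rw [Fintype.linearIndependent_iff] at hb
  have hli : LinearIndependent ℤ (Sum.elim (fun i => φ (b i)) (fun i => w (φ (b i)))) := by
    rw [Fintype.linearIndependent_iff]
    intro c hc
    rw [Fintype.sum_sum_type] at hc
    simp only [Sum.elim_inl, Sum.elim_inr] at hc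
    have e1 : ∑ i, c (Sum.inl i) • φ (b i) = φ (∑ i, c (Sum.inl i) • b i) := by
      rw [map_sum]
      exact Finset.sum_congr rfl fun i _ => (map_zsmul φ _ _).symm
    have e2 : ∑ i, c (Sum.inr i) • w (φ (b i)) = w (φ (∑ i, c (Sum.inr i) • b i)) := by
      rw [map_sum, map_sum]
      exact Finset.sum_congr rfl fun i _ => by rw [map_zsmul, map_zsmul]
    rw [e1, e2] at hc
    obtain ⟨h1, h2⟩ := h _ _ hc
    have k1 : ∀ c' : Fin (Module.finrank ℤ A) → ℤ, 3 • ∑ i, c' i • b i = 0 → ∀ i, c' i = 0 := by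
      intro c' h0 i
      have h3 : ∑ i, (3 * c' i) • b i = 0 := by
        rw [← h0, Finset.smul_sum]
        refine Finset.sum_congr rfl fun i _ => ?_
        rw [mul_smul]
        exact (ofNat_zsmul _ _)
      have h4 := hb _ h3 i
      omega
    rintro (i | i)
    · exact k1 _ h1 i
    · exact k1 _ h2 i
  have h5 := hli.fintype_card_le_finrank
  rw [Fintype.card_sum, Fintype.card_fin] at h5
  omega

/-- the abstract form of the argument with complex conjugation -/
theorem conj_arg {A B : Type} [AddCommGroup A] [AddCommGroup B] (φ : A →+ B) (w c : B →+ B)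
    (hφ : Function.Injective φ) (hc : ∀ P, c (φ P) = φ P) (hw : ∀ x, x + w x + w (w x) = 0)
    (hcw : ∀ x, c (w x) = w (w (c x))) (P Q : A) (h : φ P + w (φ Q) = 0) :
    3 • P = 0 ∧ 3 • Q = 0 := by
  have h1 : φ P + w (w (φ Q)) = 0 := by
    have h2 := congrArg c h
    rw [map_add, hc, hcw, hc, map_zero] at h2
    exact h2
  have h3 : w (w (φ Q)) = w (φ Q) := add_left_cancel (h1.trans h.symm)
  have h4 : w (w (w (φ Q))) = φ Q := by
    have h5 := hw (w (φ Q))
    have h6 := hw (φ Q)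
    have h7 : w (w (w (φ Q))) = -(w (φ Q) + w (w (φ Q))) := by
      rw [eq_neg_iff_add_eq_zero, ← h5]
      abel
    have h8 : φ Q = -(w (φ Q) + w (w (φ Q))) := by
      rw [eq_neg_iff_add_eq_zero, ← h6]
      abel
    rw [h7, ← h8]
  have h5 : w (φ Q) = φ Q := by
    rw [h3, h3] at h4
    exact h4
  have h6 : φ (3 • Q) = 0 := by
    have h7 := hw (φ Q)
    rw [h3, h5] at h7
    rw [map_nsmul, ← h7]
    abel
  have h7 : 3 • Q = 0 := hφ (by rw [h6, map_zero])
  refine ⟨?_, h7⟩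
  have h8 : φ P = -φ Q := by
    rw [eq_neg_iff_add_eq_zero]
    rw [h5] at h
    exact h
  apply hφ
  rw [map_nsmul, h8, smul_neg, ← map_nsmul, h7, map_zero, neg_zero]

/-! ### the curves -/

section crv
variable {K : Type} [Field K] [CharZero K]

theorem sc_of {F : Type} [Field F] (f : F →+* K) {D : F} {D' : K} (h : f D = D') :
    Sc f (1 : K) (ED D) (ED D') where
  hu := one_ne_zero
  h1 := by
    show (0 : K) = f 0 * 1
    rw [map_zero, zero_mul]
  h2 := by
    show (0 : K) = f 0 * 1 ^ 2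
    rw [map_zero, zero_mul]
  h3 := by
    show D' = f D * 1 ^ 3
    rw [h, one_pow, mul_one]
  h4 := by
    show (0 : K) = f 0 * 1 ^ 4
    rw [map_zero, zero_mul]
  h6 := by
    show (0 : K) = f 0 * 1 ^ 6
    rw [map_zero, zero_mul]

/-- the map on the points given by a homomorphism of fields -/
noncomputable def mp {F : Type} [Field F] [DecidableEq F] (f : F →+* K) {D : F} {D' : K} (h : f D = D') :
    (ED D).toAffine.Point →+ (ED D').toAffine.Point :=
  ⟨⟨tF (sc_of f h), rfl⟩, tF_add (sc_of f h)⟩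

theorem mp_some {F : Type} [Field F] [DecidableEq F] (f : F →+* K) {D : F} {D' : K} (h : f D = D') {x y : F}
    (hn : (ED D).toAffine.Nonsingular x y) : ∃ h', mp f h (.some x y hn) = .some (f x) (f y) h' := by
  have h1 : (ED D').toAffine.Nonsingular (f x * 1 ^ 2) (f y * 1 ^ 3) :=
    (Pool.Agent.TH841.NF.ns_iff (sc_of f h) x y).2 hn
  have h2 : (ED D').toAffine.Nonsingular (f x) (f y) := by
    rw [one_pow, one_pow, mul_one, mul_one] at h1
    exact h1
  refine ⟨h2, ?_⟩
  exact pt_ext h1 h2 (by rw [one_pow, mul_one]) (by rw [one_pow, mul_one])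

theorem mp_inj {F : Type} [Field F] [DecidableEq F] (f : F →+* K) {D : F} {D' : K} (h : f D = D') :
    Function.Injective (mp f h) := by
  rw [injective_iff_map_eq_zero]
  intro P hP
  rcases P with _ | ⟨x, y, hn⟩
  · rfl
  · obtain ⟨h', e⟩ := mp_some f h hn
    rw [e] at hP
    exact absurd hP (Affine.Point.some_ne_zero h')

/-- the rotation -/
noncomputable def wr {D z : K} (hz : z ^ 2 + z + 1 = 0) :
    (ED D).toAffine.Point →+ (ED D).toAffine.Point := rh (D := D) (L := K) hz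

theorem wr_some {D z : K} (hz : z ^ 2 + z + 1 = 0) {x y : K}
    (hn : (ED D).toAffine.Nonsingular x y) :
    ∃ h', wr (D := D) hz (.some x y hn) = .some (z * x) y h' :=
  ⟨_, rh_some (D := D) (L := K) hz hn⟩

theorem wr_nrm {D z : K} (hD : D ≠ 0) (hz : z ^ 2 + z + 1 = 0) (P : (ED D).toAffine.Point) :
    P + wr hz P + wr hz (wr hz P) = 0 := nrm (D := D) (L := K) hD hz P

theorem conj_wr {D z : K} (hz : z ^ 2 + z + 1 = 0) (σ : K →+* K) (hσD : σ D = D)
    (hσz : σ z = z ^ 2) (P : (ED D).toAffine.Point) :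
    mp σ hσD (wr hz P) = wr hz (wr hz (mp σ hσD P)) := by
  rcases P with _ | ⟨x, y, hn⟩
  · show mp σ hσD (wr hz 0) = wr hz (wr hz (mp σ hσD 0))
    rw [map_zero, map_zero, map_zero, map_zero]
  · obtain ⟨h1, e1⟩ := wr_some hz hn
    obtain ⟨h2, e2⟩ := mp_some σ hσD h1
    obtain ⟨h3, e3⟩ := mp_some σ hσD hn
    obtain ⟨h4, e4⟩ := wr_some hz h3
    obtain ⟨h5, e5⟩ := wr_some hz h4
    rw [e1, e2, e3, e4, e5]
    refine pt_ext _ _ ?_ rfl
    rw [map_mul, hσz]
    ring

theorem conj_rat {D : ℚ} {D' : K} (h : algebraMap ℚ K D = D') (σ : K →+* K) (hσD : σ D' = D')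
    (P : (ED D).toAffine.Point) :
    mp σ hσD (mp (algebraMap ℚ K) h P) = mp (algebraMap ℚ K) h P := by
  rcases P with _ | ⟨x, y, hn⟩
  · show mp σ hσD (mp (algebraMap ℚ K) h 0) = mp (algebraMap ℚ K) h 0
    rw [map_zero, map_zero]
  · obtain ⟨h1, e1⟩ := mp_some (algebraMap ℚ K) h hn
    obtain ⟨h2, e2⟩ := mp_some σ hσD h1
    rw [e1, e2]
    exact pt_ext _ _ (RingHom.map_rat_algebraMap σ x) (RingHom.map_rat_algebraMap σ y)

/-- **the ranks over `ℚ` and over `K`** -/
theorem rk_QK {D : ℚ} {D' : K} (hD : D' ≠ 0) (h : algebraMap ℚ K D = D') {z : K}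
    (hz : z ^ 2 + z + 1 = 0) (σ : K →+* K) (hσz : σ z = z ^ 2)
    [Module.Finite ℤ (ED D').toAffine.Point] :
    2 * Module.finrank ℤ (ED D).toAffine.Point ≤ Module.finrank ℤ (ED D').toAffine.Point := by
  have hσD : σ D' = D' := by
    rw [← h]
    exact RingHom.map_rat_algebraMap σ D
  exact rank_two (mp (algebraMap ℚ K) h) (wr hz) fun P Q hPQ =>
    conj_arg (mp (algebraMap ℚ K) h) (wr hz) (mp σ hσD) (mp_inj _ h) (conj_rat h σ hσD)
      (wr_nrm hD hz) (conj_wr hz σ hσD hσz) P Q hPQ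

end crv

/-! ### the bound over `K` -/

section bnd
variable {K : Type} [Field K] [NumberField K]

theorem tw_neg {i₀ : QB} {hi : i₀ ^ 2 + i₀ + 1 = 0} {D : Ei} {u : QB} {a : GK i₀ → ZMod 3}
    (h : Tw hi (-D) u a) : Tw hi D (-u) a where
  cube := by
    have h1 := h.cube
    rw [map_neg] at h1
    rw [neg_pow, h1]
    ring
  act := fun σ => by
    rw [map_neg, h.act σ, mul_neg]

/-- the group of points over `K` is finitely generated -/
theorem fg_K {j : Ei ≃+* 𝓞 K} {D : Ei}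
    {e : AlgebraicClosure K ≃+* QB} {i₀ : QB} {hi : i₀ ^ 2 + i₀ + 1 = 0} {u : QB}
    {a : GK i₀ → ZMod 3}
    {Ψ : Pool.Agent.TH841.SH.D.Pt (ED (j D : K)) (AlgebraicClosure K) ≃+ Pt QB}
    {g : Pool.Agent.TH841.SH.D.Gal K ≃* GK i₀} (hD : D ≠ 0) (hTr : TrfData K j D e i₀ hi u a Ψ g) :
    Module.Finite ℤ (ED (j D : K)).toAffine.Point := by
  obtain ⟨hTw, he, hgc, hgsc, hge, hΨ, hact⟩ := hTr
  have hfg := AG_fg (hi := hi) (a_mul hD hTw) (a_cont hD hTw)
  let φ : K →ₐ[K] AlgebraicClosure K := Algebra.ofId K (AlgebraicClosure K)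
  let em : Pool.Agent.TH841.SH.D.Pt (ED (j D : K)) K →+ Pt QB :=
    Ψ.toAddMonoidHom.comp (Pool.Agent.TH841.SH.D.act (ED (j D : K)) φ)
  have hinj : Function.Injective em := Ψ.injective.comp (act_inj _ φ)
  have hfix : ∀ (P : Pool.Agent.TH841.SH.D.Pt (ED (j D : K)) K) (σ : GK i₀),
      Pool.Agent.Y703.CT.act hi a σ (em P) = em P := by
    intro P σ
    have h1 := hact (g.symm σ) (Pool.Agent.TH841.SH.D.act (ED (j D : K)) φ P)
    rw [g.apply_symm_apply] at h1
    refine h1.symm.trans ?_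
    rw [act_act]
    have h2 : ((g.symm σ).toAlgHom).comp φ = φ := by
      refine AlgHom.ext fun x => ?_
      exact (g.symm σ).commutes x
    rw [h2]
    rfl
  let em' : Pool.Agent.TH841.SH.D.Pt (ED (j D : K)) K →+ AG hi a :=
    { toFun := fun P => ⟨em P, fun σ => hfix P σ⟩
      map_zero' := Subtype.ext (map_zero em)
      map_add' := fun P Q => Subtype.ext (map_add em P Q) }
  have h1 : Module.Finite ℤ (Pool.Agent.TH841.SH.D.Pt (ED (j D : K)) K) :=
    Module.Finite.of_injective em'.toIntLinearMap fun P Q h => hinj (congrArg Subtype.val h)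
  exact h1

/-- **the rank over `K`** -/
theorem main_K {J : Type} [Fintype J] [Nonempty J]
    {π : J → Ei} {e : J → ZMod 3} (P : Parts) (hD : Dt π e)
    (h9 : ¬ (9 : ℤ) ∣ nr (pD π e) - 1) (j : Ei ≃+* 𝓞 K) {D' : Ei}
    (hD' : D' = pD π e ∨ D' = -pD π e) {r : ℕ} (hr : (KerV π e).ncard ≤ 3 ^ (r + 1)) :
    Module.Finite ℤ (ED (j D' : K)).toAffine.Point ∧
      Module.finrank ℤ (ED (j D' : K)).toAffine.Point ≤ 2 * r := by
  have hne0 : pD π e ≠ 0 := Pool.Agent.Y153.CTRAM.ne_zero_of hD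
  have hne : D' ≠ 0 := by
    rcases hD' with h | h
    · rw [h]
      exact hne0
    · rw [h]
      exact neg_ne_zero.2 hne0
  obtain ⟨e', i₀, hi, u, a, Ψ, g, hdata⟩ := P.trf K j _ hne
  have hT := hdata.1
  obtain ⟨u', hT'⟩ : ∃ u', Tw hi (pD π e) u' a := by
    rcases hD' with h | h
    · exact ⟨u, by rw [← h]; exact hT⟩
    · exact ⟨-u, tw_neg (by rw [← h]; exact hT)⟩
  have h1 : (SelH hi a).ncard = (KerV π e).ncard := Pool.Agent.XL6.sel_card hD h9 hT'
  have hpos : (KerV π e).ncard ≠ 0 := by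
    have h0 : (0 : J → ZMod 3) ∈ KerV π e := fun j => by simp
    exact Set.ncard_ne_zero_of_mem h0 (Set.toFinite _)
  have hfin : (SelH hi a).Finite := Set.finite_of_ncard_ne_zero (by rw [h1]; exact hpos)
  refine ⟨fg_K hne hdata, ?_⟩
  exact (Pool.Agent.XL6.rk_le hne hdata).trans (Pool.Agent.XL6.rank_le (a_mul hne hT)
    (a_cont hne hT) (a_ne hD hT') hfin (by rw [h1]; exact hr))

end bnd

end Pool.Agent.QL543
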