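import Pool.Agent.QL543.Ar3
import Pool.Agent.Y455.CTK.JEX

/-!
# Project QL (helper543): the bound for the rank over `ℚ`
-/

set_option autoImplicit false
set_option linter.unusedSectionVars false
set_option linter.unusedVariables false

open scoped Classical

namespace Pool.Agent.QL543

open NumberField WeierstrassCurve
open Pool.Agent.Y692.QS (Ei nr w)
open Pool.Agent.Y703.CT (Dt pD Cls)
open Pool.Agent.Y696.CTK (Parts parts ED)
open Pool.Agent.XL6 (KerV)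

/-- the number `D` is not `±1` modulo `9` -/
theorem h9_of {J : Type} [Fintype J] {π : J → Ei} {e : J → ZMod 3} {D : ℕ} (hC : Cls D)
    (hD : (D : Ei) = pD π e ∨ (D : Ei) = -pD π e) : ¬ (9 : ℤ) ∣ nr (pD π e) - 1 := by
  have h1 : nr (pD π e) = (D : ℤ) ^ 2 := by
    rcases hD with h | h
    · rw [← h, Pool.Agent.Y692.QS.nr_nat]
    · have h2 : pD π e = -(D : Ei) := by rw [h, neg_neg]
      rw [h2, Pool.Agent.Y692.QS.nr_neg, Pool.Agent.Y692.QS.nr_nat]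
  rw [h1]
  obtain ⟨⟨-, h3, -⟩, ha, hb, -⟩ := hC
  intro h
  have h4 : ((D : ℤ) ^ 2 - 1) % 9 = 0 := Int.emod_eq_zero_of_dvd h
  have h5 : (D : ℤ) = 9 * ((D / 9 : ℕ) : ℤ) + ((D % 9 : ℕ) : ℤ) := by
    have := Nat.div_add_mod D 9
    exact_mod_cast this.symm
  have h6 : ((D : ℤ) ^ 2 - 1) % 9 = (((D % 9 : ℕ) : ℤ) ^ 2 - 1) % 9 := by
    apply Int.emod_emod_of_dvd _ (dvd_refl 9) |>.symm.trans
    rw [Int.emod_emod]
    refine Int.ModEq.sub_right 1 ?_
    refine Int.ModEq.pow 2 ?_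
    rw [h5]
    have h7 : ((9 * ((D / 9 : ℕ) : ℤ) + ((D % 9 : ℕ) : ℤ)) : ℤ) ≡ ((D % 9 : ℕ) : ℤ) [ZMOD 9] := by
      rw [Int.modEq_iff_dvd]
      exact ⟨-((D / 9 : ℕ) : ℤ), by ring⟩
    have h8 : D % 9 % 9 = D % 9 := Nat.mod_mod _ _
    have h9 : (9 * (D / 9) + D % 9) % 9 = D % 9 := by omega
    exact_mod_cast h7
  rw [h6] at h4
  have h7 : D % 9 < 9 := Nat.mod_lt _ (by norm_num)
  have h8 : D % 3 ≠ 0 := fun h' => h3 (Nat.dvd_of_mod_eq_zero h')
  have h9 : D % 9 % 3 ≠ 0 := by omega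
  generalize D % 9 = m at *
  interval_cases m <;> omega

/-- an automorphism -/
theorem ex_conj {K : Type} [Field K] [NumberField K] (j : Ei ≃+* 𝓞 K) :
    ∃ σ : K →+* K, σ ((j w : 𝓞 K) : K) = ((j w : 𝓞 K) : K) ^ 2 := by
  let s : 𝓞 K ≃+* 𝓞 K := (j.symm.trans (starRingAut (R := Ei))).trans j
  refine ⟨(IsFractionRing.ringEquivOfRingEquiv (K := K) (L := K) s : K ≃+* K), ?_⟩
  have h1 := IsFractionRing.ringEquivOfRingEquiv_algebraMap (K := K) (L := K) s (j w)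
  refine h1.trans ?_
  have h2 : s (j w) = (j w) ^ 2 := by
    show j (star (j.symm (j w))) = (j w) ^ 2
    rw [RingEquiv.symm_apply_apply, Pool.Agent.Y692.QS.star_w, map_pow]
  rw [h2, map_pow]

/-- the bound for the rank over `ℚ`, with the help of a field `K` -/
theorem rank_Q' (K : Type) [Field K] [NumberField K] [IsCyclotomicExtension {3} ℚ K] {D : ℕ}
    (hC : Cls D) {s : ℕ} (hs : (Spl D).ncard = 3 ^ (s + 1)) :
    Module.finrank ℤ (ED (D : ℚ)).toAffine.Point ≤ 2 * s := by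
  obtain ⟨n, π, e, hdt, hD⟩ := Pool.Agent.Y274.CT.t_exi D hC.1
  obtain ⟨q, -⟩ := Pool.Agent.Y405.CT.fixed hC hdt hD
  have hne : Nonempty (Fin n) := ⟨q⟩
  have h9 := h9_of hC hD
  have hf : (Spl D).Finite := Set.finite_of_ncard_ne_zero (by rw [hs]; positivity)
  have h1 : 3 * (KerV π e).ncard ≤ (Spl D).ncard ^ 2 := ker_le hC hdt hD hf
  obtain ⟨r, hr⟩ := Pool.Agent.R419.KL.ker_pow (π := π) (e := e)
  have h2 : (KerV π e).ncard ≤ 3 ^ (2 * s + 1) := by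
    rw [hs, ← pow_mul] at h1
    have e1 : (s + 1) * 2 = 2 * s + 1 + 1 := by ring
    rw [e1, pow_succ (3 : ℕ) (2 * s + 1), mul_comm] at h1
    exact Nat.le_of_mul_le_mul_right h1 (by norm_num)
  obtain ⟨⟨j, hj⟩, -⟩ := Pool.Agent.Y455.CTK.jex K
  obtain ⟨hfg, hrk⟩ := main_K (K := K) parts hdt h9 j hD h2
  have hcast : ((j (D : Ei) : 𝓞 K) : K) = (D : K) := by
    rw [map_natCast]
    rfl
  have hmap : algebraMap ℚ K (D : ℚ) = ((j (D : Ei) : 𝓞 K) : K) := by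
    rw [hcast, map_natCast]
  have hD0 : ((j (D : Ei) : 𝓞 K) : K) ≠ 0 := by
    rw [hcast]
    exact Nat.cast_ne_zero.2 hC.1.1
  obtain ⟨σ, hσ⟩ := ex_conj j
  have hww : (w : Ei) ^ 2 + w + 1 = 0 := by decide
  have hz : ((j w : 𝓞 K) : K) ^ 2 + ((j w : 𝓞 K) : K) + 1 = 0 := by
    have h3 := congrArg (fun z => ((j z : 𝓞 K) : K)) hww
    simp only [map_add, map_pow, map_one, map_zero] at h3
    exact h3
  have h4 := rk_QK hD0 hmap hz σ hσ
  have h5 := h4.trans hrk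
  omega

/-- **the bound for the rank over `ℚ`** -/
theorem rank_Q {D : ℕ} (hC : Cls D) {s : ℕ} (hs : (Spl D).ncard = 3 ^ (s + 1)) :
    Module.finrank ℤ (ED (D : ℚ)).toAffine.Point ≤ 2 * s := by
  have h1 : NeZero ((3 : ℕ) : ℚ) := ⟨by norm_num⟩
  have h2 : IsCyclotomicExtension {3} ℚ (CyclotomicField 3 ℚ) :=
    CyclotomicField.isCyclotomicExtension 3 ℚ
  exact rank_Q' (CyclotomicField 3 ℚ) hC hs

end Pool.Agent.QL543
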