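import Pool.Agent.QL543.Ar4
import Pool.Agent.Y700.VC

/-!
# Project QL (helper543): the rank of the cubic `x³ + y³ = D`
-/

set_option autoImplicit false
set_option linter.unusedSectionVars false
set_option linter.unusedVariables false

open scoped Classical

namespace Pool.Agent.QL543

open NumberField WeierstrassCurve
open Pool.Agent.Y692.QS (Ei nr w)
open Pool.Agent.Y703.CT (Dt pD Cls)
open Pool.Agent.Y696.CTK (Parts parts ED)
open Pool.Agent.XL6 (KerV)
open Pool.Agent.TH841.NF (Sc tF tF_zero tF_some tF_add)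
open Pool.Agent.Y703.XL.Inf (pt_ext)
open Pool.Agent.Y700 (VR)

/-- the curve `y² = x³ - 432 D²`, a Weierstrass equation of `x³ + y³ = D` -/
def WF {F : Type} [Field F] (D : F) : WeierstrassCurve F := ⟨0, 0, 0, 0, -432 * D ^ 2⟩

/-- the abstract form of the argument with complex conjugation, for the minus part -/
theorem conj_neg {A B : Type} [AddCommGroup A] [AddCommGroup B] (φ : A →+ B) (w c : B →+ B)
    (hφ : Function.Injective φ) (hc : ∀ P, c (φ P) = -φ P) (hw : ∀ x, x + w x + w (w x) = 0)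
    (hcw : ∀ x, c (w x) = w (w (c x))) (P Q : A) (h : φ P + w (φ Q) = 0) :
    3 • P = 0 ∧ 3 • Q = 0 := by
  refine conj_arg φ w (-c) hφ (fun P => ?_) hw (fun x => ?_) P Q h
  · rw [AddMonoidHom.neg_apply, hc, neg_neg]
  · rw [AddMonoidHom.neg_apply, AddMonoidHom.neg_apply, hcw, map_neg, map_neg]

section crv
variable {K : Type} [Field K] [CharZero K]

theorem sc_WF {F : Type} [Field F] (f : F →+* K) {D : F} {D' : K} (h : f D = D') :
    Sc f (1 : K) (WF D) (WF D') where
  hu := one_ne_zero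
  h1 := by
    show (0 : K) = f 0 * 1
    rw [map_zero, zero_mul]
  h2 := by
    show (0 : K) = f 0 * 1 ^ 2
    rw [map_zero, zero_mul]
  h3 := by
    show (0 : K) = f 0 * 1 ^ 3
    rw [map_zero, zero_mul]
  h4 := by
    show (0 : K) = f 0 * 1 ^ 4
    rw [map_zero, zero_mul]
  h6 := by
    show -432 * D' ^ 2 = f (-432 * D ^ 2) * 1 ^ 6
    rw [← h, map_mul, map_pow, map_neg, map_ofNat, one_pow, mul_one]

/-- the map on the points given by a homomorphism of fields -/
noncomputable def mq {F : Type} [Field F] [DecidableEq F] (f : F →+* K) {D : F} {D' : K}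
    (h : f D = D') : (WF D).toAffine.Point →+ (WF D').toAffine.Point :=
  ⟨⟨tF (sc_WF f h), rfl⟩, tF_add (sc_WF f h)⟩

theorem mq_some {F : Type} [Field F] [DecidableEq F] (f : F →+* K) {D : F} {D' : K} (h : f D = D')
    {x y : F} (hn : (WF D).toAffine.Nonsingular x y) :
    ∃ h', mq f h (.some x y hn) = .some (f x) (f y) h' := by
  have h1 : (WF D').toAffine.Nonsingular (f x * 1 ^ 2) (f y * 1 ^ 3) :=
    (Pool.Agent.TH841.NF.ns_iff (sc_WF f h) x y).2 hn
  have h2 : (WF D').toAffine.Nonsingular (f x) (f y) := by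
    rw [one_pow, one_pow, mul_one, mul_one] at h1
    exact h1
  refine ⟨h2, ?_⟩
  exact pt_ext h1 h2 (by rw [one_pow, mul_one]) (by rw [one_pow, mul_one])

theorem mq_inj {F : Type} [Field F] [DecidableEq F] (f : F →+* K) {D : F} {D' : K} (h : f D = D') :
    Function.Injective (mq f h) := by
  rw [injective_iff_map_eq_zero]
  intro P hP
  rcases P with _ | ⟨x, y, hn⟩
  · rfl
  · obtain ⟨h', e⟩ := mq_some f h hn
    rw [e] at hP
    exact absurd hP (Affine.Point.some_ne_zero h')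

theorem lam_sq {z : K} (hz : z ^ 2 + z + 1 = 0) : (z - z ^ 2) ^ 2 = -3 := by
  linear_combination (z ^ 2 - 3 * z + 3) * hz

/-- the change of variables over `K` -/
theorem vr_WF {D z : K} (hz : z ^ 2 + z + 1 = 0) :
    VR (WF D) (ED D) (2 * (z - z ^ 2)) 0 0 (-12 * (z - z ^ 2) * D) where
  u0 := by
    intro h
    have h1 := lam_sq hz
    have h2 : z - z ^ 2 = 0 := by
      rcases mul_eq_zero.1 h with h3 | h3
      · norm_num at h3
      · exact h3
    rw [h2] at h1
    norm_num at h1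
  e1 := by
    show 2 * (z - z ^ 2) * 0 = 0 + 2 * 0
    ring
  e2 := by
    show (2 * (z - z ^ 2)) ^ 2 * 0 = 0 - 0 * 0 + 3 * 0 - 0 ^ 2
    ring
  e3 := by
    show (2 * (z - z ^ 2)) ^ 3 * D = 0 + 0 * 0 + 2 * (-12 * (z - z ^ 2) * D)
    linear_combination (8 * (z - z ^ 2) * D) * lam_sq hz
  e4 := by
    show (2 * (z - z ^ 2)) ^ 4 * 0 = 0 - 0 * 0 + 2 * 0 * 0 - (-12 * (z - z ^ 2) * D + 0 * 0) * 0 +
      3 * 0 ^ 2 - 2 * 0 * (-12 * (z - z ^ 2) * D)
    ring
  e6 := by
    show (2 * (z - z ^ 2)) ^ 6 * 0 = -432 * D ^ 2 + 0 * 0 + 0 ^ 2 * 0 + 0 ^ 3 -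
      (-12 * (z - z ^ 2) * D) * 0 - (-12 * (z - z ^ 2) * D) ^ 2 - 0 * (-12 * (z - z ^ 2) * D) * 0
    linear_combination (144 * D ^ 2) * lam_sq hz

theorem disc_ED {D : K} (hD : D ≠ 0) : (ED D).Δ ≠ 0 := by
  have h : (ED D).Δ = -27 * D ^ 4 := by
    unfold Pool.Agent.Y696.CTK.ED WeierstrassCurve.Δ WeierstrassCurve.b₂ WeierstrassCurve.b₄
      WeierstrassCurve.b₆ WeierstrassCurve.b₈
    ring
  rw [h]
  exact mul_ne_zero (by norm_num) (pow_ne_zero _ hD)

/-- the map from the points of the cubic over `ℚ` to the points of `E_D` over `K` -/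
noncomputable def ps {D : ℚ} {D' z : K} (hD : D' ≠ 0) (h : algebraMap ℚ K D = D')
    (hz : z ^ 2 + z + 1 = 0) : (WF D).toAffine.Point →+ (ED D').toAffine.Point :=
  ((vr_WF (D := D') hz).equiv (disc_ED hD)).symm.toAddMonoidHom.comp (mq (algebraMap ℚ K) h)

theorem ps_inj {D : ℚ} {D' z : K} (hD : D' ≠ 0) (h : algebraMap ℚ K D = D')
    (hz : z ^ 2 + z + 1 = 0) : Function.Injective (ps hD h hz) :=
  ((vr_WF (D := D') hz).equiv (disc_ED hD)).symm.injective.comp (mq_inj _ h)

theorem ps_conj {D : ℚ} {D' z : K} (hD : D' ≠ 0) (h : algebraMap ℚ K D = D')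
    (hz : z ^ 2 + z + 1 = 0) (σ : K →+* K) (hσD : σ D' = D') (hσz : σ z = z ^ 2)
    (P : (WF D).toAffine.Point) : mp σ hσD (ps hD h hz P) = -ps hD h hz P := by
  rcases P with _ | ⟨x, y, hn⟩
  · show mp σ hσD (ps hD h hz 0) = -ps hD h hz 0
    rw [map_zero, map_zero, neg_zero]
  · obtain ⟨h1, e1⟩ := mq_some (algebraMap ℚ K) h hn
    obtain ⟨Q, hQ⟩ : ∃ Q, Q = ps hD h hz (.some x y hn) := ⟨_, rfl⟩
    rw [← hQ]
    have hE : (vr_WF (D := D') hz).equiv (disc_ED hD) Q =
        .some (algebraMap ℚ K x) (algebraMap ℚ K y) h1 := by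
      rw [← e1, hQ]
      exact AddEquiv.apply_symm_apply _ _
    obtain ⟨l, hl⟩ : ∃ l, l = z - z ^ 2 := ⟨_, rfl⟩
    have hl2 : l ^ 2 = -3 := by rw [hl]; exact lam_sq hz
    have hlσ : σ l = -l := by
      rw [hl, map_sub, map_pow, hσz]
      have h3 : z ^ 3 = 1 := by linear_combination (z - 1) * hz
      linear_combination (-z) * h3
    have hl0 : l ≠ 0 := by
      rintro rfl
      norm_num at hl2
    rcases Q with _ | ⟨X, Y, hX⟩
    · exfalso
      have h2 : (vr_WF (D := D') hz).equiv (disc_ED hD) 0 =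
          .some (algebraMap ℚ K x) (algebraMap ℚ K y) h1 := hE
      rw [map_zero] at h2
      exact absurd h2.symm (Affine.Point.some_ne_zero h1)
    · have h2 : (vr_WF (D := D') hz).equiv (disc_ED hD) (.some X Y hX) =
          .some (algebraMap ℚ K x) (algebraMap ℚ K y) h1 := hE
      rw [Pool.Agent.Y700.VR.equiv_apply, Pool.Agent.Y700.VR.fn_some] at h2
      obtain ⟨k1, k2⟩ := (Affine.Point.some.injEq ..).mp h2
      rw [← hl] at k1 k2
      obtain ⟨h3, e3⟩ := mp_some σ hσD hX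
      rw [e3, Affine.Point.neg_some]
      have hxσ : σ (algebraMap ℚ K x) = algebraMap ℚ K x := RingHom.map_rat_algebraMap σ x
      have hyσ : σ (algebraMap ℚ K y) = algebraMap ℚ K y := RingHom.map_rat_algebraMap σ y
      have m1 := congrArg σ k1
      have m2 := congrArg σ k2
      simp only [map_add, map_mul, map_pow, map_ofNat, map_zero, map_neg, hlσ, hxσ, hyσ, hσD]
        at m1 m2
      rw [← k1] at m1
      rw [← k2] at m2
      refine pt_ext _ _ ?_ ?_
      · have h5 : (-12 : K) * (σ X - X) = 0 := by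
          linear_combination m1 - 4 * (σ X - X) * hl2
        rcases mul_eq_zero.1 h5 with h6 | h6
        · norm_num at h6
        · exact sub_eq_zero.1 h6
      · have h4 : (ED D').toAffine.negY X Y = -Y - D' := by
          unfold Affine.negY
          show -Y - 0 * X - D' = _
          ring
        rw [h4]
        have h5 : (24 * l) * (σ Y + Y + D') = 0 := by
          linear_combination m2 + (8 * l * (σ Y + Y)) * hl2
        rcases mul_eq_zero.1 h5 with h6 | h6
        · exfalso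
          rcases mul_eq_zero.1 h6 with h7 | h7
          · norm_num at h7
          · exact hl0 h7
        · linear_combination h6

/-- **the ranks over `ℚ` of the cubic and over `K`** -/
theorem rk_FK {D : ℚ} {D' : K} (hD : D' ≠ 0) (h : algebraMap ℚ K D = D') {z : K}
    (hz : z ^ 2 + z + 1 = 0) (σ : K →+* K) (hσz : σ z = z ^ 2)
    [Module.Finite ℤ (ED D').toAffine.Point] :
    2 * Module.finrank ℤ (WF D).toAffine.Point ≤ Module.finrank ℤ (ED D').toAffine.Point := by
  have hσD : σ D' = D' := by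
    rw [← h]
    exact RingHom.map_rat_algebraMap σ D
  exact rank_two (ps hD h hz) (wr hz) fun P Q hPQ =>
    conj_neg (ps hD h hz) (wr hz) (mp σ hσD) (ps_inj hD h hz)
      (ps_conj hD h hz σ hσD hσz) (wr_nrm hD hz) (conj_wr hz σ hσD hσz) P Q hPQ

end crv

/-- the bound for the rank of the cubic over `ℚ`, with the help of a field `K` -/
theorem rank_F' (K : Type) [Field K] [NumberField K] [IsCyclotomicExtension {3} ℚ K] {D : ℕ}
    (hC : Cls D) {s : ℕ} (hs : (Spl D).ncard = 3 ^ (s + 1)) :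
    Module.finrank ℤ (WF (D : ℚ)).toAffine.Point ≤ 2 * s := by
  obtain ⟨n, π, e, hdt, hD⟩ := Pool.Agent.Y274.CT.t_exi D hC.1
  obtain ⟨q, -⟩ := Pool.Agent.Y405.CT.fixed hC hdt hD
  have hne : Nonempty (Fin n) := ⟨q⟩
  have h9 := h9_of hC hD
  have hf : (Spl D).Finite := Set.finite_of_ncard_ne_zero (by rw [hs]; positivity)
  have h1 : 3 * (KerV π e).ncard ≤ (Spl D).ncard ^ 2 := ker_le hC hdt hD hf
  obtain ⟨r, hr⟩ := Pool.Agent.R419.KL.ker_pow (π := π) (e := e)
  have h2 : (KerV π e).ncard ≤ 3 ^ (2 * s + 1) := by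
    rw [hs, ← pow_mul] at h1
    have e1 : (s + 1) * 2 = 2 * s + 1 + 1 := by ring
    rw [e1, pow_succ (3 : ℕ) (2 * s + 1), mul_comm] at h1
    exact Nat.le_of_mul_le_mul_right h1 (by norm_num)
  obtain ⟨⟨j, hj⟩, -⟩ := Pool.Agent.Y455.CTK.jex K
  obtain ⟨hfg, hrk⟩ := main_K (K := K) parts hdt h9 j hD h2
  have hcast : ((j (D : Ei) : 𝓞 K) : K) = (D : K) := by
    rw [map_natCast]
    rfl
  have hmap : algebraMap ℚ K (D : ℚ) = ((j (D : Ei) : 𝓞 K) : K) := by
    rw [hcast, map_natCast]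
  have hD0 : ((j (D : Ei) : 𝓞 K) : K) ≠ 0 := by
    rw [hcast]
    exact Nat.cast_ne_zero.2 hC.1.1
  obtain ⟨σ, hσ⟩ := ex_conj j
  have hww : (w : Ei) ^ 2 + w + 1 = 0 := by decide
  have hz : ((j w : 𝓞 K) : K) ^ 2 + ((j w : 𝓞 K) : K) + 1 = 0 := by
    have h3 := congrArg (fun z => ((j z : 𝓞 K) : K)) hww
    simp only [map_add, map_pow, map_one, map_zero] at h3
    exact h3
  have h4 := rk_FK hD0 hmap hz σ hσ
  have h5 := h4.trans hrk
  omega

/-- **the bound for the rank of the cubic over `ℚ`** -/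
theorem rank_F {D : ℕ} (hC : Cls D) {s : ℕ} (hs : (Spl D).ncard = 3 ^ (s + 1)) :
    Module.finrank ℤ (WF (D : ℚ)).toAffine.Point ≤ 2 * s := by
  have h1 : NeZero ((3 : ℕ) : ℚ) := ⟨by norm_num⟩
  have h2 : IsCyclotomicExtension {3} ℚ (CyclotomicField 3 ℚ) :=
    CyclotomicField.isCyclotomicExtension 3 ℚ
  exact rank_F' (CyclotomicField 3 ℚ) hC hs

end Pool.Agent.QL543
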