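import Pool.Agent.QL543.LA

/-!
# Project QL (helper543): the limits and the block system, all ranks
-/

set_option autoImplicit false
set_option linter.unusedSectionVars false

open scoped Classical

namespace Pool.Agent.QL543

open Function Module
open Pool.Agent.Y703.CX
open Pool.Agent.Y759.CX

/-- the limit `3^(-r²) ∏_{i > r} (1 - 3^(-i)) / ∏_{i ≤ r} (1 - 3^(-i))` -/
noncomputable def pr (r : ℕ) : ℝ := (1 / 3 : ℝ) ^ (r ^ 2) * c3 / (pm r) ^ 2

lemma pm_anti (n k : ℕ) : pm (n + k) ≤ pm n := by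
  induction k with
  | zero => exact le_rfl
  | succ k ih =>
    rw [← Nat.add_assoc, pm_succ]
    have h1 := pm_pos (n + k)
    have h2 : 0 ≤ (1 / 3 : ℝ) ^ (n + k + 1) := by positivity
    nlinarith

lemma pm_lim (n : ℕ) : |pm n - c3| ≤ (1 / 3 : ℝ) ^ n := Pool.Agent.Y461.CX.t_C3.1 n

lemma c3_le_pm (n : ℕ) : c3 ≤ pm n := by
  refine le_of_forall_pos_le_add fun ε hε => ?_
  obtain ⟨k, hk⟩ := exists_pow_lt_of_lt_one hε (show (1 / 3 : ℝ) < 1 by norm_num)
  have h1 := abs_le.1 (pm_lim (n + k))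
  have h2 := pm_anti n k
  have h3 : (1 / 3 : ℝ) ^ (n + k) ≤ (1 / 3 : ℝ) ^ k :=
    pow_le_pow_of_le_one (by norm_num) (by norm_num) (by omega)
  linarith [h1.1]

lemma c3_gt : 0.56 < c3 := Pool.Agent.Y461.CX.t_C3.2.2.2

lemma c3_lt : c3 < 1 := Pool.Agent.Y461.CX.t_C3.2.2.1

lemma pr_nonneg (r : ℕ) : 0 ≤ pr r := by
  unfold pr
  have := c3_gt
  have h2 := pm_pos r
  positivity

/-- the proportion for size `m` is close to the limit -/
theorem pk_lim (m r : ℕ) : |pk m r - pr r| ≤ 20 * (1 / 3 : ℝ) ^ m := by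
  have hc := c3_gt
  have hc1 := c3_lt
  have hd := c3_le_pm r
  have hd1 := pm_le_one r
  have hrr : r ≤ r ^ 2 := by nlinarith [Nat.zero_le r, sq_nonneg ((r : ℤ)), Nat.le_self_pow two_ne_zero r]
  have hq0 : (0 : ℝ) < (1 / 3 : ℝ) ^ (r ^ 2) := by positivity
  obtain ⟨d, hdd⟩ : ∃ d, d = pm r := ⟨_, rfl⟩
  have hd2 : (0.3136 : ℝ) ≤ d ^ 2 := by rw [hdd]; nlinarith
  unfold pk pr
  rw [← hdd] at hd hd1 ⊢
  by_cases hr : r ≤ m
  · rw [if_pos hr]
    obtain ⟨a, ha⟩ : ∃ a, a = pm m := ⟨_, rfl⟩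
    obtain ⟨b, hb⟩ : ∃ b, b = pm (m - r) := ⟨_, rfl⟩
    have a1 := c3_le_pm m
    have a2 := pm_le_one m
    have a3 := abs_le.1 (pm_lim m)
    have b1 := c3_le_pm (m - r)
    have b2 := pm_le_one (m - r)
    have b3 := abs_le.1 (pm_lim (m - r))
    rw [← ha] at a1 a2 a3
    rw [← hb] at b1 b2 b3
    rw [← ha, ← hb]
    obtain ⟨t, ht⟩ : ∃ t : ℝ, t = (1 / 3 : ℝ) ^ (m - r) := ⟨_, rfl⟩
    have ht1 : (1 / 3 : ℝ) ^ m ≤ t := by
      rw [ht]
      exact pow_le_pow_of_le_one (by norm_num) (by norm_num) (Nat.sub_le _ _)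
    have ht0 : 0 < t := by rw [ht]; positivity
    rw [← ht] at b3
    have hb0 : 0 < b := by linarith
    have hd0 : 0 < d := by linarith
    have e1 : (1 / 3 : ℝ) ^ (r ^ 2) * a ^ 2 / (b * d ^ 2) - (1 / 3 : ℝ) ^ (r ^ 2) * c3 / d ^ 2 =
        (1 / 3 : ℝ) ^ (r ^ 2) * ((a ^ 2 - c3 * b) / (b * d ^ 2)) := by
      field_simp
    rw [e1, abs_mul, abs_of_pos hq0, abs_div, abs_of_pos (show 0 < b * d ^ 2 by positivity)]
    have e2 : |a ^ 2 - c3 * b| ≤ 3 * t := by
      rw [abs_le]
      constructor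
      · nlinarith
      · nlinarith
    have e3 : |a ^ 2 - c3 * b| / (b * d ^ 2) ≤ 20 * t := by
      rw [div_le_iff₀ (by positivity)]
      have : (0.17 : ℝ) ≤ b * d ^ 2 := by nlinarith
      nlinarith
    have e4 : (1 / 3 : ℝ) ^ (r ^ 2) * t ≤ (1 / 3 : ℝ) ^ m := by
      rw [ht, ← pow_add]
      exact pow_le_pow_of_le_one (by norm_num) (by norm_num) (by omega)
    nlinarith
  · rw [if_neg hr, zero_sub, abs_neg, abs_of_nonneg (by positivity)]
    have h1 : (1 / 3 : ℝ) ^ (r ^ 2) ≤ (1 / 3 : ℝ) ^ m :=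
      pow_le_pow_of_le_one (by norm_num) (by norm_num) (by omega)
    have h2 : (0 : ℝ) < (1 / 3 : ℝ) ^ m := by positivity
    rw [div_le_iff₀ (by positivity)]
    nlinarith

lemma pk_nonneg (m r : ℕ) : 0 ≤ pk m r := by
  unfold pk
  have := pm_pos m
  have := pm_pos (m - r)
  have := pm_pos r
  split_ifs
  · positivity
  · exact le_rfl

section lin

variable {X K Q W Y V : Type} [AddCommGroup X] [Module F X] [Finite X]
  [AddCommGroup K] [Module F K] [Finite K] [AddCommGroup Q] [Module F Q] [Finite Q]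
  [AddCommGroup W] [Module F W] [Finite W] [AddCommGroup Y] [Module F Y] [Finite Y]
  [AddCommGroup V] [Module F V] [Finite V]

/-- completions of an injective map -/
theorem fr_complr {m : ℕ} (r : ℕ) (hK : finrank F K = m) (f : X →ₗ[F] W) (hf : Injective f)
    (hW : finrank F W = finrank F X + m) :
    fr (fun g : K →ₗ[F] W => finrank F (LinearMap.ker (f.coprod g)) = r) = pk m r := by
  set R := LinearMap.range f with hR
  have hQ : finrank F (W ⧸ R) = m := by
    have h1 := Submodule.finrank_quotient_add_finrank R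
    have h2 : finrank F R = finrank F X := LinearMap.finrank_range_of_inj hf
    omega
  have : Finite (W ⧸ R) := Finite.of_surjective _ R.mkQ_surjective
  rw [← fr_ker (K := K) (Q := W ⧸ R) r hK hQ]
  let π : (K →ₗ[F] W) →+ (K →ₗ[F] W ⧸ R) :=
    { toFun := fun g => R.mkQ ∘ₗ g
      map_zero' := by ext; simp
      map_add' := fun g h => by ext; simp }
  have hπ : Surjective π := by
    obtain ⟨s, hs⟩ := R.mkQ.exists_rightInverse_of_surjective
      (LinearMap.range_eq_top.2 R.mkQ_surjective)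
    intro g
    refine ⟨s ∘ₗ g, ?_⟩
    show R.mkQ ∘ₗ (s ∘ₗ g) = g
    rw [← LinearMap.comp_assoc, hs, LinearMap.id_comp]
  rw [← fr_comp π hπ]
  congr 1
  funext g
  apply propext
  show finrank F (LinearMap.ker (f.coprod g)) = r ↔ finrank F (LinearMap.ker (R.mkQ ∘ₗ g)) = r
  have hmem : ∀ x : LinearMap.ker (f.coprod g), (x : X × K).2 ∈ LinearMap.ker (R.mkQ ∘ₗ g) := by
    intro x
    have h1 := LinearMap.mem_ker.1 x.2
    rw [LinearMap.coprod_apply] at h1
    rw [LinearMap.mem_ker, LinearMap.comp_apply, Submodule.mkQ_apply,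
      Submodule.Quotient.mk_eq_zero]
    exact ⟨-(x : X × K).1, by rw [map_neg]; exact (eq_neg_of_add_eq_zero_right h1).symm⟩
  let ψ : LinearMap.ker (f.coprod g) →ₗ[F] LinearMap.ker (R.mkQ ∘ₗ g) :=
    ((LinearMap.snd F X K) ∘ₗ (LinearMap.ker (f.coprod g)).subtype).codRestrict _ hmem
  have hψ : ∀ x, (ψ x : K) = (x : X × K).2 := fun x => rfl
  have hb : Bijective ψ := by
    constructor
    · refine (injective_iff_map_eq_zero ψ).2 ?_
      intro x hx
      have h1 : (x : X × K).2 = 0 := by rw [← hψ, hx]; rfl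
      have h2 := LinearMap.mem_ker.1 x.2
      rw [LinearMap.coprod_apply, h1, map_zero, add_zero] at h2
      exact Subtype.ext (Prod.ext (hf (h2.trans (map_zero f).symm)) h1)
    · intro k
      have h1 := LinearMap.mem_ker.1 k.2
      rw [LinearMap.comp_apply, Submodule.mkQ_apply, Submodule.Quotient.mk_eq_zero] at h1
      obtain ⟨y, hy⟩ := h1
      refine ⟨⟨(-y, (k : K)), ?_⟩, Subtype.ext rfl⟩
      rw [LinearMap.mem_ker, LinearMap.coprod_apply, map_neg]
      show -f y + g (k : K) = 0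
      rw [hy, neg_add_cancel]
  rw [(LinearEquiv.ofBijective ψ hb).finrank_eq]

/-- the number of the solutions of the block system, abstractly -/
noncomputable def nGb (A : X →ₗ[F] Y) (B : V →ₗ[F] Y) (C : X →ₗ[F] W) (R : V →ₗ[F] W) : ℕ :=
  Nat.card {p : X × V // A p.1 + B p.2 = 0 ∧ C p.1 + R p.2 = 0}

theorem fr_blockr (r : ℕ) (A : X →ₗ[F] Y) (B : V →ₗ[F] Y) (C : X →ₗ[F] W) (hB : Surjective B)
    (hC : Injective C) (h : finrank F X + finrank F V = finrank F Y + finrank F W) :
    |fr (fun R : V →ₗ[F] W => nGb A B C R = 3 ^ r) - pk (finrank F W - finrank F X) r| ≤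
      3 ^ finrank F X / 3 ^ finrank F W := by
  obtain ⟨s, hs⟩ := B.exists_rightInverse_of_surjective (LinearMap.range_eq_top.2 hB)
  have hs' : ∀ y, B (s y) = y := fun y => by
    rw [← LinearMap.comp_apply, hs, LinearMap.id_apply]
  let K := LinearMap.ker B
  have hP0 : ∀ v, v - s (B v) ∈ K := fun v => by
    rw [LinearMap.mem_ker, map_sub, hs', sub_self]
  let P : V →ₗ[F] K := (LinearMap.id - s ∘ₗ B).codRestrict K hP0
  have hP : ∀ v, (P v : V) = v - s (B v) := fun v => rfl
  have hK1 : finrank F K + finrank F Y = finrank F V := by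
    have h1 := LinearMap.finrank_range_add_finrank_ker B
    rw [LinearMap.range_eq_top.2 hB, finrank_top] at h1
    show finrank F (LinearMap.ker B) + _ = _
    omega
  have hC1 : finrank F X ≤ finrank F W := LinearMap.finrank_le_finrank_of_injective hC
  obtain ⟨m, hm⟩ : ∃ m, m = finrank F W - finrank F X := ⟨_, rfl⟩
  have hK : finrank F K = m := by omega
  have hW : finrank F W = finrank F X + m := by omega
  let e : (Y →ₗ[F] W) × (K →ₗ[F] W) ≃ (V →ₗ[F] W) :=
    { toFun := fun p => p.1 ∘ₗ B + p.2 ∘ₗ P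
      invFun := fun R => (R ∘ₗ s, R ∘ₗ K.subtype)
      left_inv := fun p => by
        refine Prod.ext ?_ ?_
        · refine LinearMap.ext fun y => ?_
          show p.1 (B (s y)) + p.2 (P (s y)) = p.1 y
          have : P (s y) = 0 := Subtype.ext (by
            rw [hP, hs', sub_self]
            rfl)
          rw [this, map_zero, add_zero, hs']
        · refine LinearMap.ext fun k => ?_
          show p.1 (B (k : V)) + p.2 (P (k : V)) = p.2 k
          have h1 : B (k : V) = 0 := LinearMap.mem_ker.1 k.2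
          have : P (k : V) = k := Subtype.ext (by
            rw [hP, h1, map_zero, sub_zero])
          rw [this, h1, map_zero, zero_add]
      right_inv := fun R => by
        refine LinearMap.ext fun v => ?_
        show R (s (B v)) + R (P v : V) = R v
        rw [hP, map_sub]
        abel }
  rw [← fr_equiv e]
  have hcard : ∀ p : (Y →ₗ[F] W) × (K →ₗ[F] W), nGb A B C (e p) =
      3 ^ finrank F (LinearMap.ker ((C - p.1 ∘ₗ A).coprod p.2)) := by
    rintro ⟨R1, R2⟩
    have he : ∀ v, e (R1, R2) v = R1 (B v) + R2 (P v) := fun v => rfl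
    rw [← card_mod]
    unfold nGb
    refine Nat.card_congr ?_
    exact {
      toFun := fun p => ⟨(p.1.1, P p.1.2), by
        have h3 : B p.1.2 = -A p.1.1 := by
          rw [eq_neg_iff_add_eq_zero, add_comm]
          exact p.2.1
        have h2 := p.2.2
        rw [he, h3, map_neg] at h2
        rw [LinearMap.mem_ker, LinearMap.coprod_apply]
        simp only [LinearMap.sub_apply, LinearMap.comp_apply]
        rw [sub_eq_add_neg, add_assoc]
        exact h2⟩
      invFun := fun q => ⟨((q : X × K).1, ((q : X × K).2 : V) - s (A (q : X × K).1)), by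
        have hq := LinearMap.mem_ker.1 q.2
        rw [LinearMap.coprod_apply] at hq
        simp only [LinearMap.sub_apply, LinearMap.comp_apply] at hq
        have h1 : B ((q : X × K).2 : V) = 0 := LinearMap.mem_ker.1 (q : X × K).2.2
        have h2 : B (((q : X × K).2 : V) - s (A (q : X × K).1)) = -A (q : X × K).1 := by
          rw [map_sub, h1, hs', zero_sub]
        have h3 : P (((q : X × K).2 : V) - s (A (q : X × K).1)) = (q : X × K).2 := Subtype.ext (by
          rw [hP, h2, map_neg]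
          abel)
        refine ⟨by
          show A (q : X × K).1 + B (((q : X × K).2 : V) - s (A (q : X × K).1)) = 0
          rw [h2, add_neg_cancel], ?_⟩
        show C (q : X × K).1 + e (R1, R2) (((q : X × K).2 : V) - s (A (q : X × K).1)) = 0
        rw [he, h2, h3, map_neg]
        rw [sub_eq_add_neg, add_assoc] at hq
        exact hq⟩
      left_inv := fun p => by
        refine Subtype.ext (Prod.ext rfl ?_)
        have h3 : B p.1.2 = -A p.1.1 := by
          rw [eq_neg_iff_add_eq_zero, add_comm]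
          exact p.2.1
        show (P p.1.2 : V) - s (A p.1.1) = p.1.2
        rw [hP, h3, map_neg]
        abel
      right_inv := fun q => by
        have h1 : B ((q : X × K).2 : V) = 0 := LinearMap.mem_ker.1 (q : X × K).2.2
        have h2 : B (((q : X × K).2 : V) - s (A (q : X × K).1)) = -A (q : X × K).1 := by
          rw [map_sub, h1, hs', zero_sub]
        refine Subtype.ext (Prod.ext rfl (Subtype.ext ?_))
        show (P (((q : X × K).2 : V) - s (A (q : X × K).1)) : V) = _
        rw [hP, h2, map_neg]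
        abel }
  have h1 : fr (fun p : (Y →ₗ[F] W) × (K →ₗ[F] W) => nGb A B C (e p) = 3 ^ r) =
      fr (fun p : (Y →ₗ[F] W) × (K →ₗ[F] W) =>
        finrank F (LinearMap.ker ((C - p.1 ∘ₗ A).coprod p.2)) = r) := by
    congr 1
    funext p
    rw [hcard p, Nat.pow_right_inj (by norm_num)]
  rw [h1, ← hm]
  have := Fintype.ofFinite (Y →ₗ[F] W)
  rw [fr_prod (fun (R1 : Y →ₗ[F] W) (R2 : K →ₗ[F] W) =>
    finrank F (LinearMap.ker ((C - R1 ∘ₗ A).coprod R2)) = r)]
  obtain ⟨φ, hφ⟩ : ∃ φ : (Y →ₗ[F] W) → ℝ, φ = fun R1 : Y →ₗ[F] W => fr (fun R2 : K →ₗ[F] W =>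
    finrank F (LinearMap.ker ((C - R1 ∘ₗ A).coprod R2)) = r) := ⟨_, rfl⟩
  have hφ1 : ∀ R1 : Y →ₗ[F] W, Injective (C - R1 ∘ₗ A) → φ R1 = pk m r := fun R1 hi => by
    rw [hφ]
    exact fr_complr r hK _ hi hW
  have hφ2 : ∀ R1, 0 ≤ φ R1 := fun R1 => by rw [hφ]; exact fr_nonneg _
  have hφ3 : ∀ R1, φ R1 ≤ 1 := fun R1 => by rw [hφ]; exact fr_le_one _
  have hpk1 : pk m r ≤ 1 := by
    rw [← fr_ker (K := Fin m → F) (Q := Fin m → F) r (by simp) (by simp)]
    exact fr_le_one _
  have hpk0 := pk_nonneg m r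
  have hN : (0 : ℝ) < Nat.card (Y →ₗ[F] W) := by exact_mod_cast Nat.card_pos
  have hsum : |∑ R1, (φ R1 - pk m r)| ≤
      ((Finset.univ.filter fun R1 : Y →ₗ[F] W => ¬ Injective (C - R1 ∘ₗ A)).card : ℝ) := by
    refine (Finset.abs_sum_le_sum_abs _ _).trans ?_
    rw [Finset.card_filter]
    push_cast
    refine Finset.sum_le_sum fun R1 _ => ?_
    by_cases hi : Injective (C - R1 ∘ₗ A)
    · rw [hφ1 R1 hi, sub_self, abs_zero, if_neg (by simpa using hi)]
    · rw [if_pos hi, abs_le]
      constructor <;> linarith [hφ2 R1, hφ3 R1]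
  have h2 := fr_pert A C hC
  have h3 : fr (fun R : Y →ₗ[F] W => ¬ Injective (C - R ∘ₗ A)) =
      ((Finset.univ.filter fun R1 : Y →ₗ[F] W => ¬ Injective (C - R1 ∘ₗ A)).card : ℝ) /
        Nat.card (Y →ₗ[F] W) := by
    unfold fr
    rw [Nat.card_eq_fintype_card (α := {g : Y →ₗ[F] W // ¬ Injective (C - g ∘ₗ A)}),
      Fintype.card_subtype]
  rw [h3] at h2
  refine le_trans ?_ h2
  have h4 : (∑ R1, φ R1) / (Nat.card (Y →ₗ[F] W) : ℝ) - pk m r =
      (∑ R1, (φ R1 - pk m r)) / (Nat.card (Y →ₗ[F] W) : ℝ) := by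
    rw [Finset.sum_sub_distrib, Finset.sum_const, nsmul_eq_mul, Finset.card_univ,
      ← Nat.card_eq_fintype_card, sub_div, mul_div_cancel_left₀ _ hN.ne']
  have h5 : (∑ g : Y →ₗ[F] W, fr (fun R2 : K →ₗ[F] W =>
      finrank F (LinearMap.ker ((C - g ∘ₗ A).coprod R2)) = r)) = ∑ R1, φ R1 := by rw [hφ]
  rw [h5, h4, abs_div, abs_of_pos hN]
  exact div_le_div_of_nonneg_right hsum hN.le

end lin

/-! ### the system of project CX -/

section main

open Finset

variable {U J : Type} [Fintype U] [Fintype J]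

/-- the number of the solutions of the block system -/
noncomputable def nQ (U1 : Finset U) (J1 : Finset J)
    (A : U → U → ZMod 3) (B : U → J → ZMod 3) (C : J → U → ZMod 3) (R : J → J → ZMod 3) : ℕ :=
  Nat.card {p : (U → ZMod 3) × (J → ZMod 3) //
    (∀ u ∈ U1, ∑ v, (p.1 v - p.1 u) * A u v + ∑ l, (p.2 l - p.1 u) * B u l = 0) ∧
    (∀ k ∈ J1, ∑ u, (p.1 u - p.2 k) * C k u + ∑ l, (p.2 l - p.2 k) * R k l = 0)}

lemma nQ_eq (ks : J) (U1 : Finset U) (J1 : Finset J) (A : U → U → F) (B : U → J → F)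
    (C : J → U → F) (α : prs J1 → F) : nQ U1 J1 A B C (ext α) =
    3 * nGb (mA U1 A B) (mB ks U1 B) (mC J1 C) (eR ks J1 C α) := by
  have hdt : ∀ (d : J → F) (l : J), dt ks (fun l : {l : J // l ≠ ks} => d l - d ks) l =
      d l - d ks := by
    intro d l
    by_cases h : l = ks
    · rw [h, dt_ks, sub_self]
    · rw [dt_of ks _ h]
  have h3 : Nat.card F = 3 := by rw [Nat.card_eq_fintype_card, ZMod.card]
  have h4 : ∀ T : Type, 3 * Nat.card T = Nat.card (F × T) := fun T => by rw [Nat.card_prod, h3]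
  unfold nQ nGb
  rw [h4]
  refine Nat.card_congr ?_
  exact {
    toFun := fun p => (p.1.2 ks, ⟨(fun u => p.1.1 u - p.1.2 ks, fun l => p.1.2 l - p.1.2 ks), by
      constructor
      · funext u
        rw [row1]
        simp only [hdt, sub_sub_sub_cancel_right]
        exact p.2.1 u u.2
      · funext k
        rw [row2]
        simp only [hdt, sub_sub_sub_cancel_right]
        exact p.2.2 k k.2⟩)
    invFun := fun q => ⟨(fun u => q.2.1.1 u + q.1, fun l => dt ks q.2.1.2 l + q.1), by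
      constructor
      · intro u hu
        have h1 := congrFun q.2.2.1 ⟨u, hu⟩
        rw [row1] at h1
        simp only [add_sub_add_right_eq_sub]
        exact h1
      · intro k hk
        have h1 := congrFun q.2.2.2 ⟨k, hk⟩
        rw [row2] at h1
        simp only [add_sub_add_right_eq_sub]
        exact h1⟩
    left_inv := fun p => by
      refine Subtype.ext (Prod.ext (funext fun u => ?_) (funext fun l => ?_))
      · show p.1.1 u - p.1.2 ks + p.1.2 ks = _
        rw [sub_add_cancel]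
      · show dt ks (fun l : {l : J // l ≠ ks} => p.1.2 l - p.1.2 ks) l + p.1.2 ks = _
        rw [hdt, sub_add_cancel]
    right_inv := fun q => by
      refine Prod.ext ?_ (Subtype.ext (Prod.ext (funext fun u => ?_) (funext fun l => ?_)))
      · show dt ks q.2.1.2 ks + q.1 = q.1
        rw [dt_ks, zero_add]
      · show q.2.1.1 u + q.1 - (dt ks q.2.1.2 ks + q.1) = _
        rw [dt_ks, zero_add, add_sub_cancel_right]
      · show dt ks q.2.1.2 l + q.1 - (dt ks q.2.1.2 ks + q.1) = _
        rw [dt_ks, zero_add, add_sub_cancel_right, dt_of ks _ l.2] }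

/-- the probability that a random completion has `3 ^ (r + 1)` solutions -/
def S_LAr : Prop := ∀ (r : ℕ) (U J : Type) [Fintype U] [Fintype J] (U1 : Finset U)
  (J1 : Finset J) (ks : J), Fintype.card U + Fintype.card J = U1.card + J1.card + 1 →
  (∀ l, l ∉ J1 → l = ks) → ∀ (A : U → U → ZMod 3) (B : U → J → ZMod 3) (C : J → U → ZMod 3),
  (∀ v : U → ZMod 3, (∃ u ∈ U1, v u ≠ 0) → ∃ l, l ≠ ks ∧ ∑ u ∈ U1, v u * B u l ≠ 0) →
  (∀ w : U → ZMod 3, (∃ u, w u ≠ 0) → ∃ k ∈ J1, ∑ u, w u * C k u ≠ 0) →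
  |((univ.filter fun α : prs J1 → ZMod 3 => nQ U1 J1 A B C (ext α) = 3 ^ (r + 1)).card : ℝ) /
      3 ^ (prs J1).card - pr r| ≤ 21 * (3 ^ Fintype.card U / 3 ^ J1.card)

theorem t_LAr : S_LAr := by
  intro r U J _ _ U1 J1 ks hcard hJ A B C hB hC
  have hU : 1 ≤ Fintype.card J := Fintype.card_pos_iff.2 ⟨ks⟩
  have e1 : finrank F (U → F) = Fintype.card U := finrank_fintype_fun_eq_card F
  have e2 : finrank F ({l : J // l ≠ ks} → F) = Fintype.card J - 1 := by
    rw [finrank_fintype_fun_eq_card, card_ne]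
  have e3 : finrank F (U1 → F) = U1.card := by
    rw [finrank_fintype_fun_eq_card, Fintype.card_coe]
  have e4 : finrank F (J1 → F) = J1.card := by
    rw [finrank_fintype_fun_eq_card, Fintype.card_coe]
  have key := fr_blockr r (mA U1 A B) (mB ks U1 B) (mC J1 C) (mB_surj ks U1 B hB)
    (mC_inj J1 C hC) (by rw [e1, e2, e3, e4]; omega)
  have hle : Fintype.card U ≤ J1.card := by
    rw [← e1, ← e4]
    exact LinearMap.finrank_le_finrank_of_injective (mC_inj J1 C hC)
  have h5 : ((univ.filter fun α : prs J1 → ZMod 3 =>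
      nQ U1 J1 A B C (ext α) = 3 ^ (r + 1)).card : ℝ) /
      3 ^ (prs J1).card = fr (fun R : ({l : J // l ≠ ks} → F) →ₗ[F] (J1 → F) =>
        nGb (mA U1 A B) (mB ks U1 B) (mC J1 C) R = 3 ^ r) := by
    rw [← fr_equiv (eR ks J1 C)]
    unfold fr
    have h6 : Nat.card (prs J1 → F) = 3 ^ (prs J1).card := by
      rw [Nat.card_fun, Nat.card_eq_fintype_card, Nat.card_eq_fintype_card, ZMod.card,
        Fintype.card_coe]
    rw [h6, Nat.card_eq_fintype_card, Fintype.card_subtype]
    push_cast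
    congr 3
    refine Finset.filter_congr fun α _ => ?_
    rw [nQ_eq ks U1 J1 A B C α, pow_succ']
    exact Nat.mul_right_inj (by norm_num)
  rw [h5]
  rw [e1, e4] at key
  have h7 := pk_lim (J1.card - Fintype.card U) r
  have h8 : (1 / 3 : ℝ) ^ (J1.card - Fintype.card U) = 3 ^ Fintype.card U / 3 ^ J1.card := by
    rw [one_div_pow, one_div, inv_eq_one_div, div_eq_div_iff (by positivity) (by positivity),
      one_mul, ← pow_add]
    congr 1
    omega
  rw [h8] at h7
  rw [abs_le] at key h7 ⊢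
  constructor <;> linarith [key.1, key.2, h7.1, h7.2]

end main

end Pool.Agent.QL543
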