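import Pool.Agent.R419.CF.Box
import Pool.Agent.QL543.LA2

/-!
# Project QL (helper543): the count in a box, with weights and all ranks

Adapted from `R419/CF/Box.lean` (helper419), `Y911/CX/BOX.lean` (helper911) and `Y170/XL/BOX.lean`
(helper170).
-/

set_option autoImplicit false

open scoped Classical

namespace Pool.Agent.QL543

open Finset
open Pool.Agent.Y703.CX
open Pool.Agent.Y911.CX
open Pool.Agent.Y699.E (ez)
open Pool.Agent.R419.CF (wt wt_one wt_ne)

/-- the number of the solutions of the linear system attached to `D` -/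
noncomputable def nW (M S : Finset ℕ) : ℕ :=
  Nat.card {v : S → ZMod 3 // ∀ p : S, (p : ℕ) % 3 = 1 →
    ∑ q : S, (v q - v p) * (wt M q * lam p q) = 0}

/-- the pairs whose solution space has dimension `r + 1` -/
def GrQ (r : ℕ) (M S : Finset ℕ) : Prop := nW M S = 3 ^ (r + 1)

section one
variable {ι : Type} [Fintype ι] {J1 : Finset ι} {M S₀ : Finset ℕ} {p : ι → ℕ}

/-- the points of the union -/
noncomputable def em (S₀ : Finset ℕ) (p : ι → ℕ) : S₀ ⊕ ι → ↥(S₀ ∪ univ.image p)
  | Sum.inl u => ⟨u, Finset.mem_union_left _ u.2⟩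
  | Sum.inr l => ⟨p l, Finset.mem_union_right _ (Finset.mem_image_of_mem _ (Finset.mem_univ _))⟩

theorem em_bij (hp : Function.Injective p) (hd : ∀ i, p i ∉ S₀) :
    Function.Bijective (em S₀ p) := by
  constructor
  · rintro (u | l) (v | k) h
    · have h1 : (em S₀ p (Sum.inl u) : ℕ) = em S₀ p (Sum.inl v) := congrArg Subtype.val h
      exact congrArg Sum.inl (Subtype.ext h1)
    · have h1 : (u : ℕ) = p k := congrArg Subtype.val h
      exact absurd (h1 ▸ u.2) (hd k)
    · have h1 : p l = (v : ℕ) := congrArg Subtype.val h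
      exact absurd (h1 ▸ v.2) (hd l)
    · have h1 : p l = p k := congrArg Subtype.val h
      exact congrArg Sum.inr (hp h1)
  · rintro ⟨x, hx⟩
    rcases Finset.mem_union.1 hx with h | h
    · exact ⟨Sum.inl ⟨x, h⟩, rfl⟩
    · obtain ⟨k, -, rfl⟩ := Finset.mem_image.1 h
      exact ⟨Sum.inr k, rfl⟩

/-- functions on the union -/
noncomputable def fe (hp : Function.Injective p) (hd : ∀ i, p i ∉ S₀) :
    (↥(S₀ ∪ univ.image p) → ZMod 3) ≃ (S₀ → ZMod 3) × (ι → ZMod 3) :=
  ((Equiv.ofBijective _ (em_bij hp hd)).symm.arrowCongr (Equiv.refl (ZMod 3))).trans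
    (Equiv.sumArrowEquivProdArrow _ _ _)

theorem sum_em (hp : Function.Injective p) (hd : ∀ i, p i ∉ S₀)
    (f : ↥(S₀ ∪ univ.image p) → ZMod 3) :
    ∑ x, f x = ∑ u : S₀, f (em S₀ p (Sum.inl u)) + ∑ l, f (em S₀ p (Sum.inr l)) := by
  rw [← (Equiv.ofBijective _ (em_bij hp hd)).sum_comp, Fintype.sum_sum_type]
  rfl

/-- **the numbers of solutions agree** -/
theorem nW_eq (hM : M ⊆ S₀) (hp : Function.Injective p) (hd : ∀ i, p i ∉ S₀)
    (hJ : ∀ i, p i % 3 = 1 ↔ i ∈ J1) :
    nW M (S₀ ∪ univ.image p) = nQ (univ.filter fun u : S₀ => (u : ℕ) % 3 = 1) J1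
      (fun u v : S₀ => wt M v * lam u v) (fun (u : S₀) l => lam u (p l))
      (fun k (u : S₀) => wt M u * lam (p k) u)
      (Pool.Agent.Y703.CX.ext fun e : prs J1 => lam (p e.1.1) (p e.1.2)) := by
  have hw : ∀ i, wt M (p i) = 1 := fun i => wt_one fun h => hd i (hM h)
  unfold nW nQ
  refine Nat.card_congr (Equiv.subtypeEquiv (fe hp hd) fun v => ?_)
  have hrow1 : ∀ u : S₀, ∑ q : ↥(S₀ ∪ univ.image p), (v q - v (em S₀ p (Sum.inl u))) *
      (wt M q * lam u q) =
      ∑ w : S₀, (v (em S₀ p (Sum.inl w)) - v (em S₀ p (Sum.inl u))) * (wt M w * lam u w) +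
      ∑ l, (v (em S₀ p (Sum.inr l)) - v (em S₀ p (Sum.inl u))) * lam u (p l) := by
    intro u
    rw [sum_em hp hd]
    congr 1
    refine Finset.sum_congr rfl fun l _ => ?_
    show _ * (wt M (p l) * lam u (p l)) = _
    rw [hw, one_mul]
  have hrow2 : ∀ k : ι, k ∈ J1 → ∑ q : ↥(S₀ ∪ univ.image p), (v q - v (em S₀ p (Sum.inr k))) *
      (wt M q * lam (p k) q) =
      ∑ w : S₀, (v (em S₀ p (Sum.inl w)) - v (em S₀ p (Sum.inr k))) * (wt M w * lam (p k) w) +
      ∑ l, (v (em S₀ p (Sum.inr l)) - v (em S₀ p (Sum.inr k))) *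
        Pool.Agent.Y703.CX.ext (fun e : prs J1 => lam (p e.1.1) (p e.1.2)) k l := by
    intro k hk
    rw [sum_em hp hd, ext_sum hp k hk (fun l => v (em S₀ p (Sum.inr l)))]
    congr 1
    refine Finset.sum_congr rfl fun l _ => ?_
    show _ * (wt M (p l) * lam (p k) (p l)) = _
    rw [hw, one_mul]
  constructor
  · intro h
    refine ⟨fun u hu => ?_, fun k hk => ?_⟩
    · exact (hrow1 u).symm.trans (h (em S₀ p (Sum.inl u)) (Finset.mem_filter.1 hu).2)
    · exact (hrow2 k hk).symm.trans (h (em S₀ p (Sum.inr k)) ((hJ k).2 hk))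
  · rintro ⟨h1, h2⟩ x
    obtain ⟨y, rfl⟩ := (em_bij hp hd).2 x
    rcases y with u | k
    · intro hu
      exact (hrow1 u).trans (h1 u (Finset.mem_filter.2 ⟨Finset.mem_univ _, hu⟩))
    · intro hk
      have hk' := (hJ k).1 hk
      exact (hrow2 k hk').trans (h2 k hk')

end one

/-- the count in a box for a property `P` with the constants `c`, `K` -/
def BoxQ (P : Finset ℕ → Finset ℕ → Prop) (c K : ℝ) : Prop :=
  ∀ (ι : Type) [Fintype ι] (J1 : Finset ι)
    (C : ι → Finset ℕ) (X : ι → ℕ) (κ : ℝ) (M S₀ : Finset ℕ), M ⊆ S₀ → 0 ≤ κ →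
    (∀ i, (C i).card ≤ X i) → HB J1 C X κ → (∀ u ∈ S₀, u.Prime ∧ u ≠ 3) →
    (∀ i, ∀ p ∈ C i, p.Prime ∧ p ∉ S₀ ∧ (i ∈ J1 → p % 3 = 1) ∧ (i ∉ J1 → p % 3 = 2)) →
    (∀ i l, i ≠ l → Disjoint (C i) (C l)) → J1.Nonempty →
    (S₀.filter fun p => p % 3 = 2).card + (univ \ J1).card = 1 →
    |(((Fintype.piFinset C).filter fun p => Nd S₀ (univ.image p) ∧
        P M (S₀ ∪ univ.image p)).card : ℝ) -
      c * (((Fintype.piFinset C).filter fun p => Nd S₀ (univ.image p)).card : ℝ)| ≤
    K * (3 ^ S₀.card / 3 ^ J1.card) *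
      (((Fintype.piFinset C).filter fun p => Nd S₀ (univ.image p)).card : ℝ) +
    3 ^ (2 * S₀.card * Fintype.card ι + (prs J1).card) * (κ * ∏ j, (X j : ℝ))

/-- **The count in a box.** -/
theorem t_BOXQ (hEQ : S_EQ) (hLA : S_LAr) (r : ℕ) : BoxQ (GrQ r) (pr r) 21 := by
  intro ι _ J1 C X κ M S₀ hM hκ hCX hHB hS₀ hC hdis hne hcard
  set cc : ℝ := 21 * (3 ^ S₀.card / 3 ^ J1.card) with hcc
  set R : ℝ := 3 ^ (prs J1).card * (κ * ∏ j, (X j : ℝ)) with hR
  have hcc0 : 0 ≤ cc := by positivity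
  have hR0 : 0 ≤ R := mul_nonneg (by positivity)
    (mul_nonneg hκ (Finset.prod_nonneg fun j _ => by positivity))
  -- facts on tuples
  have hinj : ∀ p ∈ Fintype.piFinset C, Function.Injective p := by
    intro p hp i j hij
    rw [Fintype.mem_piFinset] at hp
    by_contra hne
    have h1 := Finset.disjoint_left.1 (hdis i j hne) (hp i)
    rw [hij] at h1
    exact h1 (hp j)
  have hJ : ∀ p ∈ Fintype.piFinset C, ∀ i, p i % 3 = 1 ↔ i ∈ J1 := by
    intro p hp i
    rw [Fintype.mem_piFinset] at hp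
    obtain ⟨-, -, h1, h2⟩ := hC i _ (hp i)
    constructor
    · intro h
      by_contra h3
      have := h2 h3
      omega
    · exact h1
  have hd : ∀ p ∈ Fintype.piFinset C, ∀ i, p i ∉ S₀ := by
    intro p hp i
    rw [Fintype.mem_piFinset] at hp
    exact (hC i _ (hp i)).2.1
  -- the exceptional index
  obtain ⟨ks, hks⟩ : ∃ ks : ι, ∀ l, l ∉ J1 → l = ks := by
    by_cases h : ∃ l, l ∉ J1
    · obtain ⟨l, hl⟩ := h
      refine ⟨l, fun l' hl' => ?_⟩
      have h1 : (univ \ J1).card ≤ 1 := by omega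
      rw [Finset.card_le_one] at h1
      exact h1 l' (Finset.mem_sdiff.2 ⟨Finset.mem_univ _, hl'⟩) l
        (Finset.mem_sdiff.2 ⟨Finset.mem_univ _, hl⟩)
    · push Not at h
      obtain ⟨k, -⟩ := hne
      exact ⟨k, fun l hl => absurd (h l) hl⟩
  have hcount : Fintype.card S₀ + Fintype.card ι =
      (univ.filter fun u : S₀ => (u : ℕ) % 3 = 1).card + J1.card + 1 := by
    have h1 : (univ \ J1).card + J1.card = Fintype.card ι := by
      rw [Finset.card_sdiff_add_card_eq_card (Finset.subset_univ _), Finset.card_univ]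
    have h2 : (univ.filter fun u : S₀ => (u : ℕ) % 3 = 1).card =
        (S₀.filter fun p => p % 3 = 1).card := by
      rw [← Finset.card_map (Function.Embedding.subtype (· ∈ S₀))]
      congr 1
      ext x
      simp only [Finset.mem_map, Finset.mem_filter, Finset.mem_univ, true_and,
        Function.Embedding.coe_subtype]
      constructor
      · rintro ⟨u, hu, rfl⟩
        exact ⟨u.2, hu⟩
      · rintro ⟨h, h'⟩
        exact ⟨⟨x, h⟩, h', rfl⟩
    have h3 : (S₀.filter fun p => p % 3 = 1).card + (S₀.filter fun p => p % 3 = 2).card =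
        S₀.card := by
      rw [← Finset.card_filter_add_card_filter_not (s := S₀) (fun p => p % 3 = 1)]
      congr 2
      refine Finset.filter_congr fun x hx => ?_
      have h4 := hS₀ x hx
      have h5 : x % 3 ≠ 0 := by
        intro h0
        have := (Nat.prime_dvd_prime_iff_eq Nat.prime_three h4.1).1 (Nat.dvd_of_mod_eq_zero h0)
        exact h4.2 this.symm
      omega
    rw [Fintype.card_coe, h2]
    omega
  -- the part with given labels
  have h1 : ∀ β : ι → (S₀ → ZMod 3) × (S₀ → ZMod 3), LN S₀ J1 β →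
      |(((Fintype.piFinset C).filter fun p => (fun i => lb S₀ (p i)) = β ∧
          GrQ r M (S₀ ∪ univ.image p)).card : ℝ) -
        pr r * (((Fintype.piFinset C).filter fun p => (fun i => lb S₀ (p i)) = β).card : ℝ)| ≤
      cc * (((Fintype.piFinset C).filter fun p => (fun i => lb S₀ (p i)) = β).card : ℝ) + R := by
    intro β hβ
    set C' : ι → Finset ℕ := fun i => (C i).filter fun q => lb S₀ q = β i with hC'
    have hpi : (Fintype.piFinset C).filter (fun p => (fun i => lb S₀ (p i)) = β) =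
        Fintype.piFinset C' := by
      ext p
      simp only [Finset.mem_filter, Fintype.mem_piFinset, hC']
      constructor
      · rintro ⟨h2, h3⟩ i
        exact ⟨h2 i, congrFun h3 i⟩
      · intro h2
        exact ⟨fun i => (h2 i).1, funext fun i => (h2 i).2⟩
    have h2 := hLA r S₀ ι (univ.filter fun u : S₀ => (u : ℕ) % 3 = 1) J1 ks hcount hks
      (fun u v => wt M v * lam u v) (fun u l => (β l).1 u) (fun k u => wt M u * (β k).2 u)
      (by
        rintro v ⟨u, hu, hv⟩
        have h3 := hβ.1 v ⟨u, (Finset.mem_filter.1 hu).2, hv⟩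
        obtain ⟨l, hl, hlk⟩ := Finset.exists_mem_ne (lt_of_lt_of_le one_lt_two h3) ks
        exact ⟨l, hlk, (Finset.mem_filter.1 hl).2⟩)
      (fun w hw => by
        obtain ⟨u, hu⟩ := hw
        obtain ⟨k, hk, hk2⟩ := hβ.2 (fun u => w u * wt M u) ⟨u, mul_ne_zero hu (wt_ne M u)⟩
        refine ⟨k, hk, fun h0 => hk2 ?_⟩
        rw [← h0]
        exact Finset.sum_congr rfl fun u _ => mul_assoc _ _ _)
    obtain ⟨Q, hQ⟩ : ∃ Q : (prs J1 → ZMod 3) → Prop, Q = fun α =>
      nQ (univ.filter fun u : S₀ => (u : ℕ) % 3 = 1)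
      J1 (fun u v : S₀ => wt M v * lam u v) (fun (u : S₀) l => (β l).1 u)
      (fun k (u : S₀) => wt M u * (β k).2 u)
      (Pool.Agent.Y703.CX.ext α) = 3 ^ (r + 1) := ⟨_, rfl⟩
    have h3 := hEQ ι J1 C' X κ hκ
      (fun i => (Finset.card_le_card (Finset.filter_subset _ _)).trans (hCX i))
      (HB_sub hHB fun i q => lb S₀ q = β i) Q
    have h4 : ((Fintype.piFinset C).filter fun p => (fun i => lb S₀ (p i)) = β ∧
        GrQ r M (S₀ ∪ univ.image p)) = ((Fintype.piFinset C').filter fun p =>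
          Q fun e => lam (p e.1.1) (p e.1.2)) := by
      rw [← hpi, Finset.filter_filter]
      refine Finset.filter_congr fun p hp => ?_
      refine and_congr_right fun hl => ?_
      unfold GrQ
      rw [nW_eq hM (hinj p hp) (hd p hp) (hJ p hp)]
      subst hl
      rw [hQ]
      exact Iff.rfl
    have h5 : (((Fintype.piFinset C').card : ℕ) : ℝ) = ∏ j, ((C' j).card : ℝ) := by
      rw [Fintype.card_piFinset]
      push_cast
      rfl
    rw [h4, hpi, h5]
    rw [Fintype.card_coe] at h2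
    obtain ⟨n, hn⟩ : ∃ n : ℝ, n = (((Fintype.piFinset C').filter fun p =>
          Q fun e => lam (p e.1.1) (p e.1.2)).card : ℝ) := ⟨_, rfl⟩
    obtain ⟨q, hq⟩ : ∃ q : ℝ, q = ((univ.filter Q).card : ℝ) / 3 ^ (prs J1).card := ⟨_, rfl⟩
    obtain ⟨P, hP⟩ : ∃ P : ℝ, P = ∏ j, ((C' j).card : ℝ) := ⟨_, rfl⟩
    have hP0 : 0 ≤ P := by
      rw [hP]
      exact Finset.prod_nonneg fun j _ => by positivity
    have h2' : |q - pr r| ≤ cc := by
      have e : (univ.filter Q) = (univ.filter fun α : prs J1 → ZMod 3 =>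
          nQ (univ.filter fun u : S₀ => (u : ℕ) % 3 = 1)
          J1 (fun u v : S₀ => wt M v * lam u v) (fun (u : S₀) l => (β l).1 u)
          (fun k (u : S₀) => wt M u * (β k).2 u)
          (Pool.Agent.Y703.CX.ext α) = 3 ^ (r + 1)) := by
        ext α
        rw [Finset.mem_filter, Finset.mem_filter, hQ]
      rw [hq, e]
      exact h2
    rw [← hn, ← hq, ← hP] at h3
    rw [← hn, ← hP]
    have h6 : |n - pr r * P| ≤ |n - q * P| + |q - pr r| * P := by
      have h7 : n - pr r * P = (n - q * P) + (q - pr r) * P := by ring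
      have h8 : |(q - pr r) * P| = |q - pr r| * P := by rw [abs_mul, abs_of_nonneg hP0]
      rw [h7, ← h8]
      exact abs_add_le _ _
    have h7 : |q - pr r| * P ≤ cc * P := mul_le_mul_of_nonneg_right h2' hP0
    have h8 : |n - q * P| ≤ R := h3
    linarith
  -- sum over the labels
  set LL := univ.filter (fun β : ι → (S₀ → ZMod 3) × (S₀ → ZMod 3) => LN S₀ J1 β) with hLL
  have hfib : ∀ T : (ι → ℕ) → Prop,
      (((Fintype.piFinset C).filter fun p => Nd S₀ (univ.image p) ∧ T p).card : ℝ) =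
      ∑ β ∈ LL, (((Fintype.piFinset C).filter fun p =>
        (fun i => lb S₀ (p i)) = β ∧ T p).card : ℝ) := by
    intro T
    rw [Finset.card_eq_sum_card_fiberwise (f := fun (p : ι → ℕ) (i : ι) => lb S₀ (p i))
      (t := LL) (by
        intro p hp
        rw [Finset.mem_coe, Finset.mem_filter] at hp
        rw [Finset.mem_coe, hLL, Finset.mem_filter]
        exact ⟨Finset.mem_univ _, (nd_iff (hinj p hp.1) (hJ p hp.1)).1 hp.2.1⟩)]
    push_cast
    refine Finset.sum_congr rfl fun β hβ => ?_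
    rw [hLL, Finset.mem_filter] at hβ
    congr 2
    ext p
    simp only [Finset.mem_filter]
    constructor
    · rintro ⟨⟨h3, h4, h4'⟩, h5⟩
      exact ⟨h3, h5, h4'⟩
    · rintro ⟨h3, h4, h5⟩
      refine ⟨⟨h3, ?_, h5⟩, h4⟩
      rw [nd_iff (hinj p h3) (hJ p h3), h4]
      exact hβ.2
  have hf1 := hfib fun p => GrQ r M (S₀ ∪ univ.image p)
  have hf2 := hfib fun _ => True
  simp only [and_true] at hf2
  rw [hf1, hf2, Finset.mul_sum, ← Finset.sum_sub_distrib]
  refine (Finset.abs_sum_le_sum_abs _ _).trans ?_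
  refine (Finset.sum_le_sum fun β hβ => h1 β (Finset.mem_filter.1 hβ).2).trans ?_
  rw [Finset.sum_add_distrib, ← Finset.mul_sum, Finset.sum_const, nsmul_eq_mul]
  have h5 : ((LL.card : ℕ) : ℝ) ≤ 3 ^ (2 * S₀.card * Fintype.card ι) := by
    have h6 : LL.card ≤ Fintype.card (ι → (S₀ → ZMod 3) × (S₀ → ZMod 3)) :=
      Finset.card_le_univ _
    rw [Fintype.card_fun, Fintype.card_prod, Fintype.card_fun, ZMod.card, Fintype.card_coe,
      ← pow_add, ← two_mul, ← pow_mul] at h6
    exact_mod_cast h6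
  have h6 := mul_le_mul_of_nonneg_right h5 hR0
  rw [pow_add, mul_assoc]
  linarith

end Pool.Agent.QL543
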