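import Pool.Agent.R419.CF.Key
import Pool.Agent.QL543.Box

/-!
# Project QL (helper543): the sum over the boxes, with weights, for a general property

Adapted from `R419/CF/Key.lean` (helper419) and `Y911/CX/KEY.lean` (helper911).
-/

set_option autoImplicit false

open scoped Classical

namespace Pool.Agent.QL543

open Finset
open Pool.Agent.Y703.CX
open Pool.Agent.Y911.CX
open Pool.Agent.Y699.E (ez)
open Pool.Agent.R419.CF (RRW KPW rrw_iff rrw_facts keyw_bij)

theorem boxq_dec {P : Finset ℕ → Finset ℕ → Prop} {c₀ K₀ : ℝ} (hBX : BoxQ P c₀ K₀) (ι : Type) [Fintype ι]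
    [inst : DecidableEq ι] (J1 : Finset ι)
    (C : ι → Finset ℕ) (X : ι → ℕ) (κ : ℝ) (M S₀ : Finset ℕ) (hM : M ⊆ S₀) (h1 : 0 ≤ κ)
    (h2 : ∀ i, (C i).card ≤ X i) (h3 : HB J1 C X κ) (h4 : ∀ u ∈ S₀, u.Prime ∧ u ≠ 3)
    (h5 : ∀ i, ∀ p ∈ C i, p.Prime ∧ p ∉ S₀ ∧ (i ∈ J1 → p % 3 = 1) ∧ (i ∉ J1 → p % 3 = 2))
    (h6 : ∀ i l, i ≠ l → Disjoint (C i) (C l)) (h7 : J1.Nonempty)
    (h8 : (S₀.filter fun p => p % 3 = 2).card + (univ \ J1).card = 1) :
    |(((Fintype.piFinset C).filter fun p => Nd S₀ (univ.image p) ∧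
        P M (S₀ ∪ univ.image p)).card : ℝ) -
      c₀ * (((Fintype.piFinset C).filter fun p => Nd S₀ (univ.image p)).card : ℝ)| ≤
    K₀ * (3 ^ S₀.card / 3 ^ J1.card) *
      (((Fintype.piFinset C).filter fun p => Nd S₀ (univ.image p)).card : ℝ) +
    3 ^ (2 * S₀.card * Fintype.card ι + (prs J1).card) * (κ * ∏ j, (X j : ℝ)) := by
  have e : inst = fun a b => Classical.propDecidable _ := Subsingleton.elim _ _
  subst e
  exact hBX ι J1 C X κ M S₀ hM h1 h2 h3 h4 h5 h6 h7 h8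

theorem perq_key {P : Finset ℕ → Finset ℕ → Prop} {c₀ K₀ : ℝ} (hK₀ : 0 ≤ K₀)
    (hBX : BoxQ P c₀ K₀) {M : Finset ℕ} {X z H K V : ℕ}
    (hMz : ∀ q ∈ M, q ≤ z) (hH : 1 ≤ H)
    {κ : ℝ} (hκ : 0 ≤ κ) {S₀ : Finset ℕ} {J : Finset (ℕ × ℕ)} (hk : KPW M X z H K V S₀ J)
    (hHB : HB (univ.filter fun e : J => e.1.2 % 3 = 1) (fun i : J => CC z H i)
      (fun i => XX H i.1.1) κ) :
    |(((RRW M X z H K V).filter fun S => ky z H S = (S₀, J) ∧
        (Nd (sm z S) (la z S) ∧ P M S)).card : ℝ) -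
      c₀ * (((RRW M X z H K V).filter fun S => ky z H S = (S₀, J) ∧
        Nd (sm z S) (la z S)).card : ℝ)| ≤
    K₀ * (1 / 3 : ℝ) ^ V * (((RRW M X z H K V).filter fun S => ky z H S = (S₀, J)).card : ℝ) +
      (3 ^ (3 * K ^ 2) * κ) * (X / ((∏ p ∈ S₀, p : ℕ) : ℝ)) := by
  set J1 : Finset J := univ.filter fun e : J => e.1.2 % 3 = 1 with hJ1
  have c1 : ∀ c, (univ.filter fun e : J => e.1.2 % 3 = c).card =
      (J.filter fun e => e.2 % 3 = c).card := by
    intro c
    rw [← Finset.card_map (Function.Embedding.subtype (· ∈ J))]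
    congr 1
    ext x
    simp only [Finset.mem_map, Finset.mem_filter, Finset.mem_univ, true_and,
      Function.Embedding.coe_subtype]
    constructor
    · rintro ⟨u, hu, rfl⟩
      exact ⟨u.2, hu⟩
    · rintro ⟨h, h'⟩
      exact ⟨⟨x, h⟩, h', rfl⟩
  have c2 : univ \ J1 = univ.filter fun e : J => e.1.2 % 3 = 2 := by
    ext e
    rw [Finset.mem_sdiff, hJ1, Finset.mem_filter, Finset.mem_filter]
    have := hk.ne e e.2
    simp only [Finset.mem_univ, true_and]
    omega
  have hfew : S₀.card + V < J1.card := by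
    rw [hJ1, c1]
    exact hk.few
  have hbox := boxq_dec hBX J J1 (fun i => CC z H i) (fun i => XX H i.1.1) κ M S₀ hk.sub hκ
    (fun i => by
      refine (Finset.card_filter_le _ _).trans ?_
      rw [Nat.card_Icc]
      omega)
    hHB hk.pr
    (fun i p hp => by
      obtain ⟨h3, h3', h4, h5⟩ := CC_facts hH hp
      refine ⟨h3, fun h => ?_, fun h => ?_, fun h => ?_⟩
      · have := hk.le p h
        omega
      · exact h5.trans (Finset.mem_filter.1 h).2
      · have h6 : ¬ i.1.2 % 3 = 1 := fun h' => h (Finset.mem_filter.2 ⟨Finset.mem_univ _, h'⟩)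
        have h7 := hk.ne i i.2
        omega)
    (fun i l hil => by
      rw [Finset.disjoint_left]
      intro p hp hp'
      have h5 := ((mem_CC hH).1 hp).2.2
      have h6 := ((mem_CC hH).1 hp').2.2
      exact hil (Subtype.ext (h5.symm.trans h6)))
    (by
      rw [← Finset.card_pos]
      omega)
    (by
      rw [c2, c1]
      exact hk.one)
  have e1 : ((Fintype.piFinset fun i : J => CC z H i).filter fun p => Nd S₀ (univ.image p) ∧
      P M (S₀ ∪ univ.image p)).card = ((RRW M X z H K V).filter fun S => ky z H S = (S₀, J) ∧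
        (Nd (sm z S) (la z S) ∧ P M S)).card := by
    rw [← keyw_bij hMz hH hk (fun S => Nd (sm z S) (la z S) ∧ P M S)]
    congr 1
    refine Finset.filter_congr fun p hp => ?_
    rw [Fintype.mem_piFinset] at hp
    rw [sm_fill hH hk.le hp, la_fill hH hk.le hp]
  have e2 : ((Fintype.piFinset fun i : J => CC z H i).filter fun p =>
      Nd S₀ (univ.image p)).card = ((RRW M X z H K V).filter fun S => ky z H S = (S₀, J) ∧
        Nd (sm z S) (la z S)).card := by
    rw [← keyw_bij hMz hH hk (fun S => Nd (sm z S) (la z S))]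
    congr 1
    refine Finset.filter_congr fun p hp => ?_
    rw [Fintype.mem_piFinset] at hp
    rw [sm_fill hH hk.le hp, la_fill hH hk.le hp]
  rw [e1, e2] at hbox
  refine hbox.trans (add_le_add ?_ ?_)
  · have h3 : ((3 : ℝ) ^ S₀.card / 3 ^ J1.card) ≤ (1 / 3) ^ V := by
      rw [div_le_iff₀ (by positivity)]
      have h4 : (3 : ℝ) ^ (S₀.card + V) ≤ 3 ^ J1.card :=
        pow_le_pow_right₀ (by norm_num) hfew.le
      have h5 : (1 / 3 : ℝ) ^ V * 3 ^ (S₀.card + V) = 3 ^ S₀.card := by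
        rw [pow_add, mul_comm, mul_assoc, ← mul_pow]
        norm_num
      calc (3 : ℝ) ^ S₀.card = (1 / 3 : ℝ) ^ V * 3 ^ (S₀.card + V) := h5.symm
        _ ≤ _ := by gcongr
    have h4 : (((RRW M X z H K V).filter fun S => ky z H S = (S₀, J) ∧
        Nd (sm z S) (la z S)).card : ℝ) ≤
        (((RRW M X z H K V).filter fun S => ky z H S = (S₀, J)).card : ℝ) := by
      have : (RRW M X z H K V).filter (fun S => ky z H S = (S₀, J) ∧ Nd (sm z S) (la z S)) ⊆
          (RRW M X z H K V).filter fun S => ky z H S = (S₀, J) := by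
        intro S hS
        rw [Finset.mem_filter] at hS ⊢
        exact ⟨hS.1, hS.2.1⟩
      exact_mod_cast Finset.card_le_card this
    gcongr
  · have hcJ : Fintype.card J = J.card := Fintype.card_coe J
    have hcard := hk.card
    have hJK : J.card ≤ K := by omega
    have hSK : S₀.card ≤ K := by omega
    have hpr : (prs J1).card ≤ K * K := by
      refine (prs_card J1).trans ?_
      rw [hcJ]
      exact Nat.mul_le_mul hJK hJK
    have hexp : 2 * S₀.card * Fintype.card J + (prs J1).card ≤ 3 * K ^ 2 := by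
      rw [hcJ]
      have h5 : S₀.card * J.card ≤ K * K := Nat.mul_le_mul hSK hJK
      calc 2 * S₀.card * J.card + (prs J1).card ≤ 2 * (K * K) + K * K := by
            rw [mul_assoc]
            omega
        _ = 3 * K ^ 2 := by ring
    have h5 : (3 : ℝ) ^ (2 * S₀.card * Fintype.card J + (prs J1).card) ≤ 3 ^ (3 * K ^ 2) :=
      pow_le_pow_right₀ (by norm_num) hexp
    have hN0 : (0 : ℝ) < ((∏ p ∈ S₀, p : ℕ) : ℝ) := by
      exact_mod_cast Finset.prod_pos fun p hp => (hk.pr p hp).1.pos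
    have hprod : ∏ j : J, (XX H j.1.1 : ℝ) ≤ X / ((∏ p ∈ S₀, p : ℕ) : ℝ) := by
      have h5 : ∏ j : J, (XX H j.1.1 : ℝ) = ((∏ k ∈ J, XX H k.1 : ℕ) : ℝ) := by
        rw [← Finset.prod_coe_sort J (fun k => XX H k.1)]
        push_cast
        rfl
      rw [h5, le_div_iff₀ hN0, mul_comm]
      exact_mod_cast hk.prod
    calc (3 : ℝ) ^ (2 * S₀.card * Fintype.card J + (prs J1).card) *
        (κ * ∏ j : J, (XX H j.1.1 : ℝ)) ≤
        3 ^ (3 * K ^ 2) * (κ * (X / ((∏ p ∈ S₀, p : ℕ) : ℝ))) := by gcongr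
      _ = _ := by ring

/-- **CX-KEY.** -/
theorem t_KEYQ (hL : LamP) (hB1 : S_BIL1) (hB2 : S_BIL2) : ∃ C : ℝ, 1 ≤ C ∧
  ∀ (P : Finset ℕ → Finset ℕ → Prop) (c₀ K₀ : ℝ), 0 ≤ K₀ → BoxQ P c₀ K₀ → ∀ (M : Finset ℕ) (X z H K V N : ℕ) (κ : ℝ), (∀ q ∈ M, q ≤ z) → 1 ≤ H → 1 ≤ z → 0 ≤ κ →
  C ≤ κ ^ 12 * z → (H : ℝ) * Real.log X < N →
  |(((RRW M X z H K V).filter fun S => Nd (sm z S) (la z S) ∧ P M S).card : ℝ) -
      c₀ * (((RRW M X z H K V).filter fun S => Nd (sm z S) (la z S)).card : ℝ)| ≤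
    K₀ * (1 / 3 : ℝ) ^ V * ((RRW M X z H K V).card : ℝ) +
    (9 * N + 9 : ℝ) ^ K * (3 ^ (3 * K ^ 2) * κ) * (X * (1 + Real.log X)) := by
  obtain ⟨C₁, hC₁, h1⟩ := hB1 hL
  obtain ⟨C₂, hC₂, h2⟩ := hB2 hL
  refine ⟨max C₁ C₂, hC₁.trans (le_max_left _ _), ?_⟩
  intro P c₀ K₀ hK₀ hBX M X z H K V N κ hMz hH hz hκ hκz hN
  set T := (RRW M X z H K V).image (ky z H) with hT
  set B : ℝ := 3 ^ (3 * K ^ 2) * κ with hB
  have hB0 : 0 ≤ B := by positivity
  have hfib : ∀ (P : Finset ℕ → Prop) [DecidablePred P], (((RRW M X z H K V).filter fun S => P S).card : ℝ) =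
      ∑ k ∈ T, (((RRW M X z H K V).filter fun S => ky z H S = k ∧ P S).card : ℝ) := by
    intro P _
    rw [Finset.card_eq_sum_card_fiberwise (f := ky z H) (t := T) (by
      intro S hS
      rw [Finset.mem_coe, Finset.mem_filter] at hS
      exact Finset.mem_coe.2 (Finset.mem_image_of_mem _ hS.1))]
    push_cast
    refine Finset.sum_congr rfl fun k _ => ?_
    congr 2
    ext S
    simp only [Finset.mem_filter]
    tauto
  have hKP : ∀ k ∈ T, KPW M X z H K V k.1 k.2 := by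
    intro k hk
    rw [hT, Finset.mem_image] at hk
    obtain ⟨S, hS, rfl⟩ := hk
    obtain ⟨f1, f2, f3⟩ := rrw_facts hS
    exact (rrw_iff hMz hH f1 (inj_ph f2)).1 hS
  have hf1 := hfib fun S => Nd (sm z S) (la z S) ∧ P M S
  have hf2 := hfib fun S => Nd (sm z S) (la z S)
  have hf3 := hfib fun _ => True
  simp only [and_true, Finset.filter_true] at hf3
  rw [hf1, hf2, hf3, Finset.mul_sum, ← Finset.sum_sub_distrib]
  refine (Finset.abs_sum_le_sum_abs _ _).trans ?_
  have h3 : ∀ k ∈ T, |(((RRW M X z H K V).filter fun S => ky z H S = k ∧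
        (Nd (sm z S) (la z S) ∧ P M S)).card : ℝ) -
      c₀ * (((RRW M X z H K V).filter fun S => ky z H S = k ∧
        Nd (sm z S) (la z S)).card : ℝ)| ≤
      K₀ * (1 / 3 : ℝ) ^ V * (((RRW M X z H K V).filter fun S => ky z H S = k).card : ℝ) +
      B * (X / ((∏ p ∈ k.1, p : ℕ) : ℝ)) := by
    intro k hk
    obtain ⟨S₀, J⟩ := k
    have hk' := hKP _ hk
    exact perq_key hK₀ hBX hMz hH hκ hk' (hb_box h1 h2 hH hz hκ ((le_max_left _ _).trans hκz)
      ((le_max_right _ _).trans hκz) hk'.ne)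
  refine (Finset.sum_le_sum h3).trans ?_
  rw [Finset.sum_add_distrib, ← Finset.mul_sum]
  refine add_le_add le_rfl ?_
  have hsub : T ⊆ (TT X) ×ˢ ((range N ×ˢ range 9).powerset.filter fun J => J.card ≤ K) := by
    intro k hk
    have hk' := hKP k hk
    rw [hT, Finset.mem_image] at hk
    obtain ⟨S, hS, rfl⟩ := hk
    obtain ⟨f1, f2, f3⟩ := rrw_facts hS
    rw [Finset.mem_product, Finset.mem_filter, Finset.mem_powerset]
    refine ⟨mem_TT (fun q hq => (hk'.pr q hq).1) ?_, ?_, ?_⟩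
    · refine le_trans ?_ f3
      exact Nat.le_of_dvd (Finset.prod_pos fun p hp => (f1 p hp).pos)
        (Finset.prod_dvd_prod_of_subset _ _ _ (Finset.filter_subset _ _))
    · intro e he
      unfold ky at he
      rw [Finset.mem_image] at he
      obtain ⟨q, hq, rfl⟩ := he
      have hqS := (Finset.mem_filter.1 hq).1
      have hq0 := (f1 q hqS).pos
      have hqX : q ≤ X := by
        refine le_trans ?_ f3
        exact Nat.le_of_dvd (Finset.prod_pos fun p hp => (f1 p hp).pos)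
          (Finset.dvd_prod_of_mem _ hqS)
      unfold ph
      rw [Finset.mem_product, Finset.mem_range, Finset.mem_range]
      refine ⟨?_, Nat.mod_lt _ (by norm_num)⟩
      have h3 : ((jj H q : ℕ) : ℝ) < N := by
        refine lt_of_le_of_lt (Nat.floor_le (mul_nonneg (Nat.cast_nonneg _)
          (Real.log_nonneg (by exact_mod_cast hq0)))) ?_
        refine lt_of_le_of_lt ?_ hN
        refine mul_le_mul_of_nonneg_left ?_ (Nat.cast_nonneg _)
        exact Real.log_le_log (by exact_mod_cast hq0) (by exact_mod_cast hqX)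
      exact_mod_cast h3
    · have := hk'.card
      omega
  refine (Finset.sum_le_sum_of_subset_of_nonneg hsub fun _ _ _ => by positivity).trans ?_
  rw [Finset.sum_product]
  simp only [Finset.sum_const, nsmul_eq_mul]
  rw [← Finset.mul_sum]
  have h4 : ((((range N ×ˢ range 9).powerset.filter fun J => J.card ≤ K).card : ℕ) : ℝ) ≤
      (9 * N + 9 : ℝ) ^ K := by
    have h5 := card_sub (range N ×ˢ range 9) K
    rw [Finset.card_product, Finset.card_range, Finset.card_range] at h5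
    calc ((((range N ×ˢ range 9).powerset.filter fun J => J.card ≤ K).card : ℕ) : ℝ) ≤
          (((N * 9 + 1) ^ K : ℕ) : ℝ) := by exact_mod_cast h5
      _ = (N * 9 + 1 : ℝ) ^ K := by push_cast; ring
      _ ≤ _ := by
        apply pow_le_pow_left₀ (by positivity)
        linarith
  have h5 : ∑ S ∈ TT X, B * (X / ((∏ p ∈ S, p : ℕ) : ℝ)) ≤ B * (X * (1 + Real.log X)) := by
    have h6 : ∀ S ∈ TT X, B * ((X : ℝ) / ((∏ p ∈ S, p : ℕ) : ℝ)) =
        B * X * (1 / ((∏ p ∈ S, p : ℕ) : ℝ)) := by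
      intro S _
      ring
    rw [Finset.sum_congr rfl h6, ← Finset.mul_sum]
    have h7 := mul_le_mul_of_nonneg_left (harm_TT X) (mul_nonneg hB0 (Nat.cast_nonneg X))
    refine h7.trans (le_of_eq ?_)
    ring
  have h6 : 0 ≤ ∑ S ∈ TT X, B * ((X : ℝ) / ((∏ p ∈ S, p : ℕ) : ℝ)) :=
    Finset.sum_nonneg fun _ _ => by positivity
  rw [mul_assoc]
  gcongr

end Pool.Agent.QL543
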