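import Pool.Agent.R419.CF.Asy
import Pool.Agent.QL543.Key

/-!
# Project QL (helper543): the final asymptotics for a general property

Adapted from `R419/CF/Asy.lean` (helper419).
-/

set_option autoImplicit false

open scoped Classical
open Finset Filter

namespace Pool.Agent.QL543.Asy

open Pool.Agent.Y703.CX Pool.Agent.R419.CF Pool.Agent.QL543
open Pool.Agent.R419.CF.NS (MM mem_MM MD cnt cnt1)
open Pool.Agent.R419.CF.Tail (FF mem_FF BB tail)
open Pool.Agent.Y703.CT (Cls NoSplit)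
open Pool.Agent.R419.CF.Asy (out_sub cmp sw_ff prod_inj card_small sum_large ss_le ER er_sma bb_zz
  sum_M last sml_B)

/-- the error for one `M` -/
theorem perM {P : Finset ℕ → Finset ℕ → Prop} {c₀ K₀ : ℝ} (hc0 : 0 ≤ c₀) (hc1 : c₀ ≤ 1)
    (hK₀ : 0 ≤ K₀) {X Y : ℕ} (hYX : Y ≤ X) {M : Finset ℕ} {z H K V : ℕ} (hH : 1 ≤ H) {E : ℝ}
    (hE : |(((RRW M Y z H K V).filter fun S => Nd (sm z S) (la z S) ∧ P M S).card : ℝ) -
      c₀ * (((RRW M Y z H K V).filter fun S => Nd (sm z S) (la z S)).card : ℝ)| ≤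
      K₀ * (1 / 3 : ℝ) ^ V * ((RRW M Y z H K V).card : ℝ) + E) :
    |(((SW M Y).filter (P M)).card : ℝ) - c₀ * ((SW M Y).card : ℝ)| ≤
      K₀ * (1 / 3 : ℝ) ^ V * ((SW M Y).card : ℝ) + ((((((((SG X).filter fun S => K < S.card).card : ℝ) +
        ((X : ℝ) * K / H + 1)) +
        (((SG X).filter fun S => ¬ Set.InjOn (jj H) (la z S : Set ℕ)).card : ℝ)) +
        (((SG X).filter fun S => ((la z S).filter fun p => p % 3 = 1).card ≤
          (sm z S).card + V).card : ℝ)) +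
        (((SG X).filter fun S => S.card ≤ K ∧ ¬ Nd (sm z S) (la z S)).card : ℝ)) + E) := by
  set T := (RRW M Y z H K V).filter fun S => Nd (sm z S) (la z S) with hT
  have hTG : (RRW M Y z H K V).filter (fun S => Nd (sm z S) (la z S) ∧ P M S) =
      T.filter (P M) := by
    rw [hT, filter_filter]
  rw [hTG] at hE
  have hTS : T ⊆ SW M Y := (filter_subset _ _).trans (filter_subset _ _)
  have hRS : ((RRW M Y z H K V).card : ℝ) ≤ ((SW M Y).card : ℝ) := by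
    exact_mod_cast card_le_card (filter_subset _ _)
  have hcmp := cmp (P M) T (SW M Y) hTS c₀ hc0 hc1
  have hcut : (((SG Y).filter fun S => S.card ≤ K ∧
        Y < (∏ p ∈ sm z S, p) * ∏ p ∈ la z S, XX H (jj H p)).card : ℝ) ≤ (X : ℝ) * K / H + 1 := by
    refine (Cnt.cut_count (X := Y) (z := z) (H := H) (K := K) hH).trans ?_
    have : (Y : ℝ) ≤ X := by exact_mod_cast hYX
    gcongr
  have hout : ((SW M Y \ T).card : ℝ) ≤
      ((((SG X).filter fun S => K < S.card).card : ℝ) +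
      (((SG Y).filter fun S => S.card ≤ K ∧
        Y < (∏ p ∈ sm z S, p) * ∏ p ∈ la z S, XX H (jj H p)).card : ℝ) +
      (((SG X).filter fun S => ¬ Set.InjOn (jj H) (la z S : Set ℕ)).card : ℝ) +
      (((SG X).filter fun S => ((la z S).filter fun p => p % 3 = 1).card ≤
        (sm z S).card + V).card : ℝ)) +
      (((SG X).filter fun S => S.card ≤ K ∧ ¬ Nd (sm z S) (la z S)).card : ℝ) := by
    have g := card_le_card (out_sub hYX M z H K V)
    rw [← hT] at g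
    have g2 := (g.trans (card_union_le _ _)).trans (Nat.add_le_add_right ((card_union_le _ _).trans
      (Nat.add_le_add_right ((card_union_le _ _).trans
      (Nat.add_le_add_right (card_union_le _ _) _)) _)) _)
    exact_mod_cast g2
  have g1 : K₀ * (1 / 3 : ℝ) ^ V * ((RRW M Y z H K V).card : ℝ) ≤
      K₀ * (1 / 3 : ℝ) ^ V * ((SW M Y).card : ℝ) := mul_le_mul_of_nonneg_left hRS (by positivity)
  linarith

/-- the condition on the constant of the theorem on the sum over the boxes -/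
def Key (P : Finset ℕ → Finset ℕ → Prop) (c₀ K₀ C : ℝ) : Prop :=
  ∀ (M : Finset ℕ) (X z H K V N : ℕ) (κ : ℝ), (∀ q ∈ M, q ≤ z) → 1 ≤ H → 1 ≤ z → 0 ≤ κ →
  C ≤ κ ^ 12 * z → (H : ℝ) * Real.log X < N →
  |(((RRW M X z H K V).filter fun S => Nd (sm z S) (la z S) ∧ P M S).card : ℝ) -
      c₀ * (((RRW M X z H K V).filter fun S => Nd (sm z S) (la z S)).card : ℝ)| ≤
    K₀ * (1 / 3 : ℝ) ^ V * ((RRW M X z H K V).card : ℝ) +
    (9 * N + 9 : ℝ) ^ K * (3 ^ (3 * K ^ 2) * κ) * (X * (1 + Real.log X))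

theorem small_M {P : Finset ℕ → Finset ℕ → Prop} {c₀ K₀ : ℝ} (hc0 : 0 ≤ c₀) (hc1 : c₀ ≤ 1)
    (hK₀ : 0 ≤ K₀) {C : ℝ} (hC1 : 1 ≤ C) (hkey : Key P c₀ K₀ C) (V : ℕ) {X : ℕ}
    (hl : 242 ≤ eL X) {M : Finset ℕ} (k1 : ∀ p ∈ M, p.Prime) (k3 : ∏ p ∈ M, p ≤ BB X) :
      |(((SW M (X / ∏ p ∈ M, p)).filter (P M)).card : ℝ) -
        c₀ * ((SW M (X / ∏ p ∈ M, p)).card : ℝ)| ≤
      K₀ * (1 / 3 : ℝ) ^ V * ((SW M (X / ∏ p ∈ M, p)).card : ℝ) + ER V C X := by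
  have hl1 : 1 ≤ eL X := by linarith
  have hl0 : 0 < eL X := by linarith
  have hlogX0 : 0 ≤ Real.log (X : ℝ) := Real.log_natCast_nonneg X
  have hN : (HH X : ℝ) * Real.log X < NN X := by
    unfold NN
    push_cast
    exact Nat.lt_floor_add_one _
  have hMz : ∀ q ∈ M, q ≤ zz X := by
    intro q hq
    have := Nat.le_of_dvd (prod_primes_pos k1) (Finset.dvd_prod_of_mem (fun p => p) hq)
    exact (this.trans k3).trans (bb_zz hl)
  generalize hY : X / ∏ p ∈ M, p = Y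
  have hYX : Y ≤ X := by
    rw [← hY]
    exact Nat.div_le_self _ _
  have hYX' : (Y : ℝ) ≤ X := by exact_mod_cast hYX
  have hlYX : Real.log (Y : ℝ) ≤ Real.log X := by
    rcases Nat.eq_zero_or_pos Y with h0 | h0
    · rw [h0, Nat.cast_zero, Real.log_zero]
      exact hlogX0
    · exact Real.log_le_log (by exact_mod_cast h0) hYX'
  have hNY : (HH X : ℝ) * Real.log Y < NN X :=
    lt_of_le_of_lt (mul_le_mul_of_nonneg_left hlYX (Nat.cast_nonneg _)) hN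
  have hmain := hkey M Y (zz X) (HH X) (kk X) V (NN X) (kap C X) hMz (HH_pos hl0) (zz_pos hl1)
    (kap_nonneg hC1 X) (kap_pow hC1 hl1) hNY
  have hlast : (9 * (NN X : ℝ) + 9) ^ kk X * (3 ^ (3 * kk X ^ 2) * kap C X) *
      ((Y : ℝ) * (1 + Real.log Y)) ≤ (9 * (NN X : ℝ) + 9) ^ kk X *
      (3 ^ (3 * kk X ^ 2) * kap C X) * ((X : ℝ) * (1 + Real.log X)) := by
    have k4 := kap_nonneg hC1 X
    have k5 : 0 ≤ Real.log (Y : ℝ) := Real.log_natCast_nonneg Y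
    have k6 : (Y : ℝ) * (1 + Real.log Y) ≤ X * (1 + Real.log X) :=
      mul_le_mul hYX' (by linarith) (by linarith) (Nat.cast_nonneg _)
    exact mul_le_mul_of_nonneg_left k6 (by positivity)
  have hp := perM hc0 hc1 hK₀ hYX (HH_pos hl0) (hmain.trans (add_le_add le_rfl hlast))
  exact hp

theorem large_M {P : Finset ℕ → Finset ℕ → Prop} {c₀ : ℝ} (hc0 : 0 ≤ c₀) (hc1 : c₀ ≤ 1) (X : ℕ) {M : Finset ℕ} (k1 : ∀ p ∈ M, p.Prime) :
      |(((SW M (X / ∏ p ∈ M, p)).filter (P M)).card : ℝ) -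
        c₀ * ((SW M (X / ∏ p ∈ M, p)).card : ℝ)| ≤
      ((FF (X / (∏ p ∈ M, p) ^ 2)).card : ℝ) := by
  have k4 : ((SW M (X / ∏ p ∈ M, p)).card : ℝ) ≤ ((FF (X / (∏ p ∈ M, p) ^ 2)).card : ℝ) := by
    exact_mod_cast sw_ff k1 X
  refine le_trans ?_ k4
  have k2 : (((SW M (X / ∏ p ∈ M, p)).filter (P M)).card : ℝ) ≤
      ((SW M (X / ∏ p ∈ M, p)).card : ℝ) := by
    exact_mod_cast card_filter_le _ _
  have k3 : (0 : ℝ) ≤ ((SW M (X / ∏ p ∈ M, p)).card : ℝ) := Nat.cast_nonneg _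
  exact abs_sub_le_of (Nat.cast_nonneg _) k2 (mul_nonneg hc0 k3)
    (mul_le_of_le_one_left k3 hc1)

/-- the law for a property of the sets -/
theorem t_ASY (hL : LamP) (h1 : S_BIL1) (h2 : S_BIL2) (hS : S_SIE) (hH : S_HAL) (hM : S_MER)
    (hCh : S_CHE) (hLo : S_LOW) {P : Finset ℕ → Finset ℕ → Prop} {c₀ K₀ : ℝ} (hc0 : 0 ≤ c₀)
    (hc1 : c₀ ≤ 1) (hK₀ : 0 ≤ K₀) (hBX : BoxQ P c₀ K₀) : Tendsto
  (fun X : ℕ => ((∑ M ∈ MM X, ((SW M (X / ∏ p ∈ M, p)).filter (P M)).card : ℕ) : ℝ) /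
    ((∑ M ∈ MM X, (SW M (X / ∏ p ∈ M, p)).card : ℕ) : ℝ)) atTop (nhds c₀) := by
  obtain ⟨C, hC1, hkey⟩ := t_KEYQ hL h1 h2
  have hkey' : Key P c₀ K₀ C := hkey P c₀ K₀ hK₀ hBX
  obtain ⟨c, X₀, hc, hlow⟩ := hLo hM hCh
  rw [Metric.tendsto_nhds]
  intro ε hε
  obtain ⟨V, hV⟩ := exists_pow_lt_of_lt_one (show (0 : ℝ) < ε / (4 * (K₀ + 1)) by positivity)
    (show (1 / 3 : ℝ) < 1 by norm_num)
  have hV' : K₀ / 2 * (1 / 3 : ℝ) ^ V < ε / 4 := by
    have h5 : (0 : ℝ) < (1 / 3 : ℝ) ^ V := by positivity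
    rw [lt_div_iff₀ (by positivity)] at hV
    nlinarith
  obtain ⟨CE, hCE, hEE⟩ := er_sma hL hS hH V hC1
  have s := sml_add (sml_B hCE) (tail hS)
  have hδ : (0 : ℝ) < c * ε / 4 := by positivity
  filter_upwards [s (c * ε / 4) hδ, hEE, ev_eL 242, eventually_ge_atTop X₀] with X hX hEX hl hX0
  have hl0 : 0 < eL X := by linarith
  have hlo := hlow X hX0
  rw [rpow_eL hl0] at hlo
  have hXp := X_pos hl0
  have hXp' : (0 : ℝ) < X := by exact_mod_cast hXp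
  have e0 : (-(1 / 2) * eL X : ℝ) = -(eL X) / 2 := by ring
  rw [e0] at hlo
  have hSS : ((SS X).card : ℝ) ≤ ((∑ M ∈ MM X, (SW M (X / ∏ p ∈ M, p)).card : ℕ) : ℝ) := by
    exact_mod_cast ss_le hXp
  have hpos : (0 : ℝ) < c * X * Real.exp (-(eL X) / 2) := by positivity
  have htot := sum_M X (BB X) (fun M => ((SW M (X / ∏ p ∈ M, p)).filter (P M)).card)
    (fun M => (SW M (X / ∏ p ∈ M, p)).card) (fun M => ((FF (X / (∏ p ∈ M, p) ^ 2)).card : ℝ))
    c₀ (K₀ * (1 / 3 : ℝ) ^ V) (CE * (X * Real.exp (-(3 / 5) * eL X)))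
    (∑ b ∈ Ioc (BB X) X, ((FF (X / b ^ 2)).card : ℝ)) (by positivity) (by positivity)
    (fun M hM k => (small_M hc0 hc1 hK₀ hC1 hkey' V hl (mem_MM.1 hM).1 k).trans
      (add_le_add le_rfl hEX))
    (fun M hM => large_M hc0 hc1 X (mem_MM.1 hM).1) (sum_large X (BB X))
  rw [Real.dist_eq]
  refine last (c := c) (Q := X * Real.exp (-(eL X) / 2)) (v := K₀ / 2 * (1 / 3 : ℝ) ^ V) hε hV' ?_
    (hpos.trans_le (hlo.trans hSS)) ?_ hX
  · rw [← mul_assoc]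
    exact hlo.trans hSS
  · refine htot.trans (le_of_eq ?_)
    ring

end Pool.Agent.QL543.Asy
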