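import Pool.Agent.QL543.Mom

/-!
# Project QL (helper543): the ranks of the cubic twists over `ℚ`
-/

set_option autoImplicit false

open scoped Classical
open Finset Filter

namespace Pool.Agent.QL543

open Pool.Agent.Y703.CX Pool.Agent.R419.CF
open Pool.Agent.Y703.CT (Cls)

/-! ### the tails, uniformly -/

/-- the number of the `D` with an exponent larger than `r` -/
theorem tail_sd : ∃ C : ℝ, 0 ≤ C ∧ ∀ᶠ X : ℕ in atTop, ∀ r : ℕ,
    (((Icc 1 X).filter fun D => Cls D ∧ r < sd D).card : ℝ) ≤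
      ((1 - ∑ i ∈ range (r + 1), pr i) + C * Real.exp (-(1 / 30) * eL X)) *
        (((Icc 1 X).filter Cls).card : ℝ) := by
  obtain ⟨C, hC, h⟩ := law_rate
  refine ⟨456 * C + 3, by linarith, ?_⟩
  filter_upwards [h, ev_eL 1] with X hX hl r
  obtain ⟨N, hN⟩ : ∃ N : ℝ, N = (((Icc 1 X).filter Cls).card : ℝ) := ⟨_, rfl⟩
  have hN0 : 0 ≤ N := by rw [hN]; exact Nat.cast_nonneg _
  rw [← hN] at hX ⊢
  -- the exact count
  have key : ∀ m : ℕ, (((Icc 1 X).filter fun D => Cls D ∧ m < sd D).card : ℝ) ≤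
      (1 - ∑ i ∈ range (m + 1), pr i) * N +
        (m + 1) * (C * Real.exp (-(1 / 25) * eL X) * N) := by
    intro m
    have h1 := sum_dec (fun _ => (1 : ℝ)) X m
    simp only [one_mul, sum_const, nsmul_eq_mul, mul_one] at h1
    rw [← hN] at h1
    have h2 : ((Icc 1 X).filter Cls).filter (fun D => ¬ sd D ≤ m) =
        (Icc 1 X).filter fun D => Cls D ∧ m < sd D := by
      rw [filter_filter]
      refine filter_congr fun D _ => ?_
      rw [not_le]
    rw [h2] at h1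
    have h3 : ∑ s ∈ range (m + 1), (pr s * N - C * Real.exp (-(1 / 25) * eL X) * N) ≤
        ∑ s ∈ range (m + 1), (((Icc 1 X).filter fun D => Cls D ∧ SR s D).card : ℝ) := by
      refine sum_le_sum fun s _ => ?_
      have := (abs_le.1 (hX s)).1
      linarith
    rw [sum_sub_distrib, ← sum_mul, sum_const, nsmul_eq_mul, card_range] at h3
    push_cast at h3
    linarith
  -- the truncation
  obtain ⟨m, hm⟩ : ∃ m : ℕ, m = ⌈eL X⌉₊ := ⟨_, rfl⟩
  have hm1 : eL X ≤ m := by rw [hm]; exact Nat.le_ceil _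
  have hm2 : (m : ℝ) ≤ 2 * eL X := by
    have := (Nat.ceil_lt_add_one (a := eL X) (by linarith)).le
    rw [hm]
    linarith
  have hexp : (2 * eL X + 1) * Real.exp (-(1 / 25) * eL X) ≤
      456 * Real.exp (-(1 / 30) * eL X) := by
    have e1 : 2 * eL X + 1 ≤ 456 * Real.exp (1 / 150 * eL X) := by
      have := Real.add_one_le_exp (1 / 150 * eL X)
      linarith
    calc (2 * eL X + 1) * Real.exp (-(1 / 25) * eL X) ≤
        456 * Real.exp (1 / 150 * eL X) * Real.exp (-(1 / 25) * eL X) :=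
          mul_le_mul_of_nonneg_right e1 (Real.exp_pos _).le
      _ = _ := by
          rw [mul_assoc, ← Real.exp_add]
          congr 2
          ring
  obtain ⟨t, ht⟩ : ∃ t : ℝ, t = Real.exp (-(1 / 30) * eL X) := ⟨_, rfl⟩
  have ht0 : 0 < t := by rw [ht]; exact Real.exp_pos _
  rw [← ht] at hexp ⊢
  obtain ⟨g, hg⟩ : ∃ g : ℕ → ℝ, ∀ j, g j = 1 - ∑ i ∈ range (j + 1), pr i := ⟨_, fun j => rfl⟩
  have hg0 : ∀ j, 0 ≤ g j := by
    intro j
    rw [hg]
    have := sum_le_hasSum (range (j + 1)) (fun i _ => pr_nonneg i) pr_sum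
    linarith
  simp only [← hg] at key ⊢
  have hsmall : ∀ j : ℕ, j ≤ m →
      (((Icc 1 X).filter fun D => Cls D ∧ j < sd D).card : ℝ) ≤ g j * N + 456 * C * t * N := by
    intro j hj
    refine (key j).trans ?_
    have e1 : (j : ℝ) + 1 ≤ 2 * eL X + 1 := by
      have : (j : ℝ) ≤ m := by exact_mod_cast hj
      linarith
    have e2 : ((j : ℝ) + 1) * (C * Real.exp (-(1 / 25) * eL X) * N) ≤ 456 * C * t * N := by
      calc ((j : ℝ) + 1) * (C * Real.exp (-(1 / 25) * eL X) * N) ≤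
          (2 * eL X + 1) * (C * Real.exp (-(1 / 25) * eL X) * N) :=
            mul_le_mul_of_nonneg_right e1 (by positivity)
        _ = C * N * ((2 * eL X + 1) * Real.exp (-(1 / 25) * eL X)) := by ring
        _ ≤ C * N * (456 * t) := mul_le_mul_of_nonneg_left hexp (by positivity)
        _ = _ := by ring
    linarith
  rcases le_or_gt r m with hr | hr
  · have h1 := hsmall r hr
    have h2 : 0 ≤ t * N := by positivity
    calc (((Icc 1 X).filter fun D => Cls D ∧ r < sd D).card : ℝ) ≤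
        g r * N + 456 * C * t * N := h1
      _ ≤ g r * N + 456 * C * t * N + 3 * (t * N) := by linarith
      _ = _ := by ring
  · have h1 := hsmall m le_rfl
    have h2 : (((Icc 1 X).filter fun D => Cls D ∧ r < sd D).card : ℝ) ≤
        (((Icc 1 X).filter fun D => Cls D ∧ m < sd D).card : ℝ) := by
      have : ((Icc 1 X).filter fun D => Cls D ∧ r < sd D).card ≤
          ((Icc 1 X).filter fun D => Cls D ∧ m < sd D).card := by
        refine card_le_card fun D hD => ?_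
        rw [mem_filter] at hD ⊢
        exact ⟨hD.1, hD.2.1, by omega⟩
      exact_mod_cast this
    have h3 : g m ≤ 3 * t := by
      rw [hg]
      refine (pr_tail (m + 1)).trans ?_
      apply mul_le_mul_of_nonneg_left _ (by norm_num)
      have e1 : (1 / 3 : ℝ) ^ ((m + 1) ^ 2) ≤ (1 / 3 : ℝ) ^ m := by
        refine pow_le_pow_of_le_one (by norm_num) (by norm_num) ?_
        nlinarith
      have e2 : (1 / 3 : ℝ) ≤ Real.exp (-1) := by
        rw [Real.exp_neg, one_div]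
        have h3 : Real.exp 1 ≤ 3 := by
          have := Real.exp_one_lt_d9
          linarith
        exact inv_anti₀ (Real.exp_pos _) h3
      have e3 : (1 / 3 : ℝ) ^ m ≤ Real.exp (-(m : ℝ)) := by
        calc (1 / 3 : ℝ) ^ m ≤ (Real.exp (-1)) ^ m := by gcongr
          _ = Real.exp (-(m : ℝ)) := by
              rw [← Real.exp_nat_mul]
              congr 1
              ring
      have e4 : Real.exp (-(m : ℝ)) ≤ t := by
        rw [ht]
        apply Real.exp_le_exp.2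
        linarith
      exact e1.trans (e3.trans e4)
    have h4 := hg0 r
    have h5 : 0 ≤ g r * N := mul_nonneg h4 hN0
    have h6 : g m * N ≤ 3 * t * N := mul_le_mul_of_nonneg_right h3 hN0
    calc (((Icc 1 X).filter fun D => Cls D ∧ r < sd D).card : ℝ) ≤
        g m * N + 456 * C * t * N := h2.trans h1
      _ ≤ g r * N + 3 * t * N + 456 * C * t * N := by linarith
      _ = _ := by ring

/-- the ranks: the tails -/
theorem tail_rk {rk : ℕ → ℕ} (hrk : ∀ D : ℕ, Cls D → rk D ≤ 2 * sd D) :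
    ∃ C : ℝ, 0 ≤ C ∧ ∀ᶠ X : ℕ in atTop, ∀ r : ℕ,
    (((Icc 1 X).filter fun D : ℕ => Cls D ∧ 2 * r < rk D).card : ℝ) ≤
      ((1 - ∑ i ∈ range (r + 1), pr i) + C * Real.exp (-(1 / 30) * eL X)) *
        (((Icc 1 X).filter Cls).card : ℝ) := by
  obtain ⟨C, hC, h⟩ := tail_sd
  refine ⟨C, hC, ?_⟩
  filter_upwards [h] with X hX r
  refine le_trans ?_ (hX r)
  have h1 : ((Icc 1 X).filter fun D : ℕ => Cls D ∧ 2 * r < rk D).card ≤
      ((Icc 1 X).filter fun D => Cls D ∧ r < sd D).card := by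
    refine card_le_card fun D hD => ?_
    rw [mem_filter] at hD ⊢
    have h2 := hrk D hD.2.1
    exact ⟨hD.1, hD.2.1, by omega⟩
  exact_mod_cast h1

/-- almost all ranks are at most `2 √(log log X)` -/
theorem tail_sqrt {rk : ℕ → ℕ} (hrk : ∀ D : ℕ, Cls D → rk D ≤ 2 * sd D) :
    ∃ C : ℝ, 0 ≤ C ∧ ∀ᶠ X : ℕ in atTop,
    (((Icc 1 X).filter fun D : ℕ => Cls D ∧ 2 * Real.sqrt (eL X) < rk D).card : ℝ) ≤
      C * Real.exp (-(1 / 30) * eL X) * (((Icc 1 X).filter Cls).card : ℝ) := by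
  obtain ⟨C, hC, h⟩ := tail_rk hrk
  refine ⟨C + 3, by linarith, ?_⟩
  filter_upwards [h, ev_eL 1] with X hX hl
  have hl0 : 0 < eL X := by linarith
  obtain ⟨r, hr⟩ : ∃ r : ℕ, r = ⌊Real.sqrt (eL X)⌋₊ := ⟨_, rfl⟩
  have hr1 : (r : ℝ) ≤ Real.sqrt (eL X) := by
    rw [hr]
    exact Nat.floor_le (Real.sqrt_nonneg _)
  have hr2 : Real.sqrt (eL X) < r + 1 := by
    rw [hr]
    exact Nat.lt_floor_add_one _
  have hr3 : eL X ≤ ((r : ℝ) + 1) ^ 2 := by
    have h1 := Real.sq_sqrt hl0.le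
    have h2 := Real.sqrt_nonneg (eL X)
    nlinarith
  have h1 := hX r
  have h2 : (((Icc 1 X).filter fun D : ℕ => Cls D ∧ 2 * Real.sqrt (eL X) < rk D).card : ℝ) ≤
      (((Icc 1 X).filter fun D : ℕ => Cls D ∧ 2 * r < rk D).card : ℝ) := by
    have : ((Icc 1 X).filter fun D : ℕ => Cls D ∧ 2 * Real.sqrt (eL X) < rk D).card ≤
        ((Icc 1 X).filter fun D : ℕ => Cls D ∧ 2 * r < rk D).card := by
      refine card_le_card fun D hD => ?_
      rw [mem_filter] at hD ⊢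
      refine ⟨hD.1, hD.2.1, ?_⟩
      have h3 : ((2 * r : ℕ) : ℝ) < (rk D : ℝ) := by
        push_cast
        linarith [hD.2.2]
      exact_mod_cast h3
    exact_mod_cast this
  refine h2.trans (h1.trans ?_)
  apply mul_le_mul_of_nonneg_right _ (Nat.cast_nonneg _)
  have h3 := pr_tail (r + 1)
  have h4 : (1 / 3 : ℝ) ^ ((r + 1) ^ 2) ≤ Real.exp (-(1 / 30) * eL X) := by
    have e2 : (1 / 3 : ℝ) ≤ Real.exp (-1) := by
      rw [Real.exp_neg, one_div]
      have h3 : Real.exp 1 ≤ 3 := by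
        have := Real.exp_one_lt_d9
        linarith
      exact inv_anti₀ (Real.exp_pos _) h3
    calc (1 / 3 : ℝ) ^ ((r + 1) ^ 2) ≤ (Real.exp (-1)) ^ ((r + 1) ^ 2) := by gcongr
      _ = Real.exp (-((r : ℝ) + 1) ^ 2) := by
          rw [← Real.exp_nat_mul]
          congr 1
          push_cast
          ring
      _ ≤ _ := by
          apply Real.exp_le_exp.2
          linarith
  linarith

/-- **the moments of the ranks** -/
theorem mom_sum (k : ℕ) : Summable fun s : ℕ => (2 * (s : ℝ)) ^ k * pr s := by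
  have hA : ∀ s : ℕ, (2 * (s : ℝ)) ^ k ≤ 2 ^ k * ((s : ℝ) + 1) ^ k := by
    intro s
    rw [← mul_pow]
    exact pow_le_pow_left₀ (by positivity) (by linarith) k
  exact pr_summable (f := fun s : ℕ => (2 * (s : ℝ)) ^ k) (fun s => by positivity)
    (A := 2 ^ k) (by positivity) hA

theorem mom_rk {rk : ℕ → ℕ} (hrk : ∀ D : ℕ, Cls D → rk D ≤ 2 * sd D) (k : ℕ) :
    ∀ ε : ℝ, 0 < ε → ∀ᶠ X : ℕ in atTop,
      ∑ D ∈ (Icc 1 X).filter Cls, (rk D : ℝ) ^ k ≤
        (∑' s : ℕ, (2 * (s : ℝ)) ^ k * pr s + ε) * (((Icc 1 X).filter Cls).card : ℝ) := by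
  have hA : ∀ s : ℕ, (2 * (s : ℝ)) ^ k ≤ 2 ^ k * ((s : ℝ) + 1) ^ k := by
    intro s
    rw [← mul_pow]
    exact pow_le_pow_left₀ (by positivity) (by linarith) k
  intro ε hε
  have h := moments (f := fun s : ℕ => (2 * (s : ℝ)) ^ k) (fun s => by positivity)
    (A := 2 ^ k) (by positivity) hA
  have h1 := h.eventually (gt_mem_nhds (show ∑' s : ℕ, (2 * (s : ℝ)) ^ k * pr s <
    ∑' s : ℕ, (2 * (s : ℝ)) ^ k * pr s + ε by linarith))
  obtain ⟨c, hc, X₀, hlow⟩ := Pool.Agent.R419.CF.low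
  filter_upwards [h1, eventually_ge_atTop X₀, ev_eL 1] with X hX hX0 hl
  have hl0 : 0 < eL X := by linarith
  have hXp' : (0 : ℝ) < X := by exact_mod_cast X_pos hl0
  have hN0 : (0 : ℝ) < (((Icc 1 X).filter Cls).card : ℝ) := by
    refine lt_of_lt_of_le ?_ (hlow X hX0)
    have : 0 < Real.sqrt (Real.log X) := by
      rw [logX_eq hl0]
      exact Real.sqrt_pos.2 (Real.exp_pos _)
    positivity
  rw [div_lt_iff₀ hN0] at hX
  refine le_trans (sum_le_sum fun D hD => ?_) hX.le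
  have h2 := hrk D (mem_filter.1 hD).2
  have h3 : (rk D : ℝ) ≤ 2 * (sd D : ℝ) := by
    exact_mod_cast h2
  exact pow_le_pow_left₀ (by positivity) h3 k

/-! ### the first two moments -/

lemma c3_up : c3 < 0.5602 := by
  refine lt_of_le_of_lt (c3_le_pm 9) ?_
  unfold Pool.Agent.Y759.CX.pm
  simp only [Finset.prod_range_succ, Finset.prod_range_zero]
  norm_num

lemma pr_one : pr 1 = 3 / 4 * c3 := by
  unfold pr Pool.Agent.Y759.CX.pm
  simp only [Finset.prod_range_succ, Finset.prod_range_zero]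
  ring

lemma pr_two : pr 2 = 9 / 256 * c3 := by
  unfold pr Pool.Agent.Y759.CX.pm
  simp only [Finset.prod_range_succ, Finset.prod_range_zero]
  ring

theorem mom_tail {k : ℕ} (hk0 : k ≠ 0) (hk : (2 : ℝ) ^ k < 729) :
    ∑' s : ℕ, (2 * (s : ℝ)) ^ k * pr s ≤ (2 : ℝ) ^ k * pr 1 + 4 ^ k * pr 2 +
      6 ^ k * 1.8 * (1 / 3) ^ 9 * (1 - 2 ^ k / 729)⁻¹ := by
  have hs := mom_sum k
  have h1 := hs.sum_add_tsum_nat_add 3
  rw [← h1]
  have h2 : ∑ i ∈ range 3, (2 * (i : ℝ)) ^ k * pr i = (2 : ℝ) ^ k * pr 1 + 4 ^ k * pr 2 := by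
    simp only [Finset.sum_range_succ, Finset.sum_range_zero]
    push_cast
    rw [mul_zero, zero_pow hk0, zero_mul, mul_one]
    norm_num
  rw [h2]
  have hq0 : (0 : ℝ) ≤ 2 ^ k / 729 := by positivity
  have hq1 : (2 : ℝ) ^ k / 729 < 1 := by
    rw [div_lt_one (by norm_num)]
    exact hk
  have hg : Summable fun s : ℕ => (6 : ℝ) ^ k * 1.8 * (1 / 3) ^ 9 * (2 ^ k / 729) ^ s :=
    (summable_geometric_of_lt_one hq0 hq1).mul_left _
  have h3 : ∑' s : ℕ, (2 * ((s + 3 : ℕ) : ℝ)) ^ k * pr (s + 3) ≤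
      ∑' s : ℕ, (6 : ℝ) ^ k * 1.8 * (1 / 3) ^ 9 * (2 ^ k / 729) ^ s := by
    refine Summable.tsum_le_tsum (fun s => ?_) ((summable_nat_add_iff 3).2 hs) hg
    have e1 : (2 * ((s + 3 : ℕ) : ℝ)) ^ k ≤ 6 ^ k * (2 ^ k) ^ s := by
      have e0 : ((s + 3 : ℕ) : ℝ) ≤ 3 * 2 ^ s := by
        have : s + 3 ≤ 3 * 2 ^ s := by
          have : s + 1 ≤ 2 ^ s := Nat.lt_two_pow_self
          omega
        exact_mod_cast this
      have e3 : (2 * ((s + 3 : ℕ) : ℝ)) ^ k ≤ (6 * 2 ^ s) ^ k :=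
        pow_le_pow_left₀ (by positivity) (by linarith) k
      have e5 : ((6 : ℝ) * 2 ^ s) ^ k = 6 ^ k * (2 ^ k) ^ s := by
        rw [mul_pow, ← pow_mul, ← pow_mul, mul_comm s k]
      rw [e5] at e3
      exact e3
    have e2 : pr (s + 3) ≤ 1.8 * ((1 / 3) ^ 9 * (1 / 729) ^ s) := by
      refine (pr_bound (s + 3)).trans ?_
      apply mul_le_mul_of_nonneg_left _ (by norm_num)
      have e3 : (1 / 729 : ℝ) = (1 / 3) ^ 6 := by norm_num
      rw [e3, ← pow_mul, ← pow_add]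
      refine pow_le_pow_of_le_one (by norm_num) (by norm_num) ?_
      nlinarith
    calc (2 * ((s + 3 : ℕ) : ℝ)) ^ k * pr (s + 3) ≤
        (6 ^ k * (2 ^ k) ^ s) * (1.8 * ((1 / 3) ^ 9 * (1 / 729) ^ s)) :=
          mul_le_mul e1 e2 (pr_nonneg _) (by positivity)
      _ = (6 : ℝ) ^ k * 1.8 * (1 / 3) ^ 9 * (2 ^ k / 729) ^ s := by
          rw [show ((2 : ℝ) ^ k / 729) = 2 ^ k * (1 / 729) by ring, mul_pow (2 ^ k : ℝ)]
          ring
  rw [tsum_mul_left, tsum_geometric_of_lt_one hq0 hq1] at h3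
  linarith

theorem mom_one : ∑' s : ℕ, (2 * (s : ℝ)) ^ 1 * pr s < 0.92 := by
  have h1 := mom_tail (k := 1) (by norm_num) (by norm_num)
  rw [pr_one, pr_two] at h1
  have h2 := c3_up
  norm_num at h1 ⊢
  linarith

theorem mom_two : ∑' s : ℕ, (2 * (s : ℝ)) ^ 2 * pr s < 2 := by
  have h1 := mom_tail (k := 2) (by norm_num) (by norm_num)
  rw [pr_one, pr_two] at h1
  have h2 := c3_up
  norm_num at h1 ⊢
  linarith

end Pool.Agent.QL543
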