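import Pool.Agent.Y759.CX.LA
import Pool.Agent.Y461.CX.C3

/-!
# Project QL (helper543): linear algebra over the field with three elements, all ranks

The proportion of the square matrices with a kernel of dimension `r` and the block system of project
CX. Adapted from `Y759/CX/LA.lean` (helper759).
-/

set_option autoImplicit false
set_option linter.unusedSectionVars false

open scoped Classical

namespace Pool.Agent.QL543

open Function Module
open Pool.Agent.Y703.CX
open Pool.Agent.Y759.CX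

section lin

variable {X K Q W Y V : Type} [AddCommGroup X] [Module F X] [Finite X]
  [AddCommGroup K] [Module F K] [Finite K] [AddCommGroup Q] [Module F Q] [Finite Q]
  [AddCommGroup W] [Module F W] [Finite W] [AddCommGroup Y] [Module F Y] [Finite Y]
  [AddCommGroup V] [Module F V] [Finite V]

/-- the number of the injective maps -/
theorem card_inj {k m : ℕ} (hK : finrank F K = k) (hQ : finrank F Q = m) (hkm : k ≤ m) :
    Nat.card {g : K →ₗ[F] Q // Injective g} = ∏ i ∈ Finset.range k, (3 ^ m - 3 ^ i) := by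
  have := Fintype.ofFinite Q
  have := Fintype.ofFinite K
  let b : Basis (Fin k) F K := Module.finBasisOfFinrankEq F K hK
  have e : {s : Fin k → Q // LinearIndependent F s} ≃ {g : K →ₗ[F] Q // Injective g} := by
    refine (b.constr F).toEquiv.subtypeEquiv fun s => ?_
    show LinearIndependent F s ↔ Injective (b.constr F s)
    have hb : ∀ i, b.constr F s (b i) = s i := fun i => b.constr_basis F s i
    constructor
    · intro hi
      refine (injective_iff_map_eq_zero (b.constr F s)).2 ?_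
      intro x hx
      have h4 : ∑ i, b.repr x i • s i = 0 := by
        have h5 := congrArg (b.constr F s) (b.sum_repr x)
        rw [map_sum, hx] at h5
        rw [← h5]
        exact Finset.sum_congr rfl fun i _ => by rw [map_smul, hb]
      have h5 := Fintype.linearIndependent_iff.1 hi _ h4
      rw [← b.sum_repr x]
      exact Finset.sum_eq_zero fun i _ => by rw [h5 i, zero_smul]
    · intro hi
      have h2 := b.linearIndependent.map' (b.constr F s) (LinearMap.ker_eq_bot.2 hi)
      have h3 : (b.constr F s) ∘ b = s := funext hb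
      rwa [h3] at h2
  rw [← Nat.card_congr e, card_linearIndependent (K := F) (V := Q) (by rw [hQ]; exact hkm), hQ,
    ZMod.card, Fin.prod_univ_eq_prod_range (fun i => 3 ^ m - 3 ^ i) k]

theorem finrank_range_inj {r : ℕ} (i : (Fin r → F) →ₗ[F] K) (hi : Injective i) :
    finrank F (LinearMap.range i) = r := by
  rw [LinearMap.finrank_range_of_inj hi, finrank_fintype_fun_eq_card, Fintype.card_fin]

/-- pairs of a map and a parametrisation of its kernel -/
def TP (K Q : Type) [AddCommGroup K] [Module F K] [AddCommGroup Q] [Module F Q] (r : ℕ) : Type :=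
  {p : (K →ₗ[F] Q) × ((Fin r → F) →ₗ[F] K) // Injective p.2 ∧
    LinearMap.range p.2 = LinearMap.ker p.1}

noncomputable def tp1 (r : ℕ) : TP K Q r ≃
    Σ g : {g : K →ₗ[F] Q // finrank F (LinearMap.ker g) = r},
      {i : (Fin r → F) →ₗ[F] LinearMap.ker g.1 // Injective i} where
  toFun p := ⟨⟨p.1.1, by rw [← p.2.2, finrank_range_inj _ p.2.1]⟩,
    ⟨p.1.2.codRestrict _ (fun x => by rw [← p.2.2]; exact LinearMap.mem_range_self _ x),
      fun x y hxy => p.2.1 (congrArg Subtype.val hxy)⟩⟩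
  invFun q := ⟨(q.1.1, (LinearMap.ker q.1.1).subtype ∘ₗ q.2.1),
    fun x y hxy => q.2.2 (Subtype.ext hxy), by
      refine Submodule.eq_of_le_of_finrank_eq ?_ ?_
      · rintro _ ⟨x, rfl⟩
        exact (q.2.1 x).2
      · rw [q.1.2]
        exact finrank_range_inj _ fun x y hxy => q.2.2 (Subtype.ext hxy)⟩
  left_inv p := Subtype.ext (Prod.ext rfl (LinearMap.ext fun x => rfl))
  right_inv q := Sigma.ext rfl (heq_of_eq (Subtype.ext (LinearMap.ext fun x => Subtype.ext rfl)))

noncomputable def tp2 (r : ℕ) : TP K Q r ≃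
    Σ i : {i : (Fin r → F) →ₗ[F] K // Injective i},
      {h : (K ⧸ LinearMap.range i.1) →ₗ[F] Q // Injective h} where
  toFun p := ⟨⟨p.1.2, p.2.1⟩, ⟨(LinearMap.range p.1.2).liftQ p.1.1 p.2.2.le, by
    rw [← LinearMap.ker_eq_bot, Submodule.ker_liftQ_eq_bot']
    exact p.2.2⟩⟩
  invFun q := ⟨(q.2.1 ∘ₗ (LinearMap.range q.1.1).mkQ, q.1.1), q.1.2, by
    show LinearMap.range q.1.1 = LinearMap.ker (q.2.1 ∘ₗ (LinearMap.range q.1.1).mkQ)
    rw [LinearMap.ker_comp, LinearMap.ker_eq_bot.2 q.2.2, Submodule.comap_bot, Submodule.ker_mkQ]⟩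
  left_inv p := Subtype.ext (Prod.ext (LinearMap.ext fun x => rfl) rfl)
  right_inv q := Sigma.ext rfl (heq_of_eq (Subtype.ext
    (LinearMap.ext fun x => Submodule.Quotient.induction_on _ x fun y => rfl)))

/-- **the number of the maps with a kernel of dimension `r`** -/
theorem card_ker {m r : ℕ} (hK : finrank F K = m) (hQ : finrank F Q = m) (hr : r ≤ m) :
    Nat.card {g : K →ₗ[F] Q // finrank F (LinearMap.ker g) = r} *
      ∏ i ∈ Finset.range r, (3 ^ r - 3 ^ i) =
    (∏ i ∈ Finset.range r, (3 ^ m - 3 ^ i)) * ∏ i ∈ Finset.range (m - r), (3 ^ m - 3 ^ i) := by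
  have hF : finrank F (Fin r → F) = r := by
    rw [finrank_fintype_fun_eq_card, Fintype.card_fin]
  have h1 : Nat.card (TP K Q r) = Nat.card {g : K →ₗ[F] Q // finrank F (LinearMap.ker g) = r} *
      ∏ i ∈ Finset.range r, (3 ^ r - 3 ^ i) := by
    have := Fintype.ofFinite {g : K →ₗ[F] Q // finrank F (LinearMap.ker g) = r}
    rw [Nat.card_congr (tp1 r), Nat.card_sigma]
    rw [Finset.sum_congr rfl fun g _ => card_inj (K := Fin r → F) (Q := LinearMap.ker g.1) hF g.2
      le_rfl, Finset.sum_const, smul_eq_mul, Finset.card_univ, Nat.card_eq_fintype_card]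
  have h2 : Nat.card (TP K Q r) = (∏ i ∈ Finset.range r, (3 ^ m - 3 ^ i)) *
      ∏ i ∈ Finset.range (m - r), (3 ^ m - 3 ^ i) := by
    have := Fintype.ofFinite {i : (Fin r → F) →ₗ[F] K // Injective i}
    haveI : ∀ i : {i : (Fin r → F) →ₗ[F] K // Injective i}, Finite (K ⧸ LinearMap.range i.1) :=
      fun i => Finite.of_surjective _ (LinearMap.range i.1).mkQ_surjective
    rw [Nat.card_congr (tp2 r), Nat.card_sigma]
    have h3 : ∀ i : {i : (Fin r → F) →ₗ[F] K // Injective i},
        Nat.card {h : (K ⧸ LinearMap.range i.1) →ₗ[F] Q // Injective h} =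
        ∏ i ∈ Finset.range (m - r), (3 ^ m - 3 ^ i) := by
      intro i
      refine card_inj ?_ hQ (Nat.sub_le _ _)
      have h4 := Submodule.finrank_quotient_add_finrank (LinearMap.range i.1)
      have h5 := finrank_range_inj i.1 i.2
      omega
    rw [Finset.sum_congr rfl fun i _ => h3 i, Finset.sum_const, smul_eq_mul, Finset.card_univ,
      ← Nat.card_eq_fintype_card, card_inj hF hK hr]
  rw [← h1, h2]

lemma pm_succ (m : ℕ) : pm (m + 1) = pm m * (1 - (1 / 3 : ℝ) ^ (m + 1)) := by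
  unfold pm
  rw [Finset.prod_range_succ]

lemma pm_pos (m : ℕ) : 0 < pm m := by
  refine Finset.prod_pos fun i _ => ?_
  have : (1 / 3 : ℝ) ^ (i + 1) ≤ 1 / 3 := by
    rw [pow_succ]
    have : (1 / 3 : ℝ) ^ i ≤ 1 := pow_le_one₀ (by norm_num) (by norm_num)
    linarith
  linarith

lemma cast_prod (m : ℕ) : ∀ k : ℕ, k ≤ m →
    ((∏ i ∈ Finset.range k, (3 ^ m - 3 ^ i) : ℕ) : ℝ) * pm (m - k) = 3 ^ (m * k) * pm m := by
  intro k
  induction k with
  | zero => intro _; simp
  | succ k ih =>
    intro hk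
    have h1 := ih (by omega)
    have h2 : m - k = (m - (k + 1)) + 1 := by omega
    rw [h2, pm_succ] at h1
    rw [Finset.prod_range_succ]
    have h3 : ((3 ^ m - 3 ^ k : ℕ) : ℝ) = 3 ^ m * (1 - (1 / 3 : ℝ) ^ (m - (k + 1) + 1)) := by
      rw [Nat.cast_sub (Nat.pow_le_pow_right (by norm_num) (by omega))]
      push_cast
      rw [mul_sub, mul_one, one_div_pow]
      congr 1
      have h4 : (3 : ℝ) ^ m = 3 ^ k * 3 ^ (m - (k + 1) + 1) := by
        rw [← pow_add]
        congr 1
        omega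
      rw [h4]
      have h5 : (3 : ℝ) ^ (m - (k + 1) + 1) ≠ 0 := by positivity
      field_simp
    rw [Nat.cast_mul, h3, Nat.mul_succ, pow_add]
    linear_combination (3 : ℝ) ^ m * h1

/-- the proportion of the square matrices of size `m` with a kernel of dimension `r` -/
noncomputable def pk (m r : ℕ) : ℝ :=
  if r ≤ m then (1 / 3 : ℝ) ^ (r ^ 2) * (pm m) ^ 2 / (pm (m - r) * (pm r) ^ 2) else 0

theorem fr_ker {m : ℕ} (r : ℕ) (hK : finrank F K = m) (hQ : finrank F Q = m) :
    fr (fun g : K →ₗ[F] Q => finrank F (LinearMap.ker g) = r) = pk m r := by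
  unfold pk
  by_cases hr : r ≤ m
  · rw [if_pos hr]
    have h1 := card_ker (K := K) (Q := Q) hK hQ hr
    have h2 := cast_prod m r hr
    have h3 := cast_prod m (m - r) (Nat.sub_le _ _)
    have h4 := cast_prod r r le_rfl
    rw [Nat.sub_sub_self hr] at h3
    rw [Nat.sub_self] at h4
    have hpm0 : pm 0 = 1 := by unfold pm; simp
    rw [hpm0, mul_one] at h4
    have h5 : (Nat.card (K →ₗ[F] Q) : ℝ) = 3 ^ (m * m) := by
      have h6 : Nat.card (K →ₗ[F] Q) = 3 ^ (m * m) := by
        rw [card_mod, Module.finrank_linearMap, hK, hQ]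
      rw [h6]
      push_cast
      rfl
    unfold fr
    rw [h5]
    obtain ⟨n, hn⟩ : ∃ n : ℝ, n = (Nat.card {g : K →ₗ[F] Q // finrank F (LinearMap.ker g) = r} : ℝ) :=
      ⟨_, rfl⟩
    obtain ⟨a, ha⟩ : ∃ a : ℝ, a = ((∏ i ∈ Finset.range r, (3 ^ m - 3 ^ i) : ℕ) : ℝ) := ⟨_, rfl⟩
    obtain ⟨b, hb⟩ : ∃ b : ℝ, b = ((∏ i ∈ Finset.range (m - r), (3 ^ m - 3 ^ i) : ℕ) : ℝ) :=
      ⟨_, rfl⟩
    obtain ⟨c, hc⟩ : ∃ c : ℝ, c = ((∏ i ∈ Finset.range r, (3 ^ r - 3 ^ i) : ℕ) : ℝ) := ⟨_, rfl⟩
    have h1' : n * c = a * b := by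
      rw [hn, hc, ha, hb]
      exact_mod_cast h1
    rw [← ha] at h2
    rw [← hb] at h3
    rw [← hc] at h4
    rw [← hn]
    have p1 := pm_pos (m - r)
    have p2 := pm_pos r
    have p3 := pm_pos m
    have e1 : (1 / 3 : ℝ) ^ (r ^ 2) = 1 / 3 ^ (r * r) := by
      rw [one_div_pow, pow_two]
    have e2 : (3 : ℝ) ^ (m * m) = 3 ^ (m * r) * 3 ^ (m * (m - r)) := by
      rw [← pow_add, ← Nat.mul_add]
      congr 2
      omega
    rw [e1, e2, div_eq_div_iff (by positivity) (by positivity)]
    have q1 : (3 : ℝ) ^ (r * r) ≠ 0 := by positivity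
    field_simp
    have h6 : n * (3 ^ (r * r) * pm r) = a * b := by rw [← h4]; exact h1'
    calc n * pm (m - r) * pm r ^ 2 * 3 ^ (r * r)
        = (n * (3 ^ (r * r) * pm r)) * (pm (m - r) * pm r) := by ring
      _ = (a * pm (m - r)) * (b * pm r) := by rw [h6]; ring
      _ = _ := by rw [h2, h3]; ring
  · rw [if_neg hr]
    unfold fr
    have : IsEmpty {g : K →ₗ[F] Q // finrank F (LinearMap.ker g) = r} := ⟨fun g => by
      have h1 := Submodule.finrank_le (LinearMap.ker g.1)
      rw [g.2, hK] at h1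
      exact hr h1⟩
    rw [Nat.card_of_isEmpty, Nat.cast_zero, zero_div]

end lin

end Pool.Agent.QL543
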