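import Pool.Agent.QL543.LA2

/-!
# Project QL (helper543): the limits form a probability distribution
-/

set_option autoImplicit false
set_option linter.unusedSectionVars false

open scoped Classical

namespace Pool.Agent.QL543

open Function Module Filter
open Pool.Agent.Y703.CX
open Pool.Agent.Y759.CX

/-- the proportions for the matrices of size `m` sum to one -/
theorem pk_sum (m : ℕ) : ∑ r ∈ Finset.range (m + 1), pk m r = 1 := by
  have h1 : ∀ r, pk m r = (Nat.card {g : (Fin m → F) →ₗ[F] (Fin m → F) //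
      finrank F (LinearMap.ker g) = r} : ℝ) / Nat.card ((Fin m → F) →ₗ[F] (Fin m → F)) := by
    intro r
    rw [← fr_ker (K := Fin m → F) (Q := Fin m → F) r (by simp) (by simp)]
    rfl
  have := Fintype.ofFinite ((Fin m → F) →ₗ[F] (Fin m → F))
  have hne : (Nat.card ((Fin m → F) →ₗ[F] (Fin m → F)) : ℝ) ≠ 0 := by
    exact_mod_cast Nat.card_pos.ne'
  simp only [h1]
  rw [← Finset.sum_div, div_eq_one_iff_eq hne, ← Nat.cast_sum]
  congr 1
  have h2 : ∀ r, Nat.card {g : (Fin m → F) →ₗ[F] (Fin m → F) // finrank F (LinearMap.ker g) = r} =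
      (Finset.univ.filter fun g : (Fin m → F) →ₗ[F] (Fin m → F) =>
        finrank F (LinearMap.ker g) = r).card := by
    intro r
    rw [Nat.card_eq_fintype_card, Fintype.card_subtype]
  simp only [h2]
  rw [Nat.card_eq_fintype_card, ← Finset.card_univ]
  symm
  refine Finset.card_eq_sum_card_fiberwise fun g _ => ?_
  rw [Finset.mem_coe, Finset.mem_range]
  have h3 := Submodule.finrank_le (LinearMap.ker g)
  have h4 : finrank F (Fin m → F) = m := by simp
  omega

lemma pm_low (n : ℕ) : 0.56 < pm n := lt_of_lt_of_le c3_gt (c3_le_pm n)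

theorem pk_bound (m r : ℕ) : pk m r ≤ 6 * (1 / 3 : ℝ) ^ (r ^ 2) := by
  unfold pk
  split_ifs with h
  · have h1 := pm_low (m - r)
    have h2 := pm_low r
    have h3 := pm_le_one m
    have h4 := pm_pos m
    have hq : (0 : ℝ) < (1 / 3 : ℝ) ^ (r ^ 2) := by positivity
    have h5 : (pm m) ^ 2 ≤ 1 := by nlinarith
    have h6 : (0.3136 : ℝ) ≤ pm r ^ 2 := by nlinarith
    have h7 : (1 / 6 : ℝ) ≤ pm (m - r) * pm r ^ 2 := by nlinarith
    rw [div_le_iff₀ (by linarith)]
    nlinarith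
  · positivity

lemma sq_ge (r : ℕ) : r ≤ r ^ 2 := Nat.le_self_pow two_ne_zero r

theorem pr_sum : HasSum pr 1 := by
  have hb : ∀ r : ℕ, (1 / 3 : ℝ) ^ (r ^ 2) ≤ (1 / 3 : ℝ) ^ r := fun r =>
    pow_le_pow_of_le_one (by norm_num) (by norm_num) (sq_ge r)
  have hs0 : Summable fun r : ℕ => 6 * (1 / 3 : ℝ) ^ r :=
    (summable_geometric_of_lt_one (by norm_num) (by norm_num)).mul_left _
  have h1 : Tendsto (fun m : ℕ => ∑' r, pk m r) atTop (nhds (∑' r, pr r)) := by
    refine tendsto_tsum_of_dominated_convergence hs0 (fun r => ?_) ?_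
    · rw [tendsto_iff_dist_tendsto_zero]
      have h2 : Tendsto (fun m : ℕ => 20 * (1 / 3 : ℝ) ^ m) atTop (nhds 0) := by
        have := (tendsto_pow_atTop_nhds_zero_of_lt_one (r := (1 / 3 : ℝ)) (by norm_num)
          (by norm_num)).const_mul 20
        rwa [mul_zero] at this
      refine squeeze_zero (fun m => dist_nonneg) (fun m => ?_) h2
      rw [Real.dist_eq]
      exact pk_lim m r
    · refine Eventually.of_forall fun m r => ?_
      rw [Real.norm_eq_abs, abs_of_nonneg (pk_nonneg m r)]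
      refine (pk_bound m r).trans ?_
      have := hb r
      linarith
  have h2 : ∀ m : ℕ, ∑' r, pk m r = 1 := by
    intro m
    rw [← pk_sum m]
    refine tsum_eq_sum fun r hr => ?_
    unfold pk
    rw [Finset.mem_range] at hr
    rw [if_neg (by omega)]
  have h3 : ∑' r, pr r = 1 := by
    refine tendsto_nhds_unique h1 ?_
    simp only [h2]
    exact tendsto_const_nhds
  have h4 : Summable pr := by
    refine Summable.of_nonneg_of_le pr_nonneg (fun r => ?_) hs0
    unfold pr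
    have h1 := pm_low r
    have h2 := c3_lt
    have h3 := c3_gt
    have h5 := hb r
    have hq : (0 : ℝ) < (1 / 3 : ℝ) ^ (r ^ 2) := by positivity
    have h6 : (0.3136 : ℝ) ≤ pm r ^ 2 := by nlinarith
    rw [div_le_iff₀ (by positivity)]
    have h7 : (1 / 3 : ℝ) ^ (r ^ 2) * c3 ≤ (1 / 3 : ℝ) ^ (r ^ 2) := by nlinarith
    have h8 : (0 : ℝ) < (1 / 3 : ℝ) ^ r := by positivity
    nlinarith
  rw [← h3]
  exact h4.hasSum

theorem pr_bound (r : ℕ) : pr r ≤ 1.8 * (1 / 3 : ℝ) ^ (r ^ 2) := by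
  unfold pr
  have h1 := c3_le_pm r
  have h3 := c3_gt
  have hq : (0 : ℝ) < (1 / 3 : ℝ) ^ (r ^ 2) := by positivity
  have h6 : c3 ≤ 1.8 * pm r ^ 2 := by nlinarith
  have h7 := pm_pos r
  rw [div_le_iff₀ (by positivity)]
  nlinarith

/-- **the tails of the distribution** -/
theorem pr_tail (r : ℕ) : 1 - ∑ i ∈ Finset.range r, pr i ≤ 3 * (1 / 3 : ℝ) ^ (r ^ 2) := by
  have h1 := pr_sum.summable.sum_add_tsum_nat_add r
  rw [pr_sum.tsum_eq] at h1
  have hg : Summable fun i : ℕ => 1.8 * (1 / 3 : ℝ) ^ (r ^ 2) * (1 / 3 : ℝ) ^ i :=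
    (summable_geometric_of_lt_one (by norm_num) (by norm_num)).mul_left _
  have h2 : ∑' i, pr (i + r) ≤ ∑' i : ℕ, 1.8 * (1 / 3 : ℝ) ^ (r ^ 2) * (1 / 3 : ℝ) ^ i := by
    refine Summable.tsum_le_tsum (fun i => ?_) ((summable_nat_add_iff r).2 pr_sum.summable) hg
    refine (pr_bound (i + r)).trans ?_
    have h3 : (1 / 3 : ℝ) ^ ((i + r) ^ 2) ≤ (1 / 3 : ℝ) ^ (r ^ 2) * (1 / 3 : ℝ) ^ i := by
      rw [← pow_add]
      refine pow_le_pow_of_le_one (by norm_num) (by norm_num) ?_
      have := sq_ge i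
      nlinarith [Nat.zero_le (i * r)]
    nlinarith
  rw [tsum_mul_left, tsum_geometric_of_lt_one (by norm_num) (by norm_num)] at h2
  have h4 : (0 : ℝ) < (1 / 3 : ℝ) ^ (r ^ 2) := by positivity
  norm_num at h2
  nlinarith

end Pool.Agent.QL543
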