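import Pool.Agent.QL543.Rate
import Pool.Agent.QL543.NS
import Pool.Agent.QL543.Sum

/-!
# Project QL (helper543): the moments
-/

set_option autoImplicit false

open scoped Classical
open Finset Filter

namespace Pool.Agent.QL543

open Pool.Agent.Y703.CX Pool.Agent.R419.CF
open Pool.Agent.R419.CF.NS (MM MD cnt1)
open Pool.Agent.Y703.CT (Cls)

/-! ### the exponent -/

/-- the number `s` with `3 ^ (s + 1)` splittings -/
noncomputable def sd (D : ℕ) : ℕ := Nat.log 3 (Spl D).ncard - 1

lemma sd_eq {D s : ℕ} (hs : (Spl D).ncard = 3 ^ (s + 1)) : sd D = s := by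
  unfold sd
  rw [hs, Nat.log_pow (by norm_num)]
  omega

lemma sd_spec {D : ℕ} (hC : Cls D) : (Spl D).ncard = 3 ^ (sd D + 1) := by
  obtain ⟨r, hr⟩ := spl_pow Pool.Agent.Y333.CX.t_LAM hC
  rw [sd_eq hr]
  exact hr

lemma sr_iff {D : ℕ} (hC : Cls D) (r : ℕ) : SR r D ↔ sd D = r := by
  unfold SR
  constructor
  · exact fun h => sd_eq h
  · rintro rfl
    exact sd_spec hC

lemma sd_le {D : ℕ} (hC : Cls D) : sd D + 1 ≤ D.primeFactors.card := by
  have h1 := spl_card Pool.Agent.Y333.CX.t_LAM hC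
  have h2 : nW (MD D) D.primeFactors ≤ 3 ^ D.primeFactors.card := by
    unfold nW
    refine (Finite.card_subtype_le _).trans (le_of_eq ?_)
    rw [Nat.card_fun, Nat.card_zmod, Nat.card_eq_fintype_card, Fintype.card_coe]
  rw [← h1, sd_spec hC] at h2
  exact (Nat.pow_le_pow_iff_right (by norm_num)).1 h2

/-! ### the law with rate -/

theorem law_rate : ∃ C : ℝ, 0 ≤ C ∧ ∀ᶠ X : ℕ in atTop, ∀ r : ℕ,
    |(((Icc 1 X).filter fun D => Cls D ∧ SR r D).card : ℝ) -
      pr r * (((Icc 1 X).filter Cls).card : ℝ)| ≤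
      C * Real.exp (-(1 / 25) * eL X) * (((Icc 1 X).filter Cls).card : ℝ) := by
  obtain ⟨C, hC, h⟩ := Rate.t_RATE Pool.Agent.Y333.CX.t_LAM Pool.Agent.Y261.CX.t_BIL1
    Pool.Agent.Y779.CX.t_BIL2 Pool.Agent.Y488.CX.t_SIE Pool.Agent.Y495.CX.t_HAL
    Pool.Agent.Y87.CX.t_MER Pool.Agent.Y461.CX.t_CHE Pool.Agent.Y461.CX.t_LOW
    (show (0 : ℝ) ≤ 21 by norm_num)
  refine ⟨C, hC, ?_⟩
  filter_upwards [h] with X hX r
  have h1 := hX (GrQ r) (pr r) (pr_nonneg r) (pr_le_one r) (t_BOXQ Pool.Agent.Y419.CX.t_EQ t_LAr r)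
  rw [cntr Pool.Agent.Y333.CX.t_LAM r X, cnt1 X]
  exact h1

/-! ### numbers with many prime factors -/

lemma two_pow_le {n : ℕ} (hn : n ≠ 0) : 2 ^ n.primeFactors.card ≤ n.divisors.card := by
  rw [← card_powerset]
  refine card_le_card_of_injOn (fun T => ∏ p ∈ T, p) ?_ ?_
  · intro T hT
    rw [mem_coe, mem_powerset] at hT
    rw [mem_coe, Nat.mem_divisors]
    refine ⟨?_, hn⟩
    exact (prod_dvd_prod_of_subset _ _ _ hT).trans (Nat.prod_primeFactors_dvd n)
  · intro S hS T hT h
    rw [mem_coe, mem_powerset] at hS hT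
    have h1 := Nat.primeFactors_prod (s := S) fun p hp => Nat.prime_of_mem_primeFactors (hS hp)
    have h2 := Nat.primeFactors_prod (s := T) fun p hp => Nat.prime_of_mem_primeFactors (hT hp)
    rw [← h1, ← h2]
    exact congrArg Nat.primeFactors h

theorem sum_two_pow' (X : ℕ) :
    ∑ n ∈ Icc 1 X, (2 : ℝ) ^ n.primeFactors.card ≤ X * (1 + Real.log X) := by
  have h1 : ∀ n ∈ Icc 1 X, (2 : ℝ) ^ n.primeFactors.card ≤
      ∑ d ∈ Icc 1 X, (if d ∣ n then 1 else 0 : ℝ) := by
    intro n hn
    rw [mem_Icc] at hn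
    have h2 : (n.divisors.card : ℝ) = ∑ d ∈ Icc 1 X, (if d ∣ n then 1 else 0 : ℝ) := by
      rw [← sum_filter, sum_const, nsmul_eq_mul, mul_one]
      congr 1
      congr 1
      ext d
      rw [Nat.mem_divisors, mem_filter, mem_Icc]
      constructor
      · rintro ⟨h3, h4⟩
        exact ⟨⟨Nat.pos_of_dvd_of_pos h3 (by omega), (Nat.le_of_dvd (by omega) h3).trans hn.2⟩, h3⟩
      · rintro ⟨-, h3⟩
        exact ⟨h3, by omega⟩
    rw [← h2]
    exact_mod_cast two_pow_le (by omega)
  refine (sum_le_sum h1).trans ?_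
  rw [sum_comm]
  have h2 : ∀ d ∈ Icc 1 X, ∑ n ∈ Icc 1 X, (if d ∣ n then 1 else 0 : ℝ) ≤ X * (1 / (d : ℝ)) := by
    intro d hd
    rw [← sum_filter, sum_const, nsmul_eq_mul, mul_one]
    have h3 : ((Icc 1 X).filter fun n => d ∣ n).card = X / d := by
      have := Nat.Ioc_filter_dvd_card_eq_div X d
      exact this
    rw [h3]
    refine Nat.cast_div_le.trans (le_of_eq ?_)
    ring
  refine (sum_le_sum h2).trans ?_
  rw [← mul_sum]
  apply mul_le_mul_of_nonneg_left _ (Nat.cast_nonneg _)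
  have h3 := harmonic_le_one_add_log X
  rw [harmonic_eq_sum_Icc] at h3
  push_cast at h3
  simp only [one_div]
  exact h3

/-! ### the moments -/

lemma poly_exp (k : ℕ) (n : ℕ) : (n : ℝ) ^ k ≤ (k.factorial * 3 ^ k : ℝ) * Real.exp (n / 3) := by
  have h1 := Real.pow_div_factorial_le_exp ((n : ℝ) / 3) (by positivity) k
  rw [div_pow, div_div, div_le_iff₀ (by positivity)] at h1
  linarith

/-- the numbers with a large exponent -/
theorem rest {f : ℕ → ℝ} {A : ℝ} {k : ℕ} (hA0 : 0 ≤ A) (hA : ∀ s, f s ≤ A * ((s : ℝ) + 1) ^ k)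
    (X K : ℕ) : ∑ D ∈ ((Icc 1 X).filter Cls).filter (fun D => ¬ sd D ≤ K), f (sd D) ≤
      A * (k.factorial * 3 ^ k) * Real.exp (-(K : ℝ) / 3) * (X * (1 + Real.log X)) := by
  have h1 : ∀ D ∈ ((Icc 1 X).filter Cls).filter (fun D => ¬ sd D ≤ K), f (sd D) ≤
      A * (k.factorial * 3 ^ k) * Real.exp (-(K : ℝ) / 3) * (2 : ℝ) ^ D.primeFactors.card := by
    intro D hD
    rw [mem_filter, mem_filter] at hD
    obtain ⟨⟨-, hC⟩, h2⟩ := hD
    have h3 := sd_le hC
    obtain ⟨n, hn⟩ : ∃ n, n = D.primeFactors.card := ⟨_, rfl⟩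
    rw [← hn] at h3 ⊢
    have h4 : K < n := by omega
    have h5 : ((sd D : ℝ) + 1) ^ k ≤ (n : ℝ) ^ k := by
      have : (sd D : ℝ) + 1 ≤ n := by exact_mod_cast h3
      exact pow_le_pow_left₀ (by positivity) this k
    have h6 : Real.exp ((n : ℝ) / 3) ≤ Real.exp (-(K : ℝ) / 3) * 2 ^ n := by
      have h7 : Real.exp (2 / 3) ≤ 2 := by
        have h8 : Real.exp (2 / 3) ^ 3 ≤ 2 ^ 3 := by
          rw [← Real.exp_nat_mul]
          have e : ((3 : ℕ) : ℝ) * (2 / 3) = 1 + 1 := by norm_num
          rw [e, Real.exp_add]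
          have := Real.exp_one_lt_d9
          have := Real.exp_pos (1 : ℝ)
          nlinarith
        exact le_of_pow_le_pow_left₀ (by norm_num) (by norm_num) h8
      have h8 : Real.exp (2 / 3 * n) ≤ 2 ^ n := by
        rw [mul_comm, Real.exp_nat_mul]
        exact pow_le_pow_left₀ (Real.exp_pos _).le h7 n
      have h9 : Real.exp ((n : ℝ) / 3) ≤ Real.exp (-(K : ℝ) / 3) * Real.exp (2 / 3 * n) := by
        rw [← Real.exp_add]
        apply Real.exp_le_exp.2
        have : (K : ℝ) ≤ n := by exact_mod_cast h4.le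
        linarith
      exact h9.trans (mul_le_mul_of_nonneg_left h8 (Real.exp_pos _).le)
    calc f (sd D) ≤ A * ((sd D : ℝ) + 1) ^ k := hA _
      _ ≤ A * (n : ℝ) ^ k := mul_le_mul_of_nonneg_left h5 hA0
      _ ≤ A * ((k.factorial * 3 ^ k : ℝ) * Real.exp (n / 3)) :=
          mul_le_mul_of_nonneg_left (poly_exp k n) hA0
      _ ≤ A * ((k.factorial * 3 ^ k : ℝ) * (Real.exp (-(K : ℝ) / 3) * 2 ^ n)) := by gcongr
      _ = _ := by ring
  refine (sum_le_sum h1).trans ?_
  rw [← mul_sum]
  apply mul_le_mul_of_nonneg_left _ (by positivity)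
  refine (sum_le_sum_of_subset_of_nonneg ((filter_subset _ _).trans (filter_subset _ _))
    fun _ _ _ => by positivity).trans (sum_two_pow' X)

lemma pr_summable {f : ℕ → ℝ} (hf : ∀ s, 0 ≤ f s) {A : ℝ} {k : ℕ} (hA0 : 0 ≤ A)
    (hA : ∀ s, f s ≤ A * ((s : ℝ) + 1) ^ k) : Summable fun s => f s * pr s := by
  have h1 : Summable fun s : ℕ => ((s : ℝ) + 1) ^ k * (1 / 3 : ℝ) ^ (s + 1) := by
    have h2 := summable_pow_mul_geometric_of_norm_lt_one (R := ℝ) k (r := (1 / 3 : ℝ))
      (by rw [Real.norm_eq_abs, abs_of_pos (by norm_num)]; norm_num)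
    have h3 := (summable_nat_add_iff 1).2 h2
    simpa using h3
  refine Summable.of_nonneg_of_le (fun s => mul_nonneg (hf s) (pr_nonneg s)) (fun s => ?_)
    (h1.mul_left (5.4 * A))
  have h2 := pr_bound s
  have h3 : (1 / 3 : ℝ) ^ (s ^ 2) ≤ (1 / 3 : ℝ) ^ s :=
    pow_le_pow_of_le_one (by norm_num) (by norm_num) (sq_ge s)
  have h4 : pr s ≤ 5.4 * (1 / 3 : ℝ) ^ (s + 1) := by
    rw [pow_succ]
    linarith
  calc f s * pr s ≤ (A * ((s : ℝ) + 1) ^ k) * (5.4 * (1 / 3 : ℝ) ^ (s + 1)) :=
        mul_le_mul (hA s) h4 (pr_nonneg s) (by positivity)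
    _ = _ := by ring

/-- the decomposition of the sum -/
theorem sum_dec (f : ℕ → ℝ) (X K : ℕ) : ∑ D ∈ (Icc 1 X).filter Cls, f (sd D) =
    ∑ s ∈ range (K + 1), f s * (((Icc 1 X).filter fun D => Cls D ∧ SR s D).card : ℝ) +
      ∑ D ∈ ((Icc 1 X).filter Cls).filter (fun D => ¬ sd D ≤ K), f (sd D) := by
  rw [← sum_filter_add_sum_filter_not ((Icc 1 X).filter Cls) (fun D => sd D ≤ K)]
  congr 1
  have hmaps : ∀ D ∈ ((Icc 1 X).filter Cls).filter (fun D => sd D ≤ K), sd D ∈ range (K + 1) := by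
    intro D hD
    rw [mem_filter] at hD
    rw [mem_range]
    omega
  rw [← sum_fiberwise_of_maps_to hmaps]
  refine sum_congr rfl fun s hs => ?_
  have h1 : (((Icc 1 X).filter Cls).filter (fun D => sd D ≤ K)).filter (fun D => sd D = s) =
      (Icc 1 X).filter fun D => Cls D ∧ SR s D := by
    ext D
    rw [mem_filter, mem_filter, mem_filter, mem_filter]
    rw [mem_range] at hs
    constructor
    · rintro ⟨⟨⟨h2, h3⟩, -⟩, h5⟩
      exact ⟨h2, h3, (sr_iff h3 s).2 h5⟩
    · rintro ⟨h2, h3, h4⟩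
      have h5 := (sr_iff h3 s).1 h4
      exact ⟨⟨⟨h2, h3⟩, by omega⟩, h5⟩
  rw [h1, mul_comm, ← nsmul_eq_mul, ← sum_const]
  refine sum_congr rfl fun D hD => ?_
  rw [mem_filter] at hD
  rw [(sr_iff hD.2.1 s).1 hD.2.2]

/-- **the moments of the exponent** -/
theorem moments {f : ℕ → ℝ} (hf : ∀ s, 0 ≤ f s) {A : ℝ} {k : ℕ} (hA0 : 0 ≤ A)
    (hA : ∀ s, f s ≤ A * ((s : ℝ) + 1) ^ k) : Tendsto (fun X : ℕ =>
      (∑ D ∈ (Icc 1 X).filter Cls, f (sd D)) / (((Icc 1 X).filter Cls).card : ℝ)) atTop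
      (nhds (∑' s, f s * pr s)) := by
  obtain ⟨C, hC, hrate⟩ := law_rate
  obtain ⟨c, hc, X₀, hlow⟩ := Pool.Agent.R419.CF.low
  have hsum := pr_summable hf hA0 hA
  have hK : Tendsto (fun X : ℕ => kk X + 1) atTop atTop := by
    rw [← tendsto_natCast_atTop_iff (R := ℝ)]
    refine tendsto_atTop_mono (fun X => ?_) (eL_tendsto.const_mul_atTop (show (0 : ℝ) < 10 by norm_num))
    have := kk_ge X
    push_cast
    linarith
  have hmain : Tendsto (fun X : ℕ => ∑ s ∈ range (kk X + 1), f s * pr s) atTop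
      (nhds (∑' s, f s * pr s)) := hsum.hasSum.tendsto_sum_nat.comp hK
  -- the error
  have hpoly : Tendsto (fun X : ℕ => (A * C) * (300 ^ (k + 1) * ((1 / 25 * eL X) ^ (k + 1) *
      Real.exp (-(1 / 25 * eL X))))) atTop (nhds 0) := by
    have h1 := (Real.tendsto_pow_mul_exp_neg_atTop_nhds_zero (k + 1)).comp
      (eL_tendsto.const_mul_atTop (show (0 : ℝ) < 1 / 25 by norm_num))
    have h2 := (h1.const_mul (300 ^ (k + 1))).const_mul (A * C)
    simpa using h2
  have hrest : Tendsto (fun X : ℕ => (A * (k.factorial * 3 ^ k) * 2 / c) *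
      Real.exp (-(eL X))) atTop (nhds 0) := by
    have h1 : Tendsto (fun X : ℕ => Real.exp (-(eL X))) atTop (nhds 0) :=
      Real.tendsto_exp_neg_atTop_nhds_zero.comp eL_tendsto
    have h2 := h1.const_mul (A * (k.factorial * 3 ^ k) * 2 / c)
    simpa using h2
  have herr : Tendsto (fun X : ℕ => (∑ D ∈ (Icc 1 X).filter Cls, f (sd D)) /
      (((Icc 1 X).filter Cls).card : ℝ) - ∑ s ∈ range (kk X + 1), f s * pr s) atTop (nhds 0) := by
    refine squeeze_zero_norm' (a := fun X : ℕ => (A * C) * (300 ^ (k + 1) *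
      ((1 / 25 * eL X) ^ (k + 1) * Real.exp (-(1 / 25 * eL X)))) +
      (A * (k.factorial * 3 ^ k) * 2 / c) * Real.exp (-(eL X))) ?_ ?_
    · filter_upwards [hrate, eventually_ge_atTop X₀, ev_eL 1] with X hX hX0 hl
      have hl0 : 0 < eL X := by linarith
      have hlo := hlow X hX0
      have hXp' : (0 : ℝ) < X := by exact_mod_cast X_pos hl0
      obtain ⟨N, hN⟩ : ∃ N : ℝ, N = (((Icc 1 X).filter Cls).card : ℝ) := ⟨_, rfl⟩
      have hlo' : c * (X * Real.exp (-(eL X) / 2)) ≤ N := by
        rw [hN]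
        have e : Real.sqrt (Real.log X) = Real.exp (eL X / 2) := by
          rw [logX_eq hl0, Real.sqrt_eq_iff_mul_self_eq (Real.exp_pos _).le (Real.exp_pos _).le,
            ← Real.exp_add]
          congr 1
          ring
        rw [e] at hlo
        refine le_trans (le_of_eq ?_) hlo
        rw [neg_div, Real.exp_neg]
        field_simp
      have hN0 : 0 < N := lt_of_lt_of_le (by positivity) hlo'
      rw [Real.norm_eq_abs, sum_dec f X (kk X), ← hN, add_div]
      rw [← hN] at hX
      -- the first part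
      have g1 : |(∑ s ∈ range (kk X + 1), f s *
          (((Icc 1 X).filter fun D => Cls D ∧ SR s D).card : ℝ)) / N -
          ∑ s ∈ range (kk X + 1), f s * pr s| ≤ (A * C) * (300 ^ (k + 1) *
          ((1 / 25 * eL X) ^ (k + 1) * Real.exp (-(1 / 25 * eL X)))) := by
        have e1 : (∑ s ∈ range (kk X + 1), f s *
          (((Icc 1 X).filter fun D => Cls D ∧ SR s D).card : ℝ)) / N -
          ∑ s ∈ range (kk X + 1), f s * pr s = ∑ s ∈ range (kk X + 1), f s *
          (((((Icc 1 X).filter fun D => Cls D ∧ SR s D).card : ℝ) - pr s * N) / N) := by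
          rw [sum_div, ← sum_sub_distrib]
          refine sum_congr rfl fun s _ => ?_
          field_simp
        rw [e1]
        refine (abs_sum_le_sum_abs _ _).trans ?_
        have e2 : ∀ s ∈ range (kk X + 1), |f s *
            (((((Icc 1 X).filter fun D => Cls D ∧ SR s D).card : ℝ) - pr s * N) / N)| ≤
            A * (12 * eL X) ^ k * (C * Real.exp (-(1 / 25) * eL X)) := by
          intro s hs
          rw [mem_range] at hs
          rw [abs_mul, abs_div, abs_of_pos hN0, abs_of_nonneg (hf s)]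
          have k1 : |(((Icc 1 X).filter fun D => Cls D ∧ SR s D).card : ℝ) - pr s * N| / N ≤
              C * Real.exp (-(1 / 25) * eL X) := by
            rw [div_le_iff₀ hN0]
            exact hX s
          have k2 : f s ≤ A * (12 * eL X) ^ k := by
            refine (hA s).trans ?_
            have k3 : (s : ℝ) + 1 ≤ 12 * eL X := by
              have k4 : (s : ℝ) + 1 ≤ kk X + 1 := by exact_mod_cast hs
              have := kk_le hl
              linarith
            have k5 : ((s : ℝ) + 1) ^ k ≤ (12 * eL X) ^ k := pow_le_pow_left₀ (by positivity) k3 k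
            exact mul_le_mul_of_nonneg_left k5 hA0
          exact mul_le_mul k2 k1 (by positivity) (by positivity)
        refine (sum_le_sum e2).trans ?_
        rw [sum_const, nsmul_eq_mul, card_range]
        have k1 : ((kk X + 1 : ℕ) : ℝ) ≤ 12 * eL X := by
          have := kk_le hl
          push_cast
          linarith
        calc ((kk X + 1 : ℕ) : ℝ) * (A * (12 * eL X) ^ k * (C * Real.exp (-(1 / 25) * eL X))) ≤
            (12 * eL X) * (A * (12 * eL X) ^ k * (C * Real.exp (-(1 / 25) * eL X))) :=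
              mul_le_mul_of_nonneg_right k1 (by positivity)
          _ = (A * C) * ((12 * eL X) ^ (k + 1) * Real.exp (-(1 / 25) * eL X)) := by
              rw [pow_succ]
              ring
          _ = _ := by
              have k2 : (12 * eL X) ^ (k + 1) = 300 ^ (k + 1) * (1 / 25 * eL X) ^ (k + 1) := by
                rw [← mul_pow]
                congr 1
                ring
              rw [k2]
              have k3 : -(1 / 25) * eL X = -(1 / 25 * eL X) := by ring
              rw [k3]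
              ring
      -- the second part
      have g2 : |(∑ D ∈ ((Icc 1 X).filter Cls).filter (fun D => ¬ sd D ≤ kk X), f (sd D)) / N| ≤
          (A * (k.factorial * 3 ^ k) * 2 / c) * Real.exp (-(eL X)) := by
        rw [abs_of_nonneg (div_nonneg (sum_nonneg fun D _ => hf _) hN0.le), div_le_iff₀ hN0]
        refine (rest hA0 hA X (kk X)).trans ?_
        have k1 := one_add_log hl0
        have k2 : Real.exp (-(kk X : ℝ) / 3) ≤ Real.exp (-(10 / 3) * eL X) := by
          apply Real.exp_le_exp.2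
          have := kk_ge X
          linarith
        have k3 : 0 ≤ 1 + Real.log X := by
          have := Real.log_natCast_nonneg X
          linarith
        calc A * (k.factorial * 3 ^ k) * Real.exp (-(kk X : ℝ) / 3) * (X * (1 + Real.log X)) ≤
            A * (k.factorial * 3 ^ k) * Real.exp (-(10 / 3) * eL X) *
              (X * (2 * Real.exp (eL X))) := by gcongr
          _ = A * (k.factorial * 3 ^ k) * 2 * X * (Real.exp (-(10 / 3) * eL X) *
              Real.exp (eL X)) := by ring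
          _ ≤ A * (k.factorial * 3 ^ k) * 2 * X * (Real.exp (-(eL X)) *
              Real.exp (-(eL X) / 2)) := by
              apply mul_le_mul_of_nonneg_left _ (by positivity)
              rw [← Real.exp_add, ← Real.exp_add]
              apply Real.exp_le_exp.2
              linarith
          _ = (A * (k.factorial * 3 ^ k) * 2 / c) * Real.exp (-(eL X)) *
              (c * (X * Real.exp (-(eL X) / 2))) := by field_simp
          _ ≤ _ := mul_le_mul_of_nonneg_left hlo' (by positivity)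
      have e3 : ∀ a b d : ℝ, a + b - d = (a - d) + b := fun a b d => by ring
      rw [e3]
      exact (abs_add_le _ _).trans (add_le_add g1 g2)
    · have := hpoly.add hrest
      rwa [add_zero] at this
  have h := herr.add hmain
  rw [zero_add] at h
  refine h.congr fun X => ?_
  ring

end Pool.Agent.QL543
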