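import Pool.Agent.QL543.Asy

/-!
# Project QL (helper543): the law with a power of `log X` as rate, uniformly in the property

Adapted from `R419/CF/Few.lean`, `R419/CF/Tail.lean` and `R419/CF/Asy.lean` (helper419).
-/

set_option autoImplicit false

open scoped Classical
open Finset Filter

namespace Pool.Agent.QL543.Rate

open Pool.Agent.Y703.CX Pool.Agent.R419.CF Pool.Agent.QL543
open Pool.Agent.R419.CF.NS (MM mem_MM MD cnt cnt1)
open Pool.Agent.R419.CF.Tail (FF mem_FF FF_card FF_le sq_sum QQ)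
open Pool.Agent.R419.CF.Few (SG_mem part1)
open Pool.Agent.R419.CF.Asy (SmA sma_add sma_many sma_cut sma_coll sma_main sma_rpow sum_large
  ss_le ER sum_M)
open Pool.Agent.QL543.Asy (perM Key large_M)
open Pool.Agent.Y495.CX.Few (le_of_mem_prod LL mem_LL part2)
open Pool.Agent.Y37.CX (ev_pow)

/-- few sets have few large primes, uniformly -/
theorem fewU (hs : S_SIE) : ∃ C : ℝ, 0 ≤ C ∧ ∀ᶠ X : ℕ in atTop, ∀ V : ℕ, 20 * (V : ℝ) ≤ eL X →
    (((SG X).filter fun S => ((la (zz X) S).filter fun p => p % 3 = 1).card ≤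
    (sm (zz X) S).card + V).card : ℝ) ≤ C * (X * Real.exp (-(3 / 5) * eL X)) := by
  obtain ⟨C₁, hC₁, h1⟩ := part1
  obtain ⟨C₂, hC₂, h2⟩ := part2 hs
  refine ⟨C₁ + C₂, by linarith, ?_⟩
  filter_upwards [h1, h2] with X h4 h5 V h8
  have h9 : ((SG X).filter fun S => ((la (zz X) S).filter fun p => p % 3 = 1).card ≤
      (sm (zz X) S).card + V) ⊆
      ((SG X).filter fun S => eL X / 20 < ((sm (zz X) S).card : ℝ)) ∪
        LL X (zz X) ⌊eL X / 10⌋₊ := by
    intro S hS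
    rw [mem_filter] at hS
    rw [mem_union, mem_filter]
    by_cases hc : eL X / 20 < ((sm (zz X) S).card : ℝ)
    · exact Or.inl ⟨hS.1, hc⟩
    · right
      rw [not_lt] at hc
      obtain ⟨a1, a2, a3⟩ := SG_mem hS.1
      rw [mem_LL]
      refine ⟨?_, a1, a3, a2.le, ?_⟩
      · intro p hp
        rw [mem_range]
        have := le_of_mem_prod (fun p hp => (a1 p hp).1) a3 hp
        omega
      · apply Nat.le_floor
        have h10 : ((((la (zz X) S).filter fun p => p % 3 = 1).card : ℕ) : ℝ) ≤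
            ((sm (zz X) S).card : ℝ) + V := by exact_mod_cast hS.2
        linarith
  have h10 : (((SG X).filter fun S => ((la (zz X) S).filter fun p => p % 3 = 1).card ≤
      (sm (zz X) S).card + V).card : ℝ) ≤
      (((SG X).filter fun S => eL X / 20 < ((sm (zz X) S).card : ℝ)).card : ℝ) +
        ((LL X (zz X) ⌊eL X / 10⌋₊).card : ℝ) := by
    exact_mod_cast (card_le_card h9).trans (card_union_le _ _)
  refine h10.trans ((add_le_add h4 h5).trans (le_of_eq ?_))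
  ring

theorem er_rate (hL : LamP) (hS : S_SIE) (hH : S_HAL) {C : ℝ} (hC : 1 ≤ C) :
    ∃ CE : ℝ, 0 ≤ CE ∧ ∀ᶠ X : ℕ in atTop, ∀ V : ℕ, 20 * (V : ℝ) ≤ eL X →
      ER V C X ≤ CE * (X * Real.exp (-(3 / 5) * eL X)) := by
  obtain ⟨CB, XB, hbad⟩ := Bad.bad hL hS hH
  obtain ⟨CF, hCF, hfew⟩ := fewU hS
  obtain ⟨C₁, hC₁, h1⟩ := sma_add (sma_add (sma_add (sma_add sma_many sma_cut) sma_coll)
    (sma_rpow hbad)) (sma_main hC)
  refine ⟨C₁ + CF, by linarith, ?_⟩
  filter_upwards [h1, hfew] with X h2 h3 V hV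
  have h4 := h3 V hV
  unfold ER
  linarith

/-- the contribution of the numbers `a b²` with large `b` -/
theorem tailU (hS : S_SIE) : ∃ C : ℝ, 0 ≤ C ∧ ∀ᶠ X : ℕ in atTop, ∀ B : ℕ, B ≠ 0 →
    ∑ b ∈ Ioc B X, ((FF (X / b ^ 2)).card : ℝ) ≤
      C * X * ((1 + eL X) * Real.exp (-(eL X) / 2)) * (1 / (B : ℕ)) + X * Real.exp (-1 * eL X) := by
  obtain ⟨C, hC0, hC⟩ := FF_card hS
  have hL := Real.tendsto_log_atTop.comp (tendsto_natCast_atTop_atTop (R := ℝ))
  refine ⟨C, hC0, ?_⟩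
  filter_upwards [hC, ev_eL 2, hL.eventually (ev_pow 2 (show (0 : ℝ) < 4 by norm_num)
    (show (0 : ℝ) < 3 by norm_num)), hL.eventually (eventually_ge_atTop (3 : ℝ))] with
    X h1 hl h2 h3 B hB
  simp only [Function.comp] at h2 h3
  have hl0 : 0 < eL X := by linarith
  have hX0 : (0 : ℝ) < X := by exact_mod_cast X_pos hl0
  have hQ0 : (0 : ℝ) < QQ X := by
    unfold QQ
    have := Nat.le_ceil (Real.log (X : ℝ))
    linarith
  have hQne : QQ X ≠ 0 := by
    intro h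
    rw [h] at hQ0
    norm_num at hQ0
  have hQle : (QQ X : ℝ) ≤ 2 * Real.log X := by
    unfold QQ
    have := (Nat.ceil_lt_add_one (a := Real.log (X : ℝ)) (by linarith)).le
    linarith
  have hQge : Real.log X ≤ QQ X := Nat.le_ceil _
  have hpart : ∀ b : ℕ, ((X / b ^ 2 : ℕ) : ℝ) ≤ X * (1 / (b : ℝ) ^ 2) := by
    intro b
    refine Nat.cast_div_le.trans (le_of_eq ?_)
    push_cast
    ring
  have hA : ∑ b ∈ Ioc B (QQ X), ((FF (X / b ^ 2)).card : ℝ) ≤
      C * X * ((1 + eL X) * Real.exp (-(eL X) / 2)) * (1 / (B : ℕ)) := by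
    have e1 : ∀ b ∈ Ioc B (QQ X), ((FF (X / b ^ 2)).card : ℝ) ≤
        C * X * ((1 + eL X) * Real.exp (-(eL X) / 2)) * (1 / (b : ℝ) ^ 2) := by
      intro b hb
      rw [mem_Ioc] at hb
      have hb0 : (0 : ℝ) < b := by exact_mod_cast (by omega : 0 < b)
      have hbQ : (b : ℝ) ≤ 2 * Real.log X := le_trans (by exact_mod_cast hb.2) hQle
      have hb2 : (b : ℝ) ^ 2 ≤ Real.exp (Real.log X / 3) := by
        refine le_trans ?_ h2
        have := pow_le_pow_left₀ hb0.le hbQ 2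
        linarith
      have e2 : Real.exp (Real.log X / 3) * Real.exp (Real.log X / 3) ≤ (X : ℝ) / (b : ℝ) ^ 2 := by
        rw [le_div_iff₀ (by positivity)]
        calc _ ≤ Real.exp (Real.log X / 3) * Real.exp (Real.log X / 3) *
              Real.exp (Real.log X / 3) := by gcongr
          _ = Real.exp (Real.log X) := by
              rw [← Real.exp_add, ← Real.exp_add]
              congr 1
              ring
          _ = X := Real.exp_log hX0
      have e3 : (X : ℝ) / (b : ℝ) ^ 2 < ((X / b ^ 2 : ℕ) : ℝ) + 1 := by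
        rw [div_lt_iff₀ (by positivity)]
        have := Nat.lt_mul_div_succ X (show 0 < b ^ 2 from pow_pos (by omega) 2)
        have h' : ((X : ℕ) : ℝ) < ((b ^ 2 * (X / b ^ 2 + 1) : ℕ) : ℝ) := by exact_mod_cast this
        push_cast at h'
        push_cast
        linarith
      have e4 : (2 : ℝ) ≤ Real.exp (Real.log X / 3) := by
        have := Real.add_one_le_exp (Real.log X / 3)
        linarith
      have e5 : Real.exp (Real.log X / 3) ≤ ((X / b ^ 2 : ℕ) : ℝ) := by nlinarith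
      have hZ0 : (0 : ℝ) < ((X / b ^ 2 : ℕ) : ℝ) := by linarith
      have hZ1 : 1 ≤ X / b ^ 2 := by exact_mod_cast hZ0
      have e6 : Real.log X ≤ 3 * Real.log ((X / b ^ 2 : ℕ) : ℝ) := by
        have : Real.log X / 3 ≤ Real.log ((X / b ^ 2 : ℕ) : ℝ) := by
          rw [Real.le_log_iff_exp_le hZ0]
          exact e5
        linarith
      have e7 := h1 (X / b ^ 2) (Nat.div_le_self _ _) hZ1 e6
      refine e7.trans ?_
      have e8 := hpart b
      have e9 : (0 : ℝ) ≤ (1 + eL X) * Real.exp (-(eL X) / 2) := by positivity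
      calc C * ((X / b ^ 2 : ℕ) : ℝ) * ((1 + eL X) * Real.exp (-(eL X) / 2)) ≤
          C * (X * (1 / (b : ℝ) ^ 2)) * ((1 + eL X) * Real.exp (-(eL X) / 2)) := by gcongr
        _ = _ := by ring
    refine (sum_le_sum e1).trans ?_
    rw [← mul_sum]
    apply mul_le_mul_of_nonneg_left (sq_sum hB)
    positivity
  have hB' : ∑ b ∈ Ioc (QQ X) X, ((FF (X / b ^ 2)).card : ℝ) ≤ X * Real.exp (-1 * eL X) := by
    have e1 : ∀ b ∈ Ioc (QQ X) X, ((FF (X / b ^ 2)).card : ℝ) ≤ X * (1 / (b : ℝ) ^ 2) := by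
      intro b _
      refine le_trans ?_ (hpart b)
      exact_mod_cast FF_le _
    refine (sum_le_sum e1).trans ?_
    rw [← mul_sum]
    apply mul_le_mul_of_nonneg_left _ hX0.le
    refine (sq_sum hQne).trans ?_
    rw [neg_one_mul, Real.exp_neg, ← logX_eq hl0, ← one_div]
    exact one_div_le_one_div_of_le (by linarith) hQge
  have hsub : Ioc B X ⊆ Ioc B (QQ X) ∪ Ioc (QQ X) X := by
    intro b hb
    rw [mem_Ioc] at hb
    rw [mem_union, mem_Ioc, mem_Ioc]
    omega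
  have h5 : ∑ b ∈ Ioc B X, ((FF (X / b ^ 2)).card : ℝ) ≤
      ∑ b ∈ Ioc B (QQ X), ((FF (X / b ^ 2)).card : ℝ) +
      ∑ b ∈ Ioc (QQ X) X, ((FF (X / b ^ 2)).card : ℝ) := by
    refine (sum_le_sum_of_subset_of_nonneg hsub fun _ _ _ => Nat.cast_nonneg _).trans ?_
    rw [← sum_union_inter]
    have : (0 : ℝ) ≤ ∑ b ∈ Ioc B (QQ X) ∩ Ioc (QQ X) X, ((FF (X / b ^ 2)).card : ℝ) :=
      sum_nonneg fun _ _ => Nat.cast_nonneg _
    linarith
  linarith

/-- the error for one `M` -/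
theorem small_M {P : Finset ℕ → Finset ℕ → Prop} {c₀ K₀ : ℝ} (hc0 : 0 ≤ c₀) (hc1 : c₀ ≤ 1)
    (hK₀ : 0 ≤ K₀) {C : ℝ} (hC1 : 1 ≤ C) (hkey : Key P c₀ K₀ C) (V : ℕ) {X : ℕ}
    (hl : 1 ≤ eL X) {M : Finset ℕ} (hMz : ∀ q ∈ M, q ≤ zz X) :
      |(((SW M (X / ∏ p ∈ M, p)).filter (P M)).card : ℝ) -
        c₀ * ((SW M (X / ∏ p ∈ M, p)).card : ℝ)| ≤
      K₀ * (1 / 3 : ℝ) ^ V * ((SW M (X / ∏ p ∈ M, p)).card : ℝ) + ER V C X := by
  have hl0 : 0 < eL X := by linarith
  have hlogX0 : 0 ≤ Real.log (X : ℝ) := Real.log_natCast_nonneg X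
  have hN : (HH X : ℝ) * Real.log X < NN X := by
    unfold NN
    push_cast
    exact Nat.lt_floor_add_one _
  generalize hY : X / ∏ p ∈ M, p = Y
  have hYX : Y ≤ X := by
    rw [← hY]
    exact Nat.div_le_self _ _
  have hYX' : (Y : ℝ) ≤ X := by exact_mod_cast hYX
  have hlYX : Real.log (Y : ℝ) ≤ Real.log X := by
    rcases Nat.eq_zero_or_pos Y with h0 | h0
    · rw [h0, Nat.cast_zero, Real.log_zero]
      exact hlogX0
    · exact Real.log_le_log (by exact_mod_cast h0) hYX'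
  have hNY : (HH X : ℝ) * Real.log Y < NN X :=
    lt_of_le_of_lt (mul_le_mul_of_nonneg_left hlYX (Nat.cast_nonneg _)) hN
  have hmain := hkey M Y (zz X) (HH X) (kk X) V (NN X) (kap C X) hMz (HH_pos hl0) (zz_pos hl)
    (kap_nonneg hC1 X) (kap_pow hC1 hl) hNY
  have hlast : (9 * (NN X : ℝ) + 9) ^ kk X * (3 ^ (3 * kk X ^ 2) * kap C X) *
      ((Y : ℝ) * (1 + Real.log Y)) ≤ (9 * (NN X : ℝ) + 9) ^ kk X *
      (3 ^ (3 * kk X ^ 2) * kap C X) * ((X : ℝ) * (1 + Real.log X)) := by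
    have k4 := kap_nonneg hC1 X
    have k5 : 0 ≤ Real.log (Y : ℝ) := Real.log_natCast_nonneg Y
    have k6 : (Y : ℝ) * (1 + Real.log Y) ≤ X * (1 + Real.log X) :=
      mul_le_mul hYX' (by linarith) (by linarith) (Nat.cast_nonneg _)
    exact mul_le_mul_of_nonneg_left k6 (by positivity)
  exact perM hc0 hc1 hK₀ hYX (HH_pos hl0) (hmain.trans (add_le_add le_rfl hlast))

/-- the bound of the small `b` -/
noncomputable def B2 (X : ℕ) : ℕ := ⌈Real.exp (eL X / 20)⌉₊

lemma B2_ge (X : ℕ) : Real.exp (eL X / 20) ≤ B2 X := Nat.le_ceil _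

lemma B2_le {X : ℕ} (h : 0 < eL X) : (B2 X : ℝ) ≤ 2 * Real.exp (eL X / 20) := by
  have h1 := (Nat.ceil_lt_add_one (a := Real.exp (eL X / 20)) (Real.exp_pos _).le).le
  have h2 := one_le_exp (x := eL X / 20) (by linarith)
  unfold B2
  linarith

lemma B2_zz {X : ℕ} (h : 2 ≤ eL X) : B2 X ≤ zz X := by
  have h1 := B2_le (X := X) (by linarith)
  have h2 := zz_ge (X := X) (by linarith)
  have h3 : 4 * Real.exp (eL X / 20) ≤ Real.exp (eL X ^ 3) := by
    have h4 : eL X / 20 + 3 ≤ eL X ^ 3 := by nlinarith [sq_nonneg (eL X), sq_nonneg (eL X - 2)]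
    have h5 : (4 : ℝ) ≤ Real.exp 3 := by
      have := Real.add_one_le_exp (3 : ℝ)
      linarith
    calc 4 * Real.exp (eL X / 20) ≤ Real.exp 3 * Real.exp (eL X / 20) := by gcongr
      _ = Real.exp (eL X / 20 + 3) := by rw [← Real.exp_add]; congr 1; ring
      _ ≤ _ := Real.exp_le_exp.2 h4
  have h4 : ((B2 X : ℕ) : ℝ) ≤ ((zz X : ℕ) : ℝ) := by linarith
  exact_mod_cast h4

lemma B2_ne (X : ℕ) : B2 X ≠ 0 := by
  intro h
  have h1 := B2_ge X
  rw [h, Nat.cast_zero] at h1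
  have := Real.exp_pos (eL X / 20)
  linarith

/-- **the law with rate, uniformly in the property** -/
theorem t_RATE (hL : LamP) (h1 : S_BIL1) (h2 : S_BIL2) (hS : S_SIE) (hH : S_HAL) (hM : S_MER)
    (hCh : S_CHE) (hLo : S_LOW) {K₀ : ℝ} (hK₀ : 0 ≤ K₀) : ∃ C : ℝ, 0 ≤ C ∧ ∀ᶠ X : ℕ in atTop,
    ∀ (P : Finset ℕ → Finset ℕ → Prop) (c₀ : ℝ), 0 ≤ c₀ → c₀ ≤ 1 → BoxQ P c₀ K₀ →
    |((∑ M ∈ MM X, ((SW M (X / ∏ p ∈ M, p)).filter (P M)).card : ℕ) : ℝ) -
      c₀ * ((∑ M ∈ MM X, (SW M (X / ∏ p ∈ M, p)).card : ℕ) : ℝ)| ≤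
      C * Real.exp (-(1 / 25) * eL X) *
        ((∑ M ∈ MM X, (SW M (X / ∏ p ∈ M, p)).card : ℕ) : ℝ) := by
  obtain ⟨C, hC1, hkey⟩ := t_KEYQ hL h1 h2
  obtain ⟨c, X₀, hc, hlow⟩ := hLo hM hCh
  obtain ⟨CE, hCE, hEE⟩ := er_rate hL hS hH hC1
  obtain ⟨CT, hCT, hTT⟩ := tailU hS
  refine ⟨3 * K₀ + (3 * CE + (CT * 101 + 1)) / c, by positivity, ?_⟩
  filter_upwards [hEE, hTT, ev_eL 242, eventually_ge_atTop X₀,
    lin_le (a := 1 / 100) (b := 1) (by norm_num) (by norm_num)] with X hEX hTX hl hX0 hlin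
    P c₀ hc0 hc1 hBX
  have hkey' : Key P c₀ K₀ C := hkey P c₀ K₀ hK₀ hBX
  have hl0 : 0 < eL X := by linarith
  have hl1 : 1 ≤ eL X := by linarith
  have hlo := hlow X hX0
  rw [rpow_eL hl0] at hlo
  have hXp := X_pos hl0
  have hXp' : (0 : ℝ) < X := by exact_mod_cast hXp
  have e0 : (-(1 / 2) * eL X : ℝ) = -(eL X) / 2 := by ring
  rw [e0] at hlo
  obtain ⟨N, hN⟩ : ∃ N : ℝ, N = ((∑ M ∈ MM X, (SW M (X / ∏ p ∈ M, p)).card : ℕ) : ℝ) := ⟨_, rfl⟩
  have hSS : ((SS X).card : ℝ) ≤ N := by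
    rw [hN]
    exact_mod_cast ss_le hXp
  obtain ⟨Q, hQ⟩ : ∃ Q : ℝ, Q = X * Real.exp (-(eL X) / 2) := ⟨_, rfl⟩
  have hQ0 : 0 < Q := by rw [hQ]; positivity
  have hQN : c * Q ≤ N := by
    rw [hQ, ← mul_assoc]
    exact hlo.trans hSS
  have hN0 : 0 < N := lt_of_lt_of_le (by positivity) hQN
  have hQN' : Q ≤ N / c := by
    rw [le_div_iff₀ hc]
    linarith
  obtain ⟨V, hV⟩ : ∃ V : ℕ, V = ⌊eL X / 20⌋₊ := ⟨_, rfl⟩
  have hV1 : 20 * (V : ℝ) ≤ eL X := by
    have := Nat.floor_le (a := eL X / 20) (by linarith)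
    rw [← hV] at this
    linarith
  have hV2 : eL X / 20 - 1 ≤ V := by
    have := (Nat.lt_floor_add_one (eL X / 20)).le
    rw [← hV] at this
    linarith
  have htot := sum_M X (B2 X) (fun M => ((SW M (X / ∏ p ∈ M, p)).filter (P M)).card)
    (fun M => (SW M (X / ∏ p ∈ M, p)).card) (fun M => ((FF (X / (∏ p ∈ M, p) ^ 2)).card : ℝ))
    c₀ (K₀ * (1 / 3 : ℝ) ^ V) (CE * (X * Real.exp (-(3 / 5) * eL X)))
    (∑ b ∈ Ioc (B2 X) X, ((FF (X / b ^ 2)).card : ℝ)) (by positivity) (by positivity)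
    (fun M hM k => (small_M hc0 hc1 hK₀ hC1 hkey' V hl1 (fun q hq =>
        ((Nat.le_of_dvd (prod_primes_pos (mem_MM.1 hM).1)
          (Finset.dvd_prod_of_mem (fun p => p) hq)).trans k).trans (B2_zz (by linarith)))).trans
      (add_le_add le_rfl (hEX V hV1)))
    (fun M hM => large_M hc0 hc1 X (mem_MM.1 hM).1) (sum_large X (B2 X))
  rw [← hN] at htot ⊢
  obtain ⟨t, ht⟩ : ∃ t : ℝ, t = Real.exp (-(1 / 25) * eL X) := ⟨_, rfl⟩
  have ht0 : 0 < t := by rw [ht]; exact Real.exp_pos _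
  -- the first term
  have g1 : K₀ * (1 / 3 : ℝ) ^ V ≤ 3 * K₀ * t := by
    have e1 : (1 / 3 : ℝ) ^ V ≤ 3 * t := by
      have e2 : (1 / 3 : ℝ) ≤ Real.exp (-1) := by
        rw [Real.exp_neg, one_div]
        have h3 : Real.exp 1 ≤ 3 := by
          have := Real.exp_one_lt_d9
          linarith
        exact inv_anti₀ (Real.exp_pos _) h3
      have e3 : (1 / 3 : ℝ) ^ V ≤ Real.exp (-(V : ℝ)) := by
        calc (1 / 3 : ℝ) ^ V ≤ (Real.exp (-1)) ^ V := by gcongr
          _ = Real.exp (-(V : ℝ)) := by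
              rw [← Real.exp_nat_mul]
              congr 1
              ring
      have e4 : Real.exp (-(V : ℝ)) ≤ Real.exp (1 + -(1 / 25) * eL X) := by
        apply Real.exp_le_exp.2
        linarith
      have e5 : Real.exp (1 + -(1 / 25) * eL X) = Real.exp 1 * t := by
        rw [Real.exp_add, ht]
      have e6 : Real.exp 1 ≤ 3 := by
        have := Real.exp_one_lt_d9
        linarith
      rw [e5] at e4
      have e7 : Real.exp 1 * t ≤ 3 * t := mul_le_mul_of_nonneg_right e6 ht0.le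
      linarith
    calc K₀ * (1 / 3 : ℝ) ^ V ≤ K₀ * (3 * t) := mul_le_mul_of_nonneg_left e1 hK₀
      _ = _ := by ring
  -- the second term
  have g2 : ((B2 X : ℝ) + 1) * (CE * (X * Real.exp (-(3 / 5) * eL X))) ≤ 3 * CE * t * Q := by
    have e1 := B2_le hl0
    have e2 := one_le_exp (x := eL X / 20) (by linarith)
    have e3 : Real.exp (eL X / 20) * Real.exp (-(3 / 5) * eL X) ≤ t * Real.exp (-(eL X) / 2) := by
      rw [ht, ← Real.exp_add, ← Real.exp_add]
      apply Real.exp_le_exp.2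
      linarith
    calc ((B2 X : ℝ) + 1) * (CE * (X * Real.exp (-(3 / 5) * eL X))) ≤
        (3 * Real.exp (eL X / 20)) * (CE * (X * Real.exp (-(3 / 5) * eL X))) :=
          mul_le_mul_of_nonneg_right (by linarith) (by positivity)
      _ = 3 * CE * X * (Real.exp (eL X / 20) * Real.exp (-(3 / 5) * eL X)) := by ring
      _ ≤ 3 * CE * X * (t * Real.exp (-(eL X) / 2)) :=
          mul_le_mul_of_nonneg_left e3 (by positivity)
      _ = 3 * CE * t * Q := by rw [hQ]; ring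
  -- the third term
  have g3 : ∑ b ∈ Ioc (B2 X) X, ((FF (X / b ^ 2)).card : ℝ) ≤ (CT * 101 + 1) * t * Q := by
    refine (hTX (B2 X) (B2_ne X)).trans ?_
    have e1 : (1 : ℝ) / (B2 X : ℕ) ≤ Real.exp (-(eL X) / 20) := by
      have h5 := B2_ge X
      have e : Real.exp (-(eL X) / 20) = 1 / Real.exp (eL X / 20) := by
        rw [neg_div, Real.exp_neg, one_div]
      rw [e]
      exact one_div_le_one_div_of_le (Real.exp_pos _) h5
    have e2 : (1 + eL X) * Real.exp (-(eL X) / 20) ≤ 101 * t := by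
      have h5 : 1 + eL X ≤ 101 * Real.exp (1 / 100 * eL X) := by
        have h6 := one_le_exp (x := 1 / 100 * eL X) (by linarith)
        have h7 := Real.add_one_le_exp (1 / 100 * eL X)
        linarith
      calc (1 + eL X) * Real.exp (-(eL X) / 20) ≤
          101 * Real.exp (1 / 100 * eL X) * Real.exp (-(eL X) / 20) :=
            mul_le_mul_of_nonneg_right h5 (Real.exp_pos _).le
        _ = 101 * t := by
            rw [mul_assoc, ← Real.exp_add, ht]
            congr 2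
            ring
    have e3 : (X : ℝ) * Real.exp (-1 * eL X) ≤ t * Q := by
      rw [hQ, ht]
      have e4 : Real.exp (-1 * eL X) ≤ Real.exp (-(1 / 25) * eL X) * Real.exp (-(eL X) / 2) := by
        rw [← Real.exp_add]
        apply Real.exp_le_exp.2
        linarith
      calc (X : ℝ) * Real.exp (-1 * eL X) ≤
          X * (Real.exp (-(1 / 25) * eL X) * Real.exp (-(eL X) / 2)) := by gcongr
        _ = _ := by ring
    have e5 : CT * X * ((1 + eL X) * Real.exp (-(eL X) / 2)) * (1 / (B2 X : ℕ)) ≤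
        CT * 101 * t * Q := by
      calc CT * X * ((1 + eL X) * Real.exp (-(eL X) / 2)) * (1 / (B2 X : ℕ)) ≤
          CT * X * ((1 + eL X) * Real.exp (-(eL X) / 2)) * Real.exp (-(eL X) / 20) :=
            mul_le_mul_of_nonneg_left e1 (by positivity)
        _ = CT * Q * ((1 + eL X) * Real.exp (-(eL X) / 20)) := by rw [hQ]; ring
        _ ≤ CT * Q * (101 * t) := mul_le_mul_of_nonneg_left e2 (by positivity)
        _ = _ := by ring
    linarith
  rw [← ht]
  have g4 : (3 * CE + (CT * 101 + 1)) * t * Q ≤ (3 * CE + (CT * 101 + 1)) * t * (N / c) :=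
    mul_le_mul_of_nonneg_left hQN' (by positivity)
  have g5 : K₀ * (1 / 3 : ℝ) ^ V * N ≤ 3 * K₀ * t * N := mul_le_mul_of_nonneg_right g1 hN0.le
  have g6 : (3 * K₀ + (3 * CE + (CT * 101 + 1)) / c) * t * N =
      3 * K₀ * t * N + (3 * CE + (CT * 101 + 1)) * t * (N / c) := by
    field_simp
  rw [g6]
  refine htot.trans ?_
  linarith

end Pool.Agent.QL543.Rate
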